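import Pool.Agent.H16.FL.Crit

/-!
# Corestriction with flags
-/

set_option autoImplicit false
set_option linter.unusedSectionVars false

namespace Pool.Agent.H16.FL

open Filter Topology
open Pool.Agent.NH7.GU (Cyc Chr)
open Pool.Agent.NH7.BK

variable {p : ℕ} [hp : Fact p.Prime] {G : Type} [Group G] [TopologicalSpace G]

section

variable {O : Type} [CommRing O] [Algebra ℤ_[p] O] {N : ℕ}

theorem toO_add (x y : Fin N → ℤ_[p]) : toO O (x + y) = toO O x + toO O y := by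
  funext j
  exact map_add _ _ _

theorem mO_toO {d : Pl G} (R : Rp p d N) (g : G) (x : Fin N → ℤ_[p]) :
    (R.mO O g).mulVec (toO O x) = toO O ((R.ρ g).mulVec x) := by
  funext j
  exact (RingHom.map_mulVec (algebraMap ℤ_[p] O) (R.ρ g) x j).symm

end

variable {d : Pl G} {N : ℕ} {R : Rp p d N} {Φ : Fg p N R.ρ}

open Pool.Agent.NH7.BK.CorOP in
/-- the twisted corestriction satisfies the local conditions -/
theorem corO [IsTopologicalGroup G] (he : IsEmpty d.κ) {O : Type} [CommRing O]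
    [Algebra ℤ_[p] O] (C : Cyc p O) (c : Chr p G) {f : G → Fin N → ℤ_[p]}
    (hf : SelF R Φ c.ker f) :
    ∃ F : G → Fin N → O, IsF C c R Φ F ∧
    ∀ g ∈ c.ker, F g = ∑ i : ZMod p, C.z ^ i.val •
      toO O ((R.ρ (c.σ ^ i.val)).mulVec (f ((c.σ ^ i.val)⁻¹ * g * c.σ ^ i.val))) := by
  obtain ⟨F, hF, h2⟩ := s_corO s_cor p O C G d c N R f ⟨hf.coc, hf.away, fun k => he.elim k⟩
  refine ⟨F, ⟨hF.cont, hF.mul, hF.away, fun k => ?_⟩, h2⟩
  have h4 : ∀ i : ZMod p, ∃ (m : ℕ) (z : Fin N → ℤ_[p]), ∀ g ∈ Φ.D k, c.χ g = 0 →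
      (p : ℤ_[p]) ^ m • (R.ρ (c.σ ^ i.val)).mulVec (f ((c.σ ^ i.val)⁻¹ * g * c.σ ^ i.val)) -
        ((R.ρ g).mulVec z - z) ∈ Φ.W ℤ_[p] k := by
    intro i
    obtain ⟨j, hj, hW⟩ := W_conj Φ (O := ℤ_[p]) k (c.σ ^ i.val)⁻¹
    obtain ⟨m, z, hz⟩ := hf.flag j
    refine ⟨m, (R.ρ (c.σ ^ i.val)).mulVec z, fun g hg hχ => ?_⟩
    have h5 := hj g hg
    rw [inv_inv] at h5 hW
    have h6 := hW _ (hz _ h5 (chi_conj c _ hχ))
    rw [mp_self, Matrix.mulVec_sub, Matrix.mulVec_sub, Matrix.mulVec_smul, Matrix.mulVec_mulVec,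
      ← map_mul] at h6
    have e : g * c.σ ^ i.val = c.σ ^ i.val * ((c.σ ^ i.val)⁻¹ * g * c.σ ^ i.val) := by group
    rw [Matrix.mulVec_mulVec, ← map_mul, e]
    exact h6
  choose m z hmz using h4
  obtain ⟨s, hs⟩ := p_dvd C (∑ i : ZMod p, m i)
  set M := ∑ i : ZMod p, m i with hM
  have hm : ∀ i, m i ≤ M := fun i => Finset.single_le_sum (f := m) (fun _ _ => Nat.zero_le _)
    (Finset.mem_univ i)
  refine ⟨p * M, s • ∑ i : ZMod p, C.z ^ i.val •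
    toO O ((p : ℤ_[p]) ^ (M - m i) • z i), fun g hg hχ => ?_⟩
  have h7 : ∀ i : ZMod p, (p : ℤ_[p]) ^ M •
      (R.ρ (c.σ ^ i.val)).mulVec (f ((c.σ ^ i.val)⁻¹ * g * c.σ ^ i.val)) -
        ((R.ρ g).mulVec ((p : ℤ_[p]) ^ (M - m i) • z i) - (p : ℤ_[p]) ^ (M - m i) • z i) ∈
        Φ.W ℤ_[p] k := by
    intro i
    have h8 := (Φ.W ℤ_[p] k).smul_mem ((p : ℤ_[p]) ^ (M - m i)) (hmz i g hg hχ)
    rw [smul_sub, smul_smul, ← pow_add, Nat.sub_add_cancel (hm i), smul_sub] at h8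
    rwa [Matrix.mulVec_smul]
  have h9 : (C.z - 1) ^ (p * M) • F g - ((R.mO O g).mulVec (s • ∑ i : ZMod p, C.z ^ i.val •
      toO O ((p : ℤ_[p]) ^ (M - m i) • z i)) - s • ∑ i : ZMod p, C.z ^ i.val •
      toO O ((p : ℤ_[p]) ^ (M - m i) • z i)) = s • ∑ i : ZMod p, C.z ^ i.val • toO O
        ((p : ℤ_[p]) ^ M • (R.ρ (c.σ ^ i.val)).mulVec (f ((c.σ ^ i.val)⁻¹ * g * c.σ ^ i.val)) -
        ((R.ρ g).mulVec ((p : ℤ_[p]) ^ (M - m i) • z i) - (p : ℤ_[p]) ^ (M - m i) • z i)) := by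
    rw [hs, mul_smul, Matrix.mulVec_smul, ← smul_sub, ← smul_sub, h2 g hχ]
    congr 1
    rw [Finset.smul_sum, Matrix.mulVec_sum, ← Finset.sum_sub_distrib, ← Finset.sum_sub_distrib]
    refine Finset.sum_congr rfl fun i _ => ?_
    rw [Matrix.mulVec_smul, ← smul_sub, smul_comm, ← smul_sub, toO_sub, toO_sub, mO_toO,
      ← toO_smul]
  rw [h9]
  refine (Φ.W O k).smul_mem _ ((Φ.W O k).sum_mem fun i _ => (Φ.W O k).smul_mem _ ?_)
  exact W_toO Φ (h7 i)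

open Pool.Agent.NH7.BK.CorZV in
/-- the corestriction satisfies the local conditions -/
theorem corZ [IsTopologicalGroup G] (he : IsEmpty d.κ) (c : Chr p G) {f : G → Fin N → ℤ_[p]}
    (hf : SelF R Φ c.ker f) :
    ∃ F : G → Fin N → ℤ_[p], SelF R Φ ⊤ F ∧ ∀ g ∈ c.ker, F g = ∑ i : ZMod p,
      (R.ρ (c.σ ^ i.val)).mulVec (f ((c.σ ^ i.val)⁻¹ * g * c.σ ^ i.val)) := by
  obtain ⟨F, hF0, hK⟩ := s_corZ s_cor p G d c N R f ⟨hf.coc, hf.away, fun k => he.elim k⟩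
  have hF : ∀ g h, F (g * h) = F g + (R.ρ g).mulVec (F h) := fun g h =>
    hF0.coc.mul g (Subgroup.mem_top _) h (Subgroup.mem_top _)
  refine ⟨F, ⟨hF0.coc, hF0.away, fun k => ?_⟩, hK⟩
  have hz : ∀ i : ZMod p, ∃ (m : ℕ) (z : Fin N → ℤ_[p]), ∀ g ∈ Φ.D k, g ∈ c.ker →
      (p : ℤ_[p]) ^ m • (R.ρ (c.σ ^ i.val)).mulVec (f ((c.σ ^ i.val)⁻¹ * g * c.σ ^ i.val)) -
        ((R.ρ g).mulVec z - z) ∈ Φ.W ℤ_[p] k := by
    intro i
    obtain ⟨j, hj, hW⟩ := W_conj Φ (O := ℤ_[p]) k (c.σ ^ i.val)⁻¹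
    obtain ⟨m, z, hz⟩ := hf.flag j
    refine ⟨m, (R.ρ (c.σ ^ i.val)).mulVec z, fun g hg hχ => ?_⟩
    have h5 := hj g hg
    rw [inv_inv] at h5 hW
    have h6 := hW _ (hz _ h5 (Pool.Agent.NH7.BK.CorOP.chi_conj c _ hχ))
    rw [mp_self, Matrix.mulVec_sub, Matrix.mulVec_sub, Matrix.mulVec_smul, Matrix.mulVec_mulVec,
      ← map_mul] at h6
    have e : g * c.σ ^ i.val = c.σ ^ i.val * ((c.σ ^ i.val)⁻¹ * g * c.σ ^ i.val) := by group
    rw [Matrix.mulVec_mulVec, ← map_mul, e]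
    exact h6
  choose m z hz using hz
  obtain ⟨M, hM⟩ : ∃ M : ℕ, ∀ i : ZMod p, m i ≤ M :=
    ⟨Finset.univ.sup m, fun i => Finset.le_sup (Finset.mem_univ i)⟩
  obtain ⟨T, hT⟩ : ∃ T, T = ∑ i : ZMod p, (p : ℤ_[p]) ^ (M - m i) • z i := ⟨_, rfl⟩
  have hFk : ∀ g ∈ Φ.D k, g ∈ c.ker → (p : ℤ_[p]) ^ M • F g - ((R.ρ g).mulVec T - T) ∈
      Φ.W ℤ_[p] k := by
    intro g hg hgk
    rw [hK g hgk, hT, Finset.smul_sum, Matrix.mulVec_sum, ← Finset.sum_sub_distrib,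
      ← Finset.sum_sub_distrib]
    refine (Φ.W ℤ_[p] k).sum_mem fun i _ => ?_
    have h8 := (Φ.W ℤ_[p] k).smul_mem ((p : ℤ_[p]) ^ (M - m i)) (hz i g hg hgk)
    rw [smul_sub, smul_smul, ← pow_add, Nat.sub_add_cancel (hM i), smul_sub] at h8
    rwa [Matrix.mulVec_smul]
  by_cases hχ : ∀ g ∈ Φ.D k, c.χ g = 0
  · exact ⟨M, T, fun g hg _ => hFk g hg (hχ g hg)⟩
  push Not at hχ
  obtain ⟨s, hs, hs1⟩ := exists_chi_one c (Φ.D k) hχ
  obtain ⟨F', hF'⟩ : ∃ F' : G → Fin N → ℤ_[p],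
      ∀ g, F' g = (p : ℤ_[p]) ^ M • F g - ((R.ρ g).mulVec T - T) := ⟨_, fun _ => rfl⟩
  have hm : ∀ g h, F' (g * h) = F' g + (R.ρ g).mulVec (F' h) := by
    intro g h
    rw [hF', hF', hF', hF, rho_mul, Matrix.mulVec_sub, Matrix.mulVec_sub, Matrix.mulVec_smul,
      smul_add]
    abel
  have h0 : ∀ g ∈ Φ.D k, g ∈ c.ker → F' g ∈ Φ.W ℤ_[p] k := by
    intro g hg hgk
    rw [hF']
    exact hFk g hg hgk
  have hχs : ∀ i : ZMod p, c.χ (s ^ i.val) = i := by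
    intro i
    rw [Pool.Agent.NH7.BK.chi_pow, hs1, mul_one, ZMod.natCast_zmod_val]
  obtain ⟨S, hS⟩ : ∃ S, S = ∑ i : ZMod p, F' (s ^ i.val) := ⟨_, rfl⟩
  have hkey : ∀ g ∈ Φ.D k, (p : ℤ_[p]) • F' g - (S - (R.ρ g).mulVec S) ∈ Φ.W ℤ_[p] k := by
    intro g hg
    have h7 : ∀ i : ZMod p, F' g + (R.ρ g).mulVec (F' (s ^ i.val)) - F' (s ^ (c.χ g + i).val) ∈
        Φ.W ℤ_[p] k := by
      intro i
      rw [← hm]
      have h8 : g * s ^ i.val =
          s ^ (c.χ g + i).val * ((s ^ (c.χ g + i).val)⁻¹ * (g * s ^ i.val)) := by group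
      have h13 : F' ((s ^ (c.χ g + i).val)⁻¹ * (g * s ^ i.val)) ∈ Φ.W ℤ_[p] k := by
        refine h0 _ ?_ ?_
        · exact (Φ.D k).mul_mem ((Φ.D k).inv_mem ((Φ.D k).pow_mem hs _))
            ((Φ.D k).mul_mem hg ((Φ.D k).pow_mem hs _))
        · rw [Chr.mem_ker, c.m, c.m, Pool.Agent.NH7.BK.chi_inv, hχs, hχs]
          ring
      have h14 : F' (g * s ^ i.val) - F' (s ^ (c.χ g + i).val) =
          (R.ρ (s ^ (c.χ g + i).val)).mulVec
            (F' ((s ^ (c.χ g + i).val)⁻¹ * (g * s ^ i.val))) := by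
        conv_lhs => rw [h8]
        rw [hm, add_sub_cancel_left]
      rw [h14]
      have h15 := W_stab Φ ((Φ.D k).pow_mem hs (c.χ g + i).val) h13
      rwa [mp_self] at h15
    have h9 : ∑ i : ZMod p, (F' g + (R.ρ g).mulVec (F' (s ^ i.val)) -
        F' (s ^ (c.χ g + i).val)) = (p : ℤ_[p]) • F' g - (S - (R.ρ g).mulVec S) := by
      rw [Finset.sum_sub_distrib, Finset.sum_add_distrib, ← Matrix.mulVec_sum, ← hS,
        Finset.sum_const, Finset.card_univ, ZMod.card, Nat.cast_smul_eq_nsmul]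
      have h10 : ∑ i : ZMod p, F' (s ^ (c.χ g + i).val) = S := by
        rw [hS]
        exact Equiv.sum_comp (Equiv.addLeft (c.χ g)) fun i => F' (s ^ i.val)
      rw [h10]
      abel
    rw [← h9]
    exact (Φ.W ℤ_[p] k).sum_mem fun i _ => h7 i
  refine ⟨M + 1, (p : ℤ_[p]) • T - S, fun g hg _ => ?_⟩
  have h11 := hkey g hg
  rw [hF'] at h11
  convert h11 using 1
  rw [pow_succ', mul_smul, Matrix.mulVec_sub, Matrix.mulVec_smul, smul_sub, smul_sub]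
  abel

theorem SelF.smul {H : Subgroup G} {f : G → Fin N → ℤ_[p]} (hf : SelF R Φ H f)
    (a : ℤ_[p]) : SelF R Φ H (fun g => a • f g) := by
  refine ⟨⟨?_, ?_⟩, ?_, ?_⟩
  · exact hf.coc.cont.const_smul a
  · intro g hg h hh
    beta_reduce
    rw [hf.coc.mul g hg h hh, smul_add, Matrix.mulVec_smul]
  · intro i g hg hH
    beta_reduce
    rw [hf.away i g hg hH, smul_zero]
  · intro k
    obtain ⟨m, z, hz⟩ := hf.flag k
    refine ⟨m, a • z, fun g hg hH => ?_⟩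
    have h1 := (Φ.W ℤ_[p] k).smul_mem a (hz g hg hH)
    beta_reduce
    rwa [smul_comm, Matrix.mulVec_smul, ← smul_sub, ← smul_sub]

open Pool.Agent.NH7.BK.Cmp39 in
/-- The comparison. -/
theorem cmp [IsTopologicalGroup G] (he : IsEmpty d.κ) (hp2 : p ≠ 2) (c : Chr p G)
    (hk : ∀ k, ∃ g ∈ Φ.D k, c.χ g ≠ 0)
    (hT : ∀ j : Fin N, Mn d c {H | ∃ k, ¬ Φ.J k j ∧ H = Φ.D k})
    {f : G → Fin N → ℤ_[p]} (hf : SelF R Φ c.ker f) :
    ∃ F : G → Fin N → ℤ_[p], SelF R Φ ⊤ F ∧ ∃ (m : ℕ) (z : Fin N → ℤ_[p]), ∀ g ∈ c.ker,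
      (p : ℤ_[p]) ^ m • f g = F g + ((R.ρ g).mulVec z - z) := by
  obtain ⟨O, _, _, ⟨C⟩⟩ := Pool.Agent.NH7.GU.s_cyc p
  obtain ⟨FO, hFO, hFk⟩ := corO he C c hf
  obtain ⟨t, ht⟩ := crit he hp2 hk hT hFO
  choose a' ha' using fun j => C.span (t j)
  obtain ⟨a, haa⟩ : ∃ a : ZMod p → Fin N → ℤ_[p], ∀ i j, a i j = a' j i := ⟨_, fun i j => rfl⟩
  have ha : ∀ j, t j = ∑ i, algebraMap ℤ_[p] O (a i j) * C.z ^ i.val := by
    intro j
    rw [ha' j]
    exact Finset.sum_congr rfl fun i _ => by rw [haa]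
  obtain ⟨FZ, hFZ, hFZk⟩ := corZ he c hf
  obtain ⟨cc, hcc⟩ : ∃ cc : ZMod p → G → Fin N → ℤ_[p], ∀ i g, cc i g =
    (R.ρ (c.σ ^ i.val)).mulVec (f ((c.σ ^ i.val)⁻¹ * g * c.σ ^ i.val)) := ⟨_, fun i g => rfl⟩
  obtain ⟨A, hA⟩ : ∃ A : Fin N → ℤ_[p], A = ∑ i, a i := ⟨_, rfl⟩
  have hcc0 : ∀ g, cc 0 g = f g := by
    intro g
    rw [hcc, ZMod.val_zero, pow_zero, map_one, Matrix.one_mulVec]
    simp
  -- the shift
  have hz : ∀ i : ZMod p, C.z * C.z ^ i.val = C.z ^ (i + 1).val := by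
    intro i
    have e : ((i.val + 1 : ℕ) : ZMod p) = i + 1 := by
      push_cast
      rw [ZMod.natCast_zmod_val]
    rw [← e, ZMod.val_natCast, ← pow_succ', pow_eq_pow_mod _ C.z_pow]
  have hmt : ∀ g j, (R.mO O g).mulVec t j =
      ∑ i, algebraMap ℤ_[p] O ((R.ρ g).mulVec (a i) j) * C.z ^ i.val := by
    intro g j
    have e1 : t = ∑ i, C.z ^ i.val • toO O (a i) := by
      funext j
      rw [ha, Finset.sum_apply]
      refine Finset.sum_congr rfl fun i _ => ?_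
      rw [Pi.smul_apply, toO_apply, smul_eq_mul, mul_comm]
    rw [e1, Matrix.mulVec_sum, Finset.sum_apply]
    refine Finset.sum_congr rfl fun i _ => ?_
    rw [Matrix.mulVec_smul, mO_toO, Pi.smul_apply, toO_apply, smul_eq_mul, mul_comm]
  have key : ∀ g ∈ c.ker, ∀ i j, cc (i - 1) g - cc i g - L R g (a i) =
      cc (j - 1) g - cc j g - L R g (a j) := by
    intro g hg i i'
    funext j
    refine C.rel (fun i => (cc (i - 1) g - cc i g - L R g (a i)) j) ?_ i i'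
    have e1 : FO g j = ∑ i : ZMod p, algebraMap ℤ_[p] O (cc i g j) * C.z ^ i.val := by
      rw [hFk g hg, Finset.sum_apply]
      refine Finset.sum_congr rfl fun i _ => ?_
      rw [Pi.smul_apply, toO_apply, hcc, smul_eq_mul, mul_comm]
    have e2 : C.z * FO g j = ∑ i : ZMod p, algebraMap ℤ_[p] O (cc (i - 1) g j) * C.z ^ i.val := by
      rw [e1, Finset.mul_sum]
      refine Fintype.sum_equiv (Equiv.addRight (1 : ZMod p)) _ _ fun i => ?_
      show C.z * (algebraMap ℤ_[p] O (cc i g j) * C.z ^ i.val) =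
        algebraMap ℤ_[p] O (cc (i + 1 - 1) g j) * C.z ^ (i + 1).val
      rw [← hz, add_sub_cancel_right]
      ring
    have e3 := congrFun (ht g) j
    have hg0 : c.χ g = 0 := hg
    rw [hg0, ZMod.val_zero, pow_zero, one_smul, Pi.smul_apply, Pi.sub_apply, smul_eq_mul] at e3
    have e4 : ∑ i : ZMod p, algebraMap ℤ_[p] O ((cc (i - 1) g - cc i g - L R g (a i)) j) *
        C.z ^ i.val = C.z * FO g j - FO g j - ((R.mO O g).mulVec t j - t j) := by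
      rw [e2, hmt, ha, e1, ← Finset.sum_sub_distrib, ← Finset.sum_sub_distrib,
        ← Finset.sum_sub_distrib]
      refine Finset.sum_congr rfl fun i _ => ?_
      rw [Pi.sub_apply, Pi.sub_apply, Lmap_apply, Pi.sub_apply, map_sub, map_sub, map_sub]
      ring
    rw [e4]
    linear_combination e3
  have hsum : ∀ g, ∑ i : ZMod p, (cc (i - 1) g - cc i g) = 0 := by
    intro g
    rw [Finset.sum_sub_distrib, sub_eq_zero]
    exact Fintype.sum_equiv (Equiv.subRight (1 : ZMod p)) _ _ fun i => rfl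
  have key2 : ∀ g ∈ c.ker, ∀ j, (p : ℤ_[p]) • (cc (j - 1) g - cc j g) =
      L R g ((p : ℤ_[p]) • a j - A) := by
    intro g hg j
    have e1 : ∑ i : ZMod p, (cc (i - 1) g - cc i g - L R g (a i)) =
        (p : ℤ_[p]) • (cc (j - 1) g - cc j g - L R g (a j)) := by
      rw [Finset.sum_congr rfl fun i _ => key g hg i j, Finset.sum_const, Finset.card_univ,
        ZMod.card, ← Nat.cast_smul_eq_nsmul ℤ_[p]]
    have e2 : ∑ i : ZMod p, (cc (i - 1) g - cc i g - L R g (a i)) = -(L R g A) := by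
      rw [Finset.sum_sub_distrib, hsum, hA, map_sum, zero_sub]
    rw [e2, smul_sub] at e1
    rw [map_sub, map_smul]
    have e3 : (p : ℤ_[p]) • (cc (j - 1) g - cc j g) =
      (p : ℤ_[p]) • (cc (j - 1) g - cc j g) - (p : ℤ_[p]) • L R g (a j) +
        (p : ℤ_[p]) • L R g (a j) := by abel
    rw [e3, ← e1]
    abel
  have hB : ∀ n : ℕ, ∃ B : Fin N → ℤ_[p], ∀ g ∈ c.ker,
      (p : ℤ_[p]) • (cc (n : ZMod p) g - cc 0 g) = L R g B := by
    intro n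
    induction n with
    | zero => exact ⟨0, fun g _ => by rw [Nat.cast_zero, sub_self, smul_zero, map_zero]⟩
    | succ n ih =>
      obtain ⟨B, hB⟩ := ih
      refine ⟨B - ((p : ℤ_[p]) • a ((n : ZMod p) + 1) - A), fun g hg => ?_⟩
      have e1 := key2 g hg ((n : ZMod p) + 1)
      rw [add_sub_cancel_right] at e1
      have e2 := hB g hg
      rw [map_sub, ← e1, ← e2, ← smul_sub]
      push_cast
      congr 1
      abel
  choose B hB using hB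
  have main : ∀ g ∈ c.ker, (p : ℤ_[p]) • (FZ g - (p : ℤ_[p]) • f g) =
      L R g (∑ j : ZMod p, B j.val) := by
    intro g hg
    have e1 : FZ g = ∑ j : ZMod p, cc j g := by
      rw [hFZk g hg]
      exact Finset.sum_congr rfl fun j _ => (hcc j g).symm
    have e2 : FZ g - (p : ℤ_[p]) • f g = ∑ j : ZMod p, (cc j g - cc 0 g) := by
      rw [Finset.sum_sub_distrib, ← e1, Finset.sum_const, Finset.card_univ, ZMod.card,
        ← Nat.cast_smul_eq_nsmul ℤ_[p], hcc0]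
    rw [e2, Finset.smul_sum, map_sum]
    refine Finset.sum_congr rfl fun j _ => ?_
    have e3 := hB j.val g hg
    rw [ZMod.natCast_zmod_val] at e3
    exact e3
  refine ⟨fun g => (p : ℤ_[p]) • FZ g, SelF.smul hFZ _, 2, -(∑ j : ZMod p, B j.val), fun g hg => ?_⟩
  have e1 := main g hg
  have e2 : (R.ρ g).mulVec (-(∑ j : ZMod p, B j.val)) - -(∑ j : ZMod p, B j.val) =
      -(L R g (∑ j : ZMod p, B j.val)) := by
    rw [← map_neg, Lmap_apply]
  rw [e2, ← e1, smul_sub, smul_smul, ← pow_two]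
  abel

end Pool.Agent.H16.FL
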