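import Pool.Agent.H16.FL.Str

/-!
# The criterion with flags
-/

set_option autoImplicit false
set_option linter.unusedSectionVars false

namespace Pool.Agent.H16.FL

open Filter Topology
open Pool.Agent.NH7.GU (Cyc Chr)
open Pool.Agent.NH7.BK
open Pool.Agent.NH7.BK.CritP (ev_mulVec ev_z1 cancel cancelV exU)

variable {p : ℕ} [hp : Fact p.Prime] {O : Type} [CommRing O] [Algebra ℤ_[p] O] {C : Cyc p O}
  {G : Type} [Group G] [TopologicalSpace G] [IsTopologicalGroup G] {d : Pl G} {c : Chr p G}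
  {N : ℕ} {R : Rp p d N} {Φ : Fg p N R.ρ}

/-- without strict groups -/
theorem isV_of_isF (he : IsEmpty d.κ) {F : G → Fin N → O} (hF : IsF C c R Φ F) :
    IsV C c R F :=
  ⟨hF.cont, hF.mul, hF.away, fun k => he.elim k⟩

/-- the difference -/
theorem isF_sub {F b : G → Fin N → O} (hF : IsF C c R Φ F) (hb : IsF C c R Φ b) :
    IsF C c R Φ (fun g => F g - b g) where
  cont := by
    intro n g
    filter_upwards [hF.cont n g, hb.cont n g] with h h1 h2 j
    have e : (F h - b h) j - (F g - b g) j = (F h j - F g j) - (b h j - b g j) := by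
      rw [Pi.sub_apply, Pi.sub_apply]; ring
    rw [e]
    exact dvd_sub (h1 j) (h2 j)
  mul := by
    intro g h
    rw [hF.mul, hb.mul, Matrix.mulVec_sub, smul_sub]
    abel
  away := by
    intro i g hg h0
    rw [hF.away i g hg h0, hb.away i g hg h0, sub_zero]
  flag := by
    intro k
    obtain ⟨n₁, t₁, h1⟩ := hF.flag k
    obtain ⟨n₂, t₂, h2⟩ := hb.flag k
    refine ⟨n₁ + n₂, (C.z - 1) ^ n₂ • t₁ - (C.z - 1) ^ n₁ • t₂, ?_⟩
    intro g hg h0
    have e1 := (Φ.W O k).smul_mem ((C.z - 1) ^ n₂) (h1 g hg h0)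
    have e2 := (Φ.W O k).smul_mem ((C.z - 1) ^ n₁) (h2 g hg h0)
    have e3 := (Φ.W O k).sub_mem e1 e2
    convert e3 using 1
    rw [Matrix.mulVec_sub, Matrix.mulVec_smul, Matrix.mulVec_smul]
    funext j
    simp only [Pi.smul_apply, Pi.sub_apply, smul_eq_mul]
    rw [pow_add]
    ring

/-- one step -/
theorem step (he : IsEmpty d.κ) (hp2 : p ≠ 2) (hk : ∀ k, ∃ g ∈ Φ.D k, c.χ g ≠ 0)
    (hT : ∀ j : Fin N, Mn d c {H | ∃ k, ¬ Φ.J k j ∧ H = Φ.D k})
    {F : G → Fin N → O} (hF : IsF C c R Φ F) (h0 : F c.σ = 0) :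
    ∃ F1 : G → Fin N → O, (∀ g j, F g j = (C.z - 1) * F1 g j) ∧ IsF C c R Φ F1 ∧
      F1 c.σ = 0 := by
  have hV := isV_of_isF he hF
  have hdiv : ∀ g j, (C.z - 1) ∣ F g j := by
    intro g₀ j
    have hc : Continuous fun g => C.ev (F g j) := by
      have hloc : IsLocallyConstant fun g => C.ev (F g j) := by
        rw [IsLocallyConstant.iff_eventually_eq]
        intro g
        filter_upwards [hF.cont 1 g] with h h1
        obtain ⟨t, ht⟩ := h1 j
        have h2 := congrArg C.ev ht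
        rw [pow_one, map_sub, map_mul, ev_z1, zero_mul, sub_eq_zero] at h2
        exact h2
      exact hloc.continuous
    have hm : ∀ g h, C.ev (F (g * h) j) = C.ev (F g j) + C.ev (F h j) := by
      intro g h
      rw [hF.mul, Pi.add_apply, Pi.smul_apply, smul_eq_mul, map_add, map_mul, map_pow, C.ev_z,
        one_pow, one_mul, ev_mulVec C]
    obtain ⟨a, ha⟩ := hT j (fun g => C.ev (F g j)) hc hm
      (fun i hi g hg => by
        change C.ev (F g j) = 0
        rw [hF.away i g hg (hi g hg), Pi.zero_apply, map_zero])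
      (fun i hi => by
        obtain ⟨a, ha⟩ := s_tame s_bt p O C G d c N R F hp2 hV i hi
        exact ⟨a j, fun g hg => ha g hg j⟩)
      (by
        rintro H ⟨k, hkj, rfl⟩
        obtain ⟨a, ha⟩ := str C c R Φ F hp2 hF k (hk k)
        exact ⟨a j, fun g hg => ha g hg j hkj⟩)
      (s_lift p O C G d c N R F hp2 hV j)
    have ha0 : a = 0 := by
      have h1 := ha c.σ
      simp only [h0, Pi.zero_apply, map_zero, c.hσ, mul_one] at h1
      exact h1.symm
    apply C.ker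
    have h1 := ha g₀
    rw [ha0, zero_mul] at h1
    exact h1
  choose F1 hF1 using hdiv
  have hF1' : ∀ g, F g = (C.z - 1) • F1 g := fun g => by
    funext j
    rw [Pi.smul_apply, smul_eq_mul]
    exact hF1 g j
  refine ⟨F1, hF1, ⟨?_, ?_, ?_, ?_⟩, ?_⟩
  · intro n g
    filter_upwards [hF.cont (n + 1) g] with h h1 j
    obtain ⟨t, ht⟩ := h1 j
    refine ⟨t, cancel C ?_⟩
    have e1 := hF1 h j
    have e2 := hF1 g j
    rw [pow_succ] at ht
    linear_combination ht - e1 + e2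
  · intro g h
    apply cancelV C
    have e4 := hF.mul g h
    rw [hF1' (g * h), hF1' g, hF1' h, Matrix.mulVec_smul] at e4
    rw [e4, smul_add, smul_comm]
  · intro i g hg h1
    apply cancelV C
    rw [← hF1' g, hF.away i g hg h1, smul_zero]
  · intro k
    obtain ⟨n, t, h1⟩ := hF.flag k
    refine ⟨n + 1, t, fun g hg h2 => ?_⟩
    rw [pow_succ, mul_smul, ← hF1' g]
    exact h1 g hg h2
  · apply cancelV C
    rw [← hF1' c.σ, h0, smul_zero]

theorem zero_of (he : IsEmpty d.κ) (hp2 : p ≠ 2) (hk : ∀ k, ∃ g ∈ Φ.D k, c.χ g ≠ 0)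
    (hT : ∀ j : Fin N, Mn d c {H | ∃ k, ¬ Φ.J k j ∧ H = Φ.D k}) (n : ℕ) :
    ∀ F : G → Fin N → O, IsF C c R Φ F → F c.σ = 0 → ∀ g j, (C.z - 1) ^ n ∣ F g j := by
  induction n with
  | zero =>
    intro F _ _ g j
    rw [pow_zero]
    exact one_dvd _
  | succ n ih =>
    intro F hF h0 g j
    obtain ⟨F1, h1, h2, h3⟩ := step he hp2 hk hT hF h0
    rw [h1 g j, pow_succ, mul_comm]
    exact mul_dvd_mul_left _ (ih F1 h2 h3 g j)

/-- the criterion -/
theorem crit (he : IsEmpty d.κ) (hp2 : p ≠ 2) (hk : ∀ k, ∃ g ∈ Φ.D k, c.χ g ≠ 0)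
    (hT : ∀ j : Fin N, Mn d c {H | ∃ k, ¬ Φ.J k j ∧ H = Φ.D k})
    {F : G → Fin N → O} (hF : IsF C c R Φ F) :
    ∃ t : Fin N → O, ∀ g, (C.z - 1) • F g = C.z ^ (c.χ g).val • (R.mO O g).mulVec t - t := by
  obtain ⟨U, hU, hU1⟩ := exU C R hp2 c.σ
  obtain ⟨V, hV⟩ := hU.exists_right_inv
  obtain ⟨b, hb1, -, hb3⟩ := s_bt p O C G d c N R (V.mulVec (F c.σ)) hp2
  have h5 : U.mulVec (V.mulVec (F c.σ)) = F c.σ := by
    rw [Matrix.mulVec_mulVec, hV, Matrix.one_mulVec]
  have h6 : b c.σ = F c.σ := by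
    apply cancelV C
    rw [hb1, c.hσ]
    have hv : (1 : ZMod p).val = 1 := by
      haveI : Fact (1 < p) := ⟨(Fact.out : p.Prime).one_lt⟩
      exact ZMod.val_one p
    rw [hv, pow_one]
    have h7 : C.z • (R.mO O c.σ).mulVec (V.mulVec (F c.σ)) - V.mulVec (F c.σ) =
        (C.z • R.mO O c.σ - 1).mulVec (V.mulVec (F c.σ)) := by
      rw [Matrix.sub_mulVec, Matrix.smul_mulVec, Matrix.one_mulVec]
    rw [h7, hU1, Matrix.smul_mulVec, h5]
  have hbF : IsF C c R Φ b := by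
    refine ⟨hb3.cont, hb3.mul, hb3.away, fun k => ⟨1, V.mulVec (F c.σ), fun g _ hg => ?_⟩⟩
    rw [pow_one, hb1, hg, ZMod.val_zero, pow_zero, one_smul, sub_self]
    exact Submodule.zero_mem _
  have hF' := isF_sub hF hbF
  have h0 : (fun g => F g - b g) c.σ = 0 := by
    change F c.σ - b c.σ = 0
    rw [h6, sub_self]
  have h1 : ∀ g, F g = b g := fun g => by
    funext j
    exact sub_eq_zero.1 (C.sep _ fun n => zero_of he hp2 hk hT n _ hF' h0 g j)
  exact ⟨V.mulVec (F c.σ), fun g => by rw [h1 g, hb1 g]⟩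

end Pool.Agent.H16.FL
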