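import Pool.Graph.R_pool_sql_team_seeded_3dad9d7b.NH7.BK.All

/-!
# Selmer groups with flags for residually trivial representations: definitions

`ρ` is a representation congruent to `1` modulo `p`. For every group `D k` a submodule `W k` is given
which is stable under `D k`, and whose reduction is spanned by the basis vectors of index in `J k`. The
local condition at `D k` is the triviality of the class modulo `W k`.
-/

set_option autoImplicit false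
set_option linter.unusedSectionVars false

namespace Pool.Agent.H16.FL

open Filter Topology
open Pool.Agent.NH7.GU (Cyc Chr)
open Pool.Agent.NH7.BK

/-- the groups `D k` and the submodules `W k`: the kernel of `P k * q k`, `P k` the projection to the
coordinates outside `J k` -/
structure Fg (p : ℕ) [Fact p.Prime] {G : Type} [Group G] (N : ℕ)
    (ρ : G →* Matrix (Fin N) (Fin N) ℤ_[p]) where
  κ : Type
  D : κ → Subgroup G
  J : κ → Fin N → Prop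
  P : κ → Matrix (Fin N) (Fin N) ℤ_[p]
  hP0 : ∀ k i, J k i → ∀ j, P k i j = 0
  hP1 : ∀ k i, ¬ J k i → ∀ j, P k i j = (1 : Matrix (Fin N) (Fin N) ℤ_[p]) i j
  PP : ∀ k, P k * P k = P k
  q : κ → Matrix (Fin N) (Fin N) ℤ_[p]
  b : κ → Matrix (Fin N) (Fin N) ℤ_[p]
  qb : ∀ k, q k * b k = 1
  bq : ∀ k, b k * q k = 1
  q1 : ∀ k i j, (p : ℤ_[p]) ∣ (q k - 1) i j
  b1 : ∀ k i j, (p : ℤ_[p]) ∣ (b k - 1) i j
  stab : ∀ k, ∀ g ∈ D k, P k * (q k * ρ g * b k) = P k * (q k * ρ g * b k) * P k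
  conj : ∀ (k : κ) (g : G), ∃ j, (∀ x ∈ D k, g * x * g⁻¹ ∈ D j) ∧
    P k * (q k * ρ g⁻¹ * b j) = P k * (q k * ρ g⁻¹ * b j) * P j

variable {p : ℕ} [hp : Fact p.Prime] {G : Type} [Group G] [TopologicalSpace G] {d : Pl G} {N : ℕ}

/-- matrices over `ℤ_p` as matrices over `O` -/
noncomputable def mp (O : Type) [CommRing O] [Algebra ℤ_[p] O] (M : Matrix (Fin N) (Fin N) ℤ_[p]) :
    Matrix (Fin N) (Fin N) O := M.map (algebraMap ℤ_[p] O)

section mp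

variable (O : Type) [CommRing O] [Algebra ℤ_[p] O]

theorem mp_mul (A B : Matrix (Fin N) (Fin N) ℤ_[p]) : mp O (A * B) = mp O A * mp O B :=
  Matrix.map_mul

theorem mp_one : mp O (1 : Matrix (Fin N) (Fin N) ℤ_[p]) = 1 :=
  Matrix.map_one _ (map_zero _) (map_one _)

theorem mp_mO (R : Rp p d N) (g : G) : R.mO O g = mp O (R.ρ g) := rfl

theorem mp_self (A : Matrix (Fin N) (Fin N) ℤ_[p]) : mp ℤ_[p] A = A := by
  ext i j
  rfl

theorem mp_toO (A : Matrix (Fin N) (Fin N) ℤ_[p]) (x : Fin N → ℤ_[p]) :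
    (mp O A).mulVec (toO O x) = toO O (A.mulVec x) := by
  funext j
  exact (RingHom.map_mulVec (algebraMap ℤ_[p] O) A x j).symm

end mp

/-- the submodule `W k` -/
noncomputable def Fg.W {ρ : G →* Matrix (Fin N) (Fin N) ℤ_[p]} (Φ : Fg p N ρ) (O : Type) [CommRing O]
    [Algebra ℤ_[p] O] (k : Φ.κ) : Submodule O (Fin N → O) :=
  LinearMap.ker (mp O (Φ.P k * Φ.q k)).mulVecLin

section W

variable {ρ : G →* Matrix (Fin N) (Fin N) ℤ_[p]} (Φ : Fg p N ρ) {O : Type} [CommRing O]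
    [Algebra ℤ_[p] O]

theorem mem_W {k : Φ.κ} {x : Fin N → O} : x ∈ Φ.W O k ↔ (mp O (Φ.P k * Φ.q k)).mulVec x = 0 :=
  LinearMap.mem_ker

theorem W_smul_inj (C : Cyc p O) {k : Φ.κ} {x : Fin N → O} (n : ℕ)
    (h : (C.z - 1) ^ n • x ∈ Φ.W O k) : x ∈ Φ.W O k := by
  rw [mem_W] at h ⊢
  rw [Matrix.mulVec_smul] at h
  exact inj_pow_vec C n h

theorem W_stab {k : Φ.κ} {g : G} (hg : g ∈ Φ.D k) {x : Fin N → O} (hx : x ∈ Φ.W O k) :
    (mp O (ρ g)).mulVec x ∈ Φ.W O k := by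
  rw [mem_W] at hx ⊢
  have h1 : Φ.P k * Φ.q k * ρ g = Φ.P k * (Φ.q k * ρ g * Φ.b k) * (Φ.P k * Φ.q k) := by
    rw [← mul_assoc, ← Φ.stab k g hg]
    simp only [mul_assoc]
    rw [Φ.bq k, mul_one]
  rw [Matrix.mulVec_mulVec, ← mp_mul, h1, mp_mul, ← Matrix.mulVec_mulVec, hx, Matrix.mulVec_zero]

theorem W_conj (k : Φ.κ) (g : G) : ∃ j, (∀ x ∈ Φ.D k, g * x * g⁻¹ ∈ Φ.D j) ∧
    ∀ x : Fin N → O, x ∈ Φ.W O j → (mp O (ρ g⁻¹)).mulVec x ∈ Φ.W O k := by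
  obtain ⟨j, hj, h0⟩ := Φ.conj k g
  refine ⟨j, hj, fun x hx => ?_⟩
  rw [mem_W] at hx ⊢
  have h1 : Φ.P k * Φ.q k * ρ g⁻¹ = Φ.P k * (Φ.q k * ρ g⁻¹ * Φ.b j) * (Φ.P j * Φ.q j) := by
    rw [← mul_assoc, ← h0]
    simp only [mul_assoc]
    rw [Φ.bq j, mul_one]
  rw [Matrix.mulVec_mulVec, ← mp_mul, h1, mp_mul, ← Matrix.mulVec_mulVec, hx, Matrix.mulVec_zero]

theorem W_toO {k : Φ.κ} {x : Fin N → ℤ_[p]} (hx : x ∈ Φ.W ℤ_[p] k) : toO O x ∈ Φ.W O k := by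
  rw [mem_W] at hx ⊢
  rw [mp_toO, ← mp_self (Φ.P k * Φ.q k), hx]
  funext j
  exact map_zero _

end W

/-- the cocycles on `H` with the local conditions: trivial on the groups `I i`, trivial modulo `W k` up
to torsion on the groups `D k` -/
structure SelF (R : Rp p d N) (Φ : Fg p N R.ρ) (H : Subgroup G) (f : G → Fin N → ℤ_[p]) :
    Prop where
  coc : CocV R H f
  away : ∀ i, ∀ g ∈ d.I i, g ∈ H → f g = 0
  flag : ∀ k, ∃ (m : ℕ) (z : Fin N → ℤ_[p]), ∀ g ∈ Φ.D k, g ∈ H →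
    (p : ℤ_[p]) ^ m • f g - ((R.ρ g).mulVec z - z) ∈ Φ.W ℤ_[p] k

/-- the `O`-valued cocycles for `χ ρ` with the local conditions, up to torsion -/
structure IsF {O : Type} [CommRing O] [Algebra ℤ_[p] O] (C : Cyc p O) (c : Chr p G)
    (R : Rp p d N) (Φ : Fg p N R.ρ) (F : G → Fin N → O) : Prop where
  cont : ∀ (n : ℕ) (g : G), ∀ᶠ h in 𝓝 g, ∀ j, (C.z - 1) ^ n ∣ F h j - F g j
  mul : ∀ g h, F (g * h) = F g + C.z ^ (c.χ g).val • (R.mO O g).mulVec (F h)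
  away : ∀ i, ∀ g ∈ d.I i, c.χ g = 0 → F g = 0
  flag : ∀ k, ∃ (n : ℕ) (t : Fin N → O), ∀ g ∈ Φ.D k, c.χ g = 0 →
    (C.z - 1) ^ n • F g - ((R.mO O g).mulVec t - t) ∈ Φ.W O k

/-- the residual condition, with the groups `E` in place of the groups `D k` -/
def Mn (d : Pl G) (c : Chr p G) (E : Set (Subgroup G)) : Prop :=
  ∀ x : G → ZMod p, Continuous x → (∀ g h, x (g * h) = x g + x h) →
    (∀ i, (∀ g ∈ d.I i, c.χ g = 0) → ∀ g ∈ d.I i, x g = 0) →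
    (∀ i, (∃ g ∈ d.I i, c.χ g ≠ 0) → ∃ a : ZMod p, ∀ g ∈ d.DI i, x g = a * c.χ g) →
    (∀ H ∈ E, ∃ a : ZMod p, ∀ g ∈ H, x g = a * c.χ g) →
    (∃ y : G → ZMod p, Continuous y ∧ ∀ g h, y (g * h) = y g + y h + c.χ g * x h) →
    ∃ a : ZMod p, ∀ g, x g = a * c.χ g

end Pool.Agent.H16.FL
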