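import Pool.Agent.H16.FL.Unt
import Pool.Graph.R_pool_sql_team_seeded_3997aac3.Q285.LK.LOC

/-!
# Duality of the local conditions
-/

set_option autoImplicit false
set_option linter.unusedSectionVars false

namespace Pool.Agent.H16.FL

open NumberField IsDedekindDomain Finset
open Pool.Agent.NH7.GU (HS Qv Qv_max Qv_comap)
open Pool.Agent.NH7.Sch (kp Inr)
open Pool.Agent.Q7.LK
open Pool.Agent.Q283.LQ (Sm Box Nest nS)
open Pool.Agent.Q14.LK (lpw_ne lpw_vl lpw_mul lpw_pow lpw_inv vl_mul lpw_one vl_pow vl_one vl_inv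
  vl_div mon_ne mon_add mon_smul)

section lin

open Module

theorem inter_dim {k V : Type} [Field k] [AddCommGroup V] [Module k V] [FiniteDimensional k V]
    (B : LinearMap.BilinForm k V) (hB : ∀ x, B x = 0 → x = 0) (U L L' : Submodule k V)
    (hU : ∀ x ∈ U, ∀ y ∈ U, B x y = 0) (hL : ∀ x ∈ L, ∀ y ∈ L', B x y = 0) {f : ℕ}
    (hV : finrank k V = 2 * f) (hUf : finrank k U = f) (hLf : f ≤ finrank k L') :
    finrank k (U ⊓ L : Submodule k V) ≤ finrank k (U ⊓ L' : Submodule k V) := by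
  have h1 := LinearMap.BilinForm.finrank_add_finrank_orthogonal' (B := B) (U ⊓ L)
  have hk : LinearMap.ker B = ⊥ := LinearMap.ker_eq_bot'.2 hB
  rw [hk, inf_bot_eq, finrank_bot, add_zero] at h1
  have h2 : U ⊔ L' ≤ LinearMap.BilinForm.orthogonal B (U ⊓ L) :=
    sup_le (fun y hy x hx => hU x hx.1 y hy) (fun y hy x hx => hL x hx.2 y hy)
  have h3 := Submodule.finrank_mono h2
  have h4 := Submodule.finrank_sup_add_finrank_inf_eq U L'
  omega

theorem codim_inf {k V ι : Type} [Field k] [AddCommGroup V] [Module k V] [FiniteDimensional k V]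
    (T : Finset ι) (L : ι → Submodule k V) (c : ι → ℕ)
    (h : ∀ v ∈ T, finrank k V ≤ finrank k (L v) + c v) :
    finrank k V ≤ finrank k (⨅ v ∈ T, L v : Submodule k V) + ∑ v ∈ T, c v := by
  classical
  induction T using Finset.induction_on with
  | empty =>
    have e : (⨅ v ∈ (∅ : Finset ι), L v) = ⊤ := by simp
    rw [Finset.sum_empty, add_zero, e, finrank_top]
  | insert a s ha ih =>
    have h1 := ih fun v hv => h v (Finset.mem_insert_of_mem hv)
    have h2 := h a (Finset.mem_insert_self a s)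
    rw [Finset.iInf_insert, Finset.sum_insert ha]
    have h3 := Submodule.finrank_sup_add_finrank_inf_eq (L a) (⨅ v ∈ s, L v)
    have h4 := Submodule.finrank_le (L a ⊔ ⨅ v ∈ s, L v)
    omega

theorem codim_card {p : ℕ} [hp : Fact p.Prime] {V : Type} [AddCommGroup V] [Module (ZMod p) V]
    [FiniteDimensional (ZMod p) V] (L : Submodule (ZMod p) V) {c : ℕ}
    (h : Nat.card (V ⧸ L) ≤ p ^ c) : finrank (ZMod p) V ≤ finrank (ZMod p) L + c := by
  have h1 := Submodule.finrank_quotient_add_finrank L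
  have h2 := Module.natCard_eq_pow_finrank (K := ZMod p) (V := V ⧸ L)
  rw [Nat.card_zmod] at h2
  rw [h2] at h
  have h3 := (Nat.pow_le_pow_iff_right hp.out.one_lt).1 h
  omega

end lin

variable {K : Type} [Field K] [NumberField K] {p : ℕ} [hp : Fact p.Prime] {ζ : K}

/-- the representative of a class -/
noncomputable def al {f : ℕ} (u r : Fin f → K) (x : (Fin f → ZMod p) × (Fin f → ZMod p)) : K :=
  mon r x.1 * mon u x.2

section al

variable {f : ℕ} {u r : Fin f → K} (hu : ∀ l, u l ≠ 0) (hr : ∀ l, r l ≠ 0)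

include hu hr

theorem al_ne (x : (Fin f → ZMod p) × (Fin f → ZMod p)) : al u r x ≠ 0 :=
  mul_ne_zero (mon_ne hr _) (mon_ne hu _)

theorem al_add (x x' : (Fin f → ZMod p) × (Fin f → ZMod p)) :
    ∃ s : K, s ≠ 0 ∧ al u r (x + x') = al u r x * al u r x' * s ^ p := by
  obtain ⟨s, hs, h1⟩ := mon_add hr x.1 x'.1
  obtain ⟨s', hs', h2⟩ := mon_add hu x.2 x'.2
  refine ⟨(s * s')⁻¹, inv_ne_zero (mul_ne_zero hs hs'), ?_⟩
  have e : al u r x * al u r x' = (mon r x.1 * mon r x'.1) * (mon u x.2 * mon u x'.2) := by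
    unfold al
    ring
  rw [e, h1, h2, inv_pow, mul_pow]
  have h3 : s ^ p ≠ 0 := pow_ne_zero _ hs
  have h4 : s' ^ p ≠ 0 := pow_ne_zero _ hs'
  unfold al
  field_simp
  rfl

theorem al_smul (a : ZMod p) (x : (Fin f → ZMod p) × (Fin f → ZMod p)) :
    ∃ s : K, s ≠ 0 ∧ al u r (a • x) = (al u r x) ^ a.val * s ^ p := by
  obtain ⟨s, hs, h1⟩ := mon_smul hr a x.1
  obtain ⟨s', hs', h2⟩ := mon_smul hu a x.2
  refine ⟨(s * s')⁻¹, inv_ne_zero (mul_ne_zero hs hs'), ?_⟩
  have e : (al u r x) ^ a.val = (mon r x.1) ^ a.val * (mon u x.2) ^ a.val := by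
    unfold al
    rw [mul_pow]
  rw [e, h1, h2, inv_pow, mul_pow]
  have h3 : s ^ p ≠ 0 := pow_ne_zero _ hs
  have h4 : s' ^ p ≠ 0 := pow_ne_zero _ hs'
  unfold al
  field_simp
  rfl

omit [NumberField K] hu hr in
theorem al_zero : al u r (0 : (Fin f → ZMod p) × (Fin f → ZMod p)) = 1 := by
  unfold al
  rw [Prod.fst_zero, Prod.snd_zero, Pool.Agent.Q14.LK.mon_zero, Pool.Agent.Q14.LK.mon_zero, mul_one]

end al

/-- the local condition at `v` -/
def PV (p : ℕ) (b : Set (HS K)) (v : HS K) (D a : K) : Prop :=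
  ((vl p v D = 0 ∧ (Dp p v → v ∈ b)) → vl p v a = 0) ∧
    (¬ (vl p v D = 0 ∧ (Dp p v → v ∈ b)) → ∃ j : ℕ, Lpw p v (a * D ^ j))

theorem PV.mul {b : Set (HS K)} {v : HS K} {D a a' : K} (ha : a ≠ 0) (ha' : a' ≠ 0)
    (h : PV p b v D a) (h' : PV p b v D a') : PV p b v D (a * a') := by
  refine ⟨fun hv => ?_, fun hv => ?_⟩
  · rw [vl_mul t_BAS v ha ha', h.1 hv, h'.1 hv, add_zero]
  · obtain ⟨j, hj⟩ := h.2 hv
    obtain ⟨j', hj'⟩ := h'.2 hv
    refine ⟨j + j', ?_⟩
    have e : a * a' * D ^ (j + j') = (a * D ^ j) * (a' * D ^ j') := by ring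
    rw [e]
    exact lpw_mul t_BAS hj hj'

theorem PV.lpw {b : Set (HS K)} {v : HS K} {D a x : K} (ha : a ≠ 0)
    (h : PV p b v D a) (hx : Lpw p v x) : PV p b v D (a * x) := by
  refine ⟨fun hv => ?_, fun hv => ?_⟩
  · rw [vl_mul t_BAS v ha (lpw_ne t_BAS hx), h.1 hv, lpw_vl t_BAS hx, add_zero]
  · obtain ⟨j, hj⟩ := h.2 hv
    refine ⟨j, ?_⟩
    rw [mul_right_comm]
    exact lpw_mul t_BAS hj hx

theorem PV.one (b : Set (HS K)) (v : HS K) (D : K) : PV p b v D 1 :=
  ⟨fun _ => vl_one t_BAS v, fun _ => ⟨0, by rw [pow_zero, mul_one]; exact lpw_one t_BAS v⟩⟩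

theorem PV.pow {b : Set (HS K)} {v : HS K} {D a : K} (ha : a ≠ 0)
    (h : PV p b v D a) (n : ℕ) : PV p b v D (a ^ n) := by
  induction n with
  | zero => rw [pow_zero]; exact PV.one b v D
  | succ n ih => rw [pow_succ]; exact ih.mul (pow_ne_zero _ ha) ha h

theorem PV.self (b : Set (HS K)) (v : HS K) {D : K} (hD : D ≠ 0) : PV p b v D D := by
  refine ⟨fun hv => hv.1, fun _ => ⟨p - 1, ?_⟩⟩
  rw [← pow_succ', Nat.sub_add_cancel hp.out.pos]
  exact lpw_pow t_BAS v hD

theorem cond_iff {b : Set (HS K)} {D a : K} :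
    Cond p (AB p b) D a ↔ a ≠ 0 ∧ ∀ v, PV p b v D a := by
  constructor
  · intro h
    refine ⟨h.ne, fun v => ⟨fun hv => ?_, fun hv => ?_⟩⟩
    · by_cases h1 : Dp p v
      · exact (h.abv v h1).2.1 ⟨hv.2 h1, hv.1⟩
      · exact h.unr v h1 hv.1
    · by_cases h1 : Dp p v
      · exact (h.abv v h1).2.2 fun h2 => hv ⟨h2.2, fun _ => h2.1⟩
      · exact h.ram v h1 fun h2 => hv ⟨h2, fun h3 => absurd h3 h1⟩
  · rintro ⟨h0, h⟩
    refine ⟨h0, fun v h1 h2 => (h v).1 ⟨h2, fun h3 => absurd h3 h1⟩,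
      fun v h1 h2 => (h v).2 fun h3 => h2 h3.1, fun v h1 => ⟨h0, fun h2 => (h v).1 ⟨h2.2, fun _ => h2.1⟩,
      fun h2 => (h v).2 fun h3 => h2 ⟨h3.2 h1, h3.1⟩⟩⟩

section sub

variable {f : ℕ} {u r : Fin f → K} (hu : ∀ l, u l ≠ 0) (hr : ∀ l, r l ≠ 0) (b : Set (HS K))
  (v : HS K) (D : K)

/-- the classes with the local condition at `v` -/
noncomputable def Lv : Submodule (ZMod p) ((Fin f → ZMod p) × (Fin f → ZMod p)) where
  carrier := {x | PV p b v D (al u r x)}
  add_mem' := by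
    intro x x' hx hx'
    obtain ⟨s, hs, h1⟩ := al_add hu hr x x'
    rw [Set.mem_ofPred_eq, h1]
    exact (PV.mul (al_ne hu hr x) (al_ne hu hr x') hx hx').lpw
      (mul_ne_zero (al_ne hu hr x) (al_ne hu hr x')) (lpw_pow t_BAS v hs)
  zero_mem' := by
    rw [Set.mem_ofPred_eq, al_zero]
    exact PV.one b v D
  smul_mem' := by
    intro a x hx
    obtain ⟨s, hs, h1⟩ := al_smul hu hr a x
    rw [Set.mem_ofPred_eq, h1]
    exact (PV.pow (al_ne hu hr x) hx _).lpw (pow_ne_zero _ (al_ne hu hr x))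
      (lpw_pow t_BAS v hs)

theorem mem_Lv {x : (Fin f → ZMod p) × (Fin f → ZMod p)} :
    x ∈ Lv hu hr b v D ↔ PV p b v D (al u r x) := Iff.rfl

/-- the order as a linear functional -/
noncomputable def ordL : ((Fin f → ZMod p) × (Fin f → ZMod p)) →ₗ[ZMod p] ZMod p :=
  AddMonoidHom.toZModLinearMap p
    { toFun := fun x => vl p v (al u r x)
      map_zero' := by rw [al_zero]; exact vl_one t_BAS v
      map_add' := fun x x' => by
        obtain ⟨s, hs, h1⟩ := al_add hu hr x x'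
        rw [h1, vl_mul t_BAS v (mul_ne_zero (al_ne hu hr x) (al_ne hu hr x')) (pow_ne_zero _ hs),
          vl_mul t_BAS v (al_ne hu hr x) (al_ne hu hr x'), lpw_vl t_BAS (lpw_pow t_BAS v hs),
          add_zero] }

theorem ordL_apply (x : (Fin f → ZMod p) × (Fin f → ZMod p)) :
    ordL hu hr v x = vl p v (al u r x) := rfl

open Module in
theorem codim_unr (hv : vl p v D = 0 ∧ (Dp p v → v ∈ b)) :
    finrank (ZMod p) ((Fin f → ZMod p) × (Fin f → ZMod p)) ≤
      finrank (ZMod p) (Lv (p := p) hu hr b v D) + 1 := by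
  have h1 : Lv (p := p) hu hr b v D = LinearMap.ker (ordL (p := p) hu hr v) := by
    ext x
    rw [mem_Lv, LinearMap.mem_ker, ordL_apply]
    exact ⟨fun h => h.1 hv, fun h => ⟨fun _ => h, fun h2 => absurd hv h2⟩⟩
  have h2 := LinearMap.finrank_range_add_finrank_ker (ordL (p := p) hu hr v)
  have h3 := Submodule.finrank_le (LinearMap.range (ordL (p := p) hu hr v))
  rw [finrank_self] at h3
  rw [h1]
  omega

open Module in
theorem codim_ram (hD : D ≠ 0) (hp2 : p ≠ 2) (hζ : IsPrimitiveRoot ζ p) (hDv : ¬ Lpw p v D)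
    (hv : ¬ (vl p v D = 0 ∧ (Dp p v → v ∈ b))) :
    finrank (ZMod p) ((Fin f → ZMod p) × (Fin f → ZMod p)) ≤
      finrank (ZMod p) (Lv (p := p) hu hr b v D) + (1 + dv p v) := by
  classical
  have hB := t_BAS
  apply codim_card
  set L := Lv (p := p) hu hr b v D with hL
  let V := (Fin f → ZMod p) × (Fin f → ZMod p)
  have hfin : Finite (V ⧸ L) := inferInstance
  have : Fintype (V ⧸ L) := Fintype.ofFinite _
  choose o ho using fun q : V ⧸ L => L.mkQ_surjective q
  let g : (V ⧸ L) × ZMod p → K := fun x => al u r (o x.1) * D ^ x.2.val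
  have hg0 : ∀ x, g x ≠ 0 := fun x => mul_ne_zero (al_ne hu hr _) (pow_ne_zero _ hD)
  -- powers of `D`
  have hpow : ∀ i j : ZMod p, Lpw p v (D ^ i.val / D ^ j.val) → i = j := by
    intro i j h
    by_contra hij
    apply hDv
    have h1 : Lpw p v (D ^ (i - j).val) := by
      have e : ∃ m : ℕ, i.val + m * p = (i - j).val + j.val ∨ i.val = (i - j).val + j.val + m * p := by
        have h2 : ((i - j).val + j.val) % p = i.val := by
          rw [← ZMod.val_add, sub_add_cancel]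
        refine ⟨((i - j).val + j.val) / p, Or.inl ?_⟩
        rw [← h2]
        exact Nat.mod_add_div' _ _
      obtain ⟨m, e | e⟩ := e
      · have e1 : D ^ (i - j).val = D ^ i.val / D ^ j.val * (D ^ m) ^ p := by
          rw [div_mul_eq_mul_div, eq_div_iff (pow_ne_zero _ hD), ← pow_add, ← e, pow_add, pow_mul]
        rw [e1]
        exact lpw_mul hB h (lpw_pow hB v (pow_ne_zero _ hD))
      · have e1 : D ^ (i - j).val = D ^ i.val / D ^ j.val * ((D ^ m)⁻¹) ^ p := by
          rw [div_mul_eq_mul_div, eq_div_iff (pow_ne_zero _ hD), ← pow_add, e, pow_add _ _ (m * p),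
            pow_mul, inv_pow, mul_assoc, mul_inv_cancel₀ (pow_ne_zero _ (pow_ne_zero _ hD)), mul_one]
        rw [e1]
        exact lpw_mul hB h (lpw_pow hB v (inv_ne_zero (pow_ne_zero _ hD)))
    have hne : (i - j) ≠ 0 := sub_ne_zero.2 hij
    have h2 := lpow h1 ((i - j)⁻¹).val
    rw [← pow_mul] at h2
    have h3 : ((i - j).val * ((i - j)⁻¹).val) % p = 1 := by
      rw [← ZMod.val_mul, mul_inv_cancel₀ hne]
      have : Fact (1 < p) := ⟨hp.out.one_lt⟩
      exact ZMod.val_one p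
    obtain ⟨m, hm⟩ : ∃ m, (i - j).val * ((i - j)⁻¹).val = 1 + m * p :=
      ⟨_, by conv_lhs => rw [← Nat.mod_add_div' ((i - j).val * ((i - j)⁻¹).val) p, h3]⟩
    rw [hm, pow_add, pow_one, pow_mul] at h2
    have h4 := lpw_mul hB h2 (lpw_inv hB (lpw_pow hB v (pow_ne_zero m hD)))
    rwa [mul_assoc, mul_inv_cancel₀ (pow_ne_zero _ (pow_ne_zero _ hD)), mul_one] at h4
  have key : ∀ x y, x ≠ y → ¬ Lpw p v (g x / g y) := by
    intro x y hxy h
    apply hxy
    have h1 : x.1 = y.1 := by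
      rw [← ho x.1, ← ho y.1, Submodule.mkQ_apply, Submodule.mkQ_apply, Submodule.Quotient.eq]
      change PV p b v D (al u r (o x.1 - o y.1))
      refine ⟨fun h2 => absurd h2 hv, fun _ => ?_⟩
      obtain ⟨s, hs, h2⟩ := al_add hu hr (o x.1 - o y.1) (o y.1)
      rw [sub_add_cancel] at h2
      refine ⟨x.2.val + (p - 1) * y.2.val, ?_⟩
      have h5 : D ^ ((p - 1) * y.2.val) = (D ^ y.2.val) ^ p / D ^ y.2.val := by
        rw [eq_div_iff (pow_ne_zero _ hD), ← pow_add, ← pow_mul]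
        congr 1
        calc (p - 1) * y.2.val + y.2.val = (p - 1 + 1) * y.2.val := by ring
          _ = y.2.val * p := by rw [Nat.sub_add_cancel hp.out.pos, mul_comm]
      have e : al u r (o x.1 - o y.1) * D ^ (x.2.val + (p - 1) * y.2.val) =
          g x / g y * (s⁻¹) ^ p * (D ^ y.2.val) ^ p := by
        change _ = al u r (o x.1) * D ^ x.2.val / (al u r (o y.1) * D ^ y.2.val) * (s⁻¹) ^ p *
          (D ^ y.2.val) ^ p
        rw [h2, pow_add, h5, inv_pow]
        have h6 := al_ne hu hr (o y.1)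
        have h7 : D ^ y.2.val ≠ 0 := pow_ne_zero _ hD
        have h8 : s ^ p ≠ 0 := pow_ne_zero _ hs
        field_simp
      rw [e]
      exact lpw_mul hB (lpw_mul hB h (lpw_pow hB v (inv_ne_zero hs)))
        (lpw_pow hB v (pow_ne_zero _ hD))
    have h2 : x.2 = y.2 := by
      apply hpow
      have e : g x / g y = D ^ x.2.val / D ^ y.2.val := by
        change al u r (o x.1) * D ^ x.2.val / (al u r (o y.1) * D ^ y.2.val) = _
        rw [h1, mul_div_mul_left _ _ (al_ne hu hr _)]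
      rwa [e] at h
    exact Prod.ext h1 h2
  have hinj : Function.Injective g := by
    intro x y hxy
    by_contra hne
    apply key x y hne
    rw [hxy, div_self (hg0 y)]
    exact lpw_one hB v
  have h1 := t_LOCV p hp2 K ζ hζ v (univ.image g) (fun b hb => by
    obtain ⟨x, -, rfl⟩ := Finset.mem_image.1 hb
    exact hg0 x) (fun b hb b' hb' hne => by
    obtain ⟨x, -, rfl⟩ := Finset.mem_image.1 hb
    obtain ⟨y, -, rfl⟩ := Finset.mem_image.1 hb'
    exact key x y fun h => hne (by rw [h]))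
  rw [Finset.card_image_of_injective _ hinj, Finset.card_univ, Fintype.card_prod, ZMod.card] at h1
  rw [Nat.card_eq_fintype_card]
  have h2 : p ^ (2 + dv p v) = p ^ (1 + dv p v) * p := by
    rw [← pow_succ]
    congr 1
    ring
  rw [h2] at h1
  exact Nat.le_of_mul_le_mul_right h1 hp.out.pos

end sub

end Pool.Agent.H16.FL
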