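import Pool.Agent.H16.FL.Dua

/-!
# Duality of the local conditions: the global pairing
-/

set_option autoImplicit false
set_option linter.unusedSectionVars false

namespace Pool.Agent.H16.FL

open NumberField IsDedekindDomain Finset
open Pool.Agent.NH7.GU (HS Qv Qv_max Qv_comap)
open Pool.Agent.NH7.Sch (kp Inr kp_ppow kp_mul_right kp_one_right)
open Pool.Agent.Q7.LK
open Pool.Agent.Q283.LQ (Sm Box Nest nS)
open Pool.Agent.Q262.LK (TT TT_mul TT_anti TT_mul_r TT_nn TT_one TT_pow TT_mon TT_out TT_zero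
  mon_single)
open Pool.Agent.Q265.LK (exists_q vl_of_val_one)
open Pool.Agent.Q96.LQ (finS)
open Pool.Agent.Q14.LK (lpw_ne lpw_vl lpw_mul lpw_pow lpw_inv vl_mul lpw_one vl_pow vl_one vl_inv
  vl_div mon_ne mon_add mon_smul)

variable {K : Type} [Field K] [NumberField K] {p : ℕ} [hp : Fact p.Prime] {ζ : K}
  {t : HS K → K → K → ZMod p} {y f : ℕ} {u r : Fin f → K} {P : HS K → K}

/-- the pairing on the bases -/
theorem pair (hζ : IsPrimitiveRoot ζ p) (ht : Hilb p ζ t) (B : Bas1 p ζ y f u r P) :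
    (∀ m l, TT t y (u m) (u l) = 0) ∧
    ∀ m l, TT t y (u m) (r l) = - (Pi.single l (1 : ZMod p) : Fin f → ZMod p) m := by
  have hDp : ∀ w : HeightOneSpectrum (𝓞 K), ¬ Sm y w → ¬ Dp p w :=
    fun w hw h => hw ⟨p, hp.out, B.two, h⟩
  have hP0 : ∀ q : HeightOneSpectrum (𝓞 K), ¬ Sm y q → P q ≠ 0 := by
    intro q hq h
    have h1 := (B.pv q hq).1
    rw [h, map_zero] at h1
    exact WithZero.exp_ne_zero h1.symm
  have hPq : ∀ q : HeightOneSpectrum (𝓞 K), ¬ Sm y q → vl p q (P q) = 1 := by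
    intro q hq
    unfold vl
    rw [(B.pv q hq).1, WithZero.log_exp]
    simp
  have hPw : ∀ q : HeightOneSpectrum (𝓞 K), ¬ Sm y q → ∀ w, ¬ Sm y w → w ≠ q → vl p w (P q) = 0 :=
    fun q hq w hw hne => vl_of_val_one w ((B.pv q hq).2 w hw hne)
  have huw : ∀ (l : Fin f) (w : HeightOneSpectrum (𝓞 K)), ¬ Sm y w → vl p w (u l) = 0 :=
    fun l w hw => vl_of_val_one w (B.uv l w hw)
  have huu : ∀ m l, TT t y (u m) (u l) = 0 := by
    intro m l
    refine TT_zero ht y (B.ue m) (B.ue l) fun w hw => ?_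
    rw [ht.unr w (hDp w hw) (u l) (B.ue l) (huw l w hw) (u m) (B.ue m), huw m w hw, zero_mul]
  have huP : ∀ m (q : HeightOneSpectrum (𝓞 K)), ¬ Sm y q → TT t y (u m) (P q) = sy p ζ q (u m) := by
    intro m q hq
    have h1 : ∀ w, ¬ Sm y w → t w (u m) (P q) = - (vl p w (P q) * sy p ζ w (u m)) := by
      intro w hw
      rw [ht.anti w (u m) (P q) (B.ue m) (hP0 q hq),
        ht.unr w (hDp w hw) (u m) (B.ue m) (huw m w hw) (P q) (hP0 q hq)]
    rw [TT_out ht y (B.ue m) (hP0 q hq) q hq, h1 q hq, hPq q hq, one_mul, neg_neg]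
    intro w hw hne
    rw [h1 w hw, hPw q hq w hw hne, zero_mul, neg_zero]
  refine ⟨huu, fun m l => ?_⟩
  obtain ⟨q, hq, hqs⟩ := exists_q t_CHEB hζ u B.ue B.ind (Pi.single l 1) (finS (F := K) y)
  have hq' : ¬ Sm y q := hq
  obtain ⟨c', hc'⟩ := B.pcl q hq'
  have e1 : (fun l => sy p ζ q (u l)) = Pi.single l 1 := funext hqs
  rw [e1, mon_single] at hc'
  have h3 := TT_nn ht y hc' (B.ue m)
  rw [TT_mul_r ht y (mul_ne_zero (hP0 q hq') (B.re l)) (Pool.Agent.Q265.LK.mon_ne u B.ue c') (B.ue m),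
    TT_mul_r ht y (hP0 q hq') (B.re l) (B.ue m), huP m q hq', hqs,
    TT_mon t_BAS ht y B.ue c' (B.ue m)] at h3
  simp only [huu, mul_zero, Finset.sum_const_zero, add_zero] at h3
  exact eq_neg_of_add_eq_zero_right h3

theorem TT_al (ht : Hilb p ζ t) (hu : ∀ l, u l ≠ 0) (hr : ∀ l, r l ≠ 0) {c : K} (hc : c ≠ 0)
    (x : (Fin f → ZMod p) × (Fin f → ZMod p)) :
    TT t y c (al u r x) = ∑ l, x.1 l * TT t y c (r l) + ∑ l, x.2 l * TT t y c (u l) := by
  unfold al
  rw [TT_mul_r ht y (mon_ne hr _) (mon_ne hu _) hc, TT_mon t_BAS ht y hr _ hc,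
    TT_mon t_BAS ht y hu _ hc]

theorem TT_add_r (ht : Hilb p ζ t) (hu : ∀ l, u l ≠ 0) (hr : ∀ l, r l ≠ 0) {c : K} (hc : c ≠ 0)
    (x x' : (Fin f → ZMod p) × (Fin f → ZMod p)) :
    TT t y c (al u r (x + x')) = TT t y c (al u r x) + TT t y c (al u r x') := by
  rw [TT_al ht hu hr hc, TT_al ht hu hr hc, TT_al ht hu hr hc]
  simp only [Prod.fst_add, Prod.snd_add, Pi.add_apply, add_mul, Finset.sum_add_distrib]
  ring

theorem TT_smul_r (ht : Hilb p ζ t) (hu : ∀ l, u l ≠ 0) (hr : ∀ l, r l ≠ 0) {c : K} (hc : c ≠ 0)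
    (a : ZMod p) (x : (Fin f → ZMod p) × (Fin f → ZMod p)) :
    TT t y c (al u r (a • x)) = a * TT t y c (al u r x) := by
  rw [TT_al ht hu hr hc, TT_al ht hu hr hc]
  simp only [Prod.smul_fst, Prod.smul_snd, Pi.smul_apply, smul_eq_mul, mul_assoc, mul_add,
    Finset.mul_sum]

/-- the global pairing -/
noncomputable def Bil (ht : Hilb p ζ t) (y : ℕ) (hu : ∀ l, u l ≠ 0) (hr : ∀ l, r l ≠ 0) :
    LinearMap.BilinForm (ZMod p) ((Fin f → ZMod p) × (Fin f → ZMod p)) :=
  LinearMap.mk₂ (ZMod p) (fun x x' => TT t y (al u r x) (al u r x'))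
    (fun x x' z => by
      rw [TT_anti ht y (al_ne hu hr _) (al_ne hu hr _), TT_add_r ht hu hr (al_ne hu hr _),
        TT_anti ht y (al_ne hu hr x) (al_ne hu hr _), TT_anti ht y (al_ne hu hr x') (al_ne hu hr _)]
      ring)
    (fun a x z => by
      rw [TT_anti ht y (al_ne hu hr _) (al_ne hu hr _), TT_smul_r ht hu hr (al_ne hu hr _),
        TT_anti ht y (al_ne hu hr x) (al_ne hu hr _), smul_eq_mul]
      ring)
    (fun x z z' => TT_add_r ht hu hr (al_ne hu hr _) z z')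
    (fun a x z => TT_smul_r ht hu hr (al_ne hu hr _) a z)

theorem Bil_apply (ht : Hilb p ζ t) (y : ℕ) (hu : ∀ l, u l ≠ 0) (hr : ∀ l, r l ≠ 0)
    (x x' : (Fin f → ZMod p) × (Fin f → ZMod p)) :
    Bil ht y hu hr x x' = TT t y (al u r x) (al u r x') := rfl

/-- nondegenerate -/
theorem Bil_ker (hζ : IsPrimitiveRoot ζ p) (ht : Hilb p ζ t) (B : Bas1 p ζ y f u r P)
    (x : (Fin f → ZMod p) × (Fin f → ZMod p)) (hx : Bil ht y B.ue B.re x = 0) : x = 0 := by
  obtain ⟨huu, hur⟩ := pair hζ ht B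
  have h0 : ∀ x', TT t y (al u r x) (al u r x') = 0 := fun x' => by
    rw [← Bil_apply ht y B.ue B.re, hx]
    rfl
  have e1 : x.1 = 0 := by
    funext m
    have h1 := h0 (0, Pi.single m 1)
    have e : al u r ((0, Pi.single m 1) : (Fin f → ZMod p) × (Fin f → ZMod p)) = u m := by
      unfold al
      rw [Pool.Agent.Q14.LK.mon_zero, mon_single, one_mul]
    rw [e, TT_anti ht y (al_ne B.ue B.re x) (B.ue m), TT_al ht B.ue B.re (B.ue m)] at h1
    simp only [huu, hur, mul_zero, Finset.sum_const_zero, add_zero] at h1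
    rw [Finset.sum_eq_single m] at h1
    · rw [Pi.single_eq_same, mul_neg, mul_one, neg_neg] at h1
      exact h1
    · intro l _ hl
      rw [Pi.single_eq_of_ne (Ne.symm hl), neg_zero, mul_zero]
    · intro h
      exact absurd (Finset.mem_univ _) h
  have e2 : x.2 = 0 := by
    funext m
    have h1 := h0 (Pi.single m 1, 0)
    have e : al u r ((Pi.single m 1, 0) : (Fin f → ZMod p) × (Fin f → ZMod p)) = r m := by
      unfold al
      rw [Pool.Agent.Q14.LK.mon_zero, mon_single, mul_one]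
    rw [e, TT_anti ht y (al_ne B.ue B.re x) (B.re m), TT_al ht B.ue B.re (B.re m), e1] at h1
    simp only [Pi.zero_apply, zero_mul, Finset.sum_const_zero, zero_add] at h1
    rw [Finset.sum_eq_single m] at h1
    · rw [TT_anti ht y (B.re m) (B.ue m), hur, Pi.single_eq_same, neg_neg, mul_one, neg_eq_zero] at h1
      exact h1
    · intro l _ hl
      rw [TT_anti ht y (B.re m) (B.ue l), hur, Pi.single_eq_of_ne hl, neg_zero, neg_zero, mul_zero]
    · intro h
      exact absurd (Finset.mem_univ _) h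
  exact Prod.ext e1 e2

/-- a class which is locally a power of `D` -/
theorem t_lpw (ht : Hilb p ζ t) {w : HS K} {a c D : K} (ha : a ≠ 0) (hc : c ≠ 0) (hD : D ≠ 0)
    {j : ℕ} (h : Lpw p w (a * D ^ j)) : t w a c = - (j * t w D c) := by
  have h1 := ht.pow w _ c h hc
  rw [ht.mul w _ _ _ ha (pow_ne_zero _ hD) hc] at h1
  have h2 : ∀ n : ℕ, t w (D ^ n) c = n * t w D c := by
    intro n
    induction n with
    | zero =>
      rw [pow_zero, Nat.cast_zero, zero_mul]
      exact ht.pow w 1 c (lpw_one t_BAS w) hc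
    | succ n ih =>
      rw [pow_succ, ht.mul w _ _ _ (pow_ne_zero _ hD) hD hc, ih]
      push_cast
      ring
  rw [h2] at h1
  exact eq_neg_of_add_eq_zero_left h1

/-- the local conditions of `b` and of its complement are orthogonal -/
theorem t_orth (hp2 : p ≠ 2) (hζ : IsPrimitiveRoot ζ p) (ht : Hilb p ζ t) {D : Kˣ}
    (hσ : ∃ σ, kp hζ D σ = 1) (hunr : ∀ v, Dp p v → ∀ g ∈ Inr (Qv v), kp hζ D g = 0)
    (b : Set (HS K)) (w : HS K) {a c : K} (ha : a ≠ 0) (hc : c ≠ 0) (h1 : PV p b w (D : K) a)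
    (h2 : PV p bᶜ w (D : K) c) : t w a c = 0 := by
  have hD := D.ne_zero
  by_cases hb : vl p w (D : K) = 0 ∧ (Dp p w → w ∈ b)
  · by_cases hb' : vl p w (D : K) = 0 ∧ (Dp p w → w ∈ bᶜ)
    · have hw : ¬ Dp p w := fun h => hb'.2 h (hb.2 h)
      rw [ht.unr w hw c hc (h2.1 hb') a ha, h1.1 hb, zero_mul]
    · have hw : Dp p w := by
        by_contra hw
        exact hb' ⟨hb.1, fun h => absurd h hw⟩
      obtain ⟨j, hj⟩ := h2.2 hb'
      rw [ht.anti w a c ha hc, t_lpw ht hc ha hD hj, ht.anti w _ a hD ha,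
        unit_sym hp2 hζ ht hw hσ (hunr w hw) ha (h1.1 hb)]
      ring
  · obtain ⟨j, hj⟩ := h1.2 hb
    rw [t_lpw ht ha hc hD hj]
    by_cases hb' : vl p w (D : K) = 0 ∧ (Dp p w → w ∈ bᶜ)
    · have hw : Dp p w := by
        by_contra hw
        exact hb ⟨hb'.1, fun h => absurd h hw⟩
      rw [ht.anti w _ c hD hc, unit_sym hp2 hζ ht hw hσ (hunr w hw) hc (h2.1 hb')]
      ring
    · obtain ⟨i, hi⟩ := h2.2 hb'
      have h3 : t w (D : K) (D : K) = 0 := by
        have h4 := ht.anti w (D : K) (D : K) hD hD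
        have h5 : (2 : ZMod p) * t w (D : K) (D : K) = 0 := by linear_combination h4
        rcases mul_eq_zero.1 h5 with h6 | h6
        · exfalso
          have h7 : ((2 : ℕ) : ZMod p) = 0 := by exact_mod_cast h6
          rw [ZMod.natCast_eq_zero_iff] at h7
          exact hp2 ((Nat.prime_dvd_prime_iff_eq hp.out Nat.prime_two).1 h7)
        · exact h6
      rw [ht.anti w _ c hD hc, t_lpw ht hc hD hD hi, h3]
      ring

end Pool.Agent.H16.FL
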