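import Pool.Agent.H16.FL.Dub

/-!
# Duality of the local conditions: the theorem
-/

set_option autoImplicit false
set_option linter.unusedSectionVars false

namespace Pool.Agent.H16.FL

open NumberField IsDedekindDomain Finset
open Pool.Agent.NH7.GU (HS Qv Qv_max Qv_comap)
open Pool.Agent.NH7.Sch (kp Inr kp_ppow kp_mul_right kp_one_right od_dvd_of_inr)
open Pool.Agent.Q7.LK
open Pool.Agent.Q283.LQ (Sm Box Nest nS)
open Pool.Agent.Q265.LK (vl_of_val_one)
open Pool.Agent.Q96.LQ (finS)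
open Pool.Agent.Q14.LK (lpw_ne lpw_vl lpw_mul lpw_pow lpw_inv vl_mul lpw_one vl_pow vl_one vl_inv
  vl_div mon_ne mon_add mon_smul)

variable {K : Type} [Field K] [NumberField K] {p : ℕ} [hp : Fact p.Prime] {ζ : K}
  {t : HS K → K → K → ZMod p} {y f : ℕ} {u r : Fin f → K} {P : HS K → K}

open Module in
theorem finrank_V (f : ℕ) : finrank (ZMod p) ((Fin f → ZMod p) × (Fin f → ZMod p)) = 2 * f := by
  rw [finrank_prod, finrank_fin_fun]
  ring

/-- the classes of the units -/
def UU (p f : ℕ) [Fact p.Prime] : Submodule (ZMod p) ((Fin f → ZMod p) × (Fin f → ZMod p)) :=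
  LinearMap.ker (LinearMap.fst (ZMod p) (Fin f → ZMod p) (Fin f → ZMod p))

theorem mem_UU {x : (Fin f → ZMod p) × (Fin f → ZMod p)} : x ∈ UU p f ↔ x.1 = 0 := by
  rw [UU, LinearMap.mem_ker, LinearMap.fst_apply]

open Module in
theorem finrank_UU : finrank (ZMod p) (UU p f) = f := by
  unfold UU
  rw [LinearMap.ker_fst, LinearMap.finrank_range_of_inj LinearMap.inr_injective, finrank_fin_fun]

open Module in
/-- the dimension of the space of the local conditions -/
theorem dim_L (hp2 : p ≠ 2) (hζ : IsPrimitiveRoot ζ p) (B : Bas1 p ζ y f u r P)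
    (hf : InfinitePlace.nrComplexPlaces K + nS K y ≤ f) {D : K} (hD : D ≠ 0)
    (hns : ∀ v, Dp p v → ¬ Lpw p v D) (hvD : ∀ v, Dp p v → vl p v D = 0) {b : Set (HS K)}
    (hb : InfinitePlace.nrComplexPlaces K ≤ ∑ᶠ v, cB p b v) :
    f ≤ finrank (ZMod p)
      (⨅ v ∈ (finS (F := K) y).toFinset, Lv (p := p) B.ue B.re b v D :
        Submodule (ZMod p) ((Fin f → ZMod p) × (Fin f → ZMod p))) := by
  classical
  have h1 := codim_inf (k := ZMod p) (finS (F := K) y).toFinset
    (fun v => Lv (p := p) B.ue B.re b v D)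
    (fun v => 1 + if v ∈ b then 0 else dv p v) (fun v _ => by
      by_cases hun : vl p v D = 0 ∧ (Dp p v → v ∈ b)
      · refine (codim_unr B.ue B.re b v D hun).trans ?_
        omega
      · refine (codim_ram B.ue B.re b v D hD hp2 hζ (fun h => ?_) hun).trans ?_
        · by_cases hv : Dp p v
          · exact hns v hv h
          · exact hun ⟨lpw_vl t_BAS h, fun h => absurd h hv⟩
        · by_cases hvb : v ∈ b
          · have : dv p v = 0 := by
              by_contra h0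
              have hdp : Dp p v := by
                by_contra h
                exact h0 (by rw [dv, if_neg h])
              exact hun ⟨hvD v hdp, fun _ => hvb⟩
            omega
          · rw [if_neg hvb])
  rw [finrank_V, Finset.sum_add_distrib, Finset.sum_const, smul_eq_mul, mul_one] at h1
  have h2 : (finS (F := K) y).toFinset.card = nS K y := by
    rw [nS]
    exact (Nat.card_eq_card_finite_toFinset (finS (F := K) y)).symm
  have h3 : ∑ᶠ v, cB p b v = ∑ v ∈ (finS (F := K) y).toFinset, if v ∈ b then dv p v else 0 := by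
    have h4 : (fun v => cB p b v) = fun v => if v ∈ b then dv p v else 0 := by
      funext v
      unfold cB
      split_ifs <;> rfl
    rw [show (∑ᶠ v, cB p b v) = ∑ᶠ v, (fun v => cB p b v) v from rfl, h4]
    refine finsum_eq_sum_of_support_subset _ fun v hv => ?_
    rw [Finset.mem_coe, Set.Finite.mem_toFinset]
    rw [Function.mem_support] at hv
    have hdp : Dp p v := by
      by_contra h
      apply hv
      rw [dv, if_neg h, ite_self]
    exact ⟨p, hp.out, B.two, hdp⟩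
  have h5 := Pool.Agent.Q285.LK.sum_dv p (F := K) (finS (F := K) y).toFinset
  have h6 : ∑ v ∈ (finS (F := K) y).toFinset, (if v ∈ b then dv p v else 0) +
      ∑ v ∈ (finS (F := K) y).toFinset, (if v ∈ b then 0 else dv p v) =
      ∑ v ∈ (finS (F := K) y).toFinset, dv p v := by
    rw [← Finset.sum_add_distrib]
    refine Finset.sum_congr rfl fun v _ => ?_
    split_ifs <;> simp
  have htc : IsTotallyComplex K := tot_complex hp2 hζ
  have h7 := IsTotallyComplex.finrank K
  rw [h2] at h1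
  rw [h3] at hb
  omega

/-- two independent vectors -/
theorem two_le {V : Type} [AddCommGroup V] [Module (ZMod p) V] [FiniteDimensional (ZMod p) V]
    {L : Submodule (ZMod p) V} {x z : V} (hx : x ∈ L) (hz : z ∈ L) (hx0 : x ≠ 0)
    (h : ∀ j : ZMod p, z ≠ j • x) : 2 ≤ Module.finrank (ZMod p) L := by
  by_contra hlt
  have h1 : Module.finrank (ZMod p) L ≤ 1 := by omega
  rw [finrank_le_one_iff] at h1
  obtain ⟨w, hw⟩ := h1
  obtain ⟨a, ha⟩ := hw ⟨x, hx⟩
  obtain ⟨c, hc⟩ := hw ⟨z, hz⟩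
  have ha' : a • (w : V) = x := congrArg Subtype.val ha
  have hc' : c • (w : V) = z := congrArg Subtype.val hc
  have ha0 : a ≠ 0 := by
    rintro rfl
    rw [zero_smul] at ha'
    exact hx0 ha'.symm
  apply h (c * a⁻¹)
  rw [← ha', ← hc', smul_smul, mul_assoc, inv_mul_cancel₀ ha0, mul_one]

/-- a vector which is not a multiple of `x` -/
theorem exists_ne {V : Type} [AddCommGroup V] [Module (ZMod p) V] [FiniteDimensional (ZMod p) V]
    {L : Submodule (ZMod p) V} (h : 2 ≤ Module.finrank (ZMod p) L) (x : V) :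
    ∃ z ∈ L, ∀ j : ZMod p, z ≠ j • x := by
  by_contra hcon
  push Not at hcon
  have h1 : L ≤ Submodule.span (ZMod p) {x} := by
    intro z hz
    obtain ⟨j, rfl⟩ := hcon z hz
    exact Submodule.smul_mem _ _ (Submodule.mem_span_singleton_self x)
  have h2 := Submodule.finrank_mono h1
  have h3 : Module.finrank (ZMod p) (Submodule.span (ZMod p) {x}) ≤ 1 := by
    have h4 := finrank_span_le_card (R := ZMod p) ({x} : Set V)
    rwa [Set.toFinset_singleton, Finset.card_singleton] at h4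
  omega

/-- **Duality** -/
theorem dual (hp2 : p ≠ 2) (hζ : IsPrimitiveRoot ζ p) (D : Kˣ)
    (hns : ∀ v, Dp p v → ¬ Lpw p v (D : K))
    (hunr : ∀ v, Dp p v → ∀ g ∈ Inr (Qv v), kp hζ D g = 0) {b : Set (HS K)}
    (hb : InfinitePlace.nrComplexPlaces K ≤ ∑ᶠ v, cB p b v) (h : Bad p (AB p bᶜ) (D : K)) :
    Bad p (AB p b) (D : K) := by
  classical
  have hBAS := t_BAS
  have hD := D.ne_zero
  have hvD : ∀ v, Dp p v → vl p v (D : K) = 0 := fun v hv =>
    (vl_zero_iff v D).2 (od_dvd_of_inr hζ (Qv_max v) (Qv_comap v) (hunr v hv))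
  have hσ : ∃ σ, kp hζ D σ = 1 := by
    obtain ⟨v, hv⟩ := exists_dp (K := K) p
    obtain ⟨g, -, hg⟩ : ∃ g ∈ Pool.Agent.NH7.Sch.Dec (Qv v), kp hζ D g ≠ 0 := by
      by_contra hcon
      push Not at hcon
      exact hns v hv (lpw_of_kp hζ v D hcon)
    have hpow : ∀ n : ℕ, kp hζ D (g ^ n) = n * kp hζ D g := by
      intro n
      induction n with
      | zero => rw [pow_zero, kp_one_right, Nat.cast_zero, zero_mul]
      | succ n ih => rw [pow_succ, kp_mul_right, ih]; push_cast; ring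
    refine ⟨g ^ ((kp hζ D g)⁻¹).val, ?_⟩
    rw [hpow, ZMod.natCast_zmod_val]
    exact inv_mul_cancel₀ hg
  have hnp : ∀ x : K, (D : K) ≠ x ^ p := by
    intro x hx
    obtain ⟨v, hv⟩ := exists_dp (K := K) p
    apply hns v hv
    rw [hx]
    refine lpw_pow hBAS v ?_
    rintro rfl
    rw [zero_pow hp.out.ne_zero] at hx
    exact hD hx
  -- the level
  obtain ⟨y0, hy0⟩ := t_BAS1 p hp2 K ζ hζ
  have hfin := Pool.Agent.Q265.LK.vl_fin p hD
  choose l hl hlv using fun v : HS K => exists_below v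
  set y := max y0 (hfin.toFinset.sup l) with hy
  have hDy : ∀ v : HS K, ¬ Sm y v → vl p v (D : K) = 0 := by
    intro v hv
    by_contra h0
    exact hv ⟨l v, hl v, (Finset.le_sup (hfin.mem_toFinset.2 h0)).trans (le_max_right _ _), hlv v⟩
  obtain ⟨f, u, r, P, B, hf⟩ := hy0 y (le_max_left _ _)
  obtain ⟨t, ht⟩ : ∃ t, Hilb p ζ t := by
    obtain ⟨t, h1, h2, h3, h4, h5, h6⟩ := t_HS2 p hp2 K ζ hζ
    exact ⟨t, h1, h2, h3, h4, h5, h6⟩
  -- classes of units
  have hcl : ∀ a : K, a ≠ 0 → (∀ v : HS K, ¬ Sm y v → vl p v a = 0) →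
      ∃ (c : Fin f → ZMod p) (s : K), s ≠ 0 ∧ a = mon u c * s ^ p := by
    intro a ha h0
    obtain ⟨c, x, hx⟩ := B.full a ha h0
    obtain ⟨s, hs, h1⟩ := mon_add B.ue c (-c)
    rw [add_neg_cancel, Pool.Agent.Q14.LK.mon_zero, one_mul] at h1
    have hx0 : x ≠ 0 := by
      rintro rfl
      rw [zero_pow hp.out.ne_zero] at hx
      exact mul_ne_zero ha (mon_ne B.ue c) hx
    refine ⟨-c, x / s, div_ne_zero hx0 hs, ?_⟩
    have h2 := mon_ne B.ue c
    have h3 : s ^ p ≠ 0 := pow_ne_zero _ hs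
    rw [div_pow, ← hx]
    field_simp
    rw [← h1]
    ring
  have hmU : ∀ (c : Fin f → ZMod p) (v : HS K), ¬ Sm y v → vl p v (mon u c) = 0 :=
    fun c v hv => Pool.Agent.Q14.LK.vl_mon hBAS B.ue v (fun l => vl_of_val_one v (B.uv l v hv)) c
  have halU : ∀ c : Fin f → ZMod p, al u r ((0, c) : (Fin f → ZMod p) × (Fin f → ZMod p)) =
      mon u c := by
    intro c
    unfold al
    rw [Pool.Agent.Q14.LK.mon_zero, one_mul]
  -- the submodules
  let L : Set (HS K) → Submodule (ZMod p) ((Fin f → ZMod p) × (Fin f → ZMod p)) := fun b =>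
    ⨅ v ∈ (finS (F := K) y).toFinset, Lv (p := p) B.ue B.re b v (D : K)
  have hL : ∀ b x, x ∈ L b ↔ ∀ v, Sm y v → PV p b v (D : K) (al u r x) := by
    intro b x
    change x ∈ (⨅ v ∈ (finS (F := K) y).toFinset, Lv (p := p) B.ue B.re b v (D : K)) ↔ _
    simp only [Submodule.mem_iInf, Set.Finite.mem_toFinset, Set.mem_ofPred_eq, mem_Lv]
  have hdim := dim_L hp2 hζ B hf hD hns hvD hb
  have hkey := inter_dim (Bil ht y B.ue B.re) (Bil_ker hζ ht B) (UU p f) (L bᶜ) (L b)
    (fun x hx z hz => by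
      rw [mem_UU] at hx hz
      rw [Bil_apply, TT_al ht B.ue B.re (al_ne B.ue B.re x), hz]
      simp only [Pi.zero_apply, zero_mul, Finset.sum_const_zero, zero_add]
      refine Finset.sum_eq_zero fun m _ => ?_
      rw [Pool.Agent.Q262.LK.TT_anti ht y (al_ne B.ue B.re x) (B.ue m), TT_al ht B.ue B.re (B.ue m),
        hx]
      simp only [Pi.zero_apply, zero_mul, Finset.sum_const_zero, zero_add, (pair hζ ht B).1,
        mul_zero, neg_zero])
    (fun x hx z hz => by
      rw [Bil_apply, Pool.Agent.Q262.LK.TT_anti ht y (al_ne B.ue B.re x) (al_ne B.ue B.re z),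
        neg_eq_zero]
      refine Finset.sum_eq_zero fun w hw => ?_
      have hw' : Sm y w := (finS y).mem_toFinset.1 hw
      exact t_orth hp2 hζ ht hσ hunr b w (al_ne B.ue B.re z) (al_ne B.ue B.re x)
        ((hL b z).1 hz w hw') ((hL bᶜ x).1 hx w hw'))
    (finrank_V f) finrank_UU hdim
  -- `D`
  obtain ⟨d, s, hs, hds⟩ := hcl (D : K) hD hDy
  have hds' : mon u d = (D : K) * (s⁻¹) ^ p := by
    rw [hds, inv_pow, mul_assoc, mul_inv_cancel₀ (pow_ne_zero _ hs), mul_one]
  have hd0 : ((0, d) : (Fin f → ZMod p) × (Fin f → ZMod p)) ≠ 0 := by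
    intro h0
    have h1 : d = 0 := congrArg Prod.snd h0
    apply hnp s
    rw [hds, h1, Pool.Agent.Q14.LK.mon_zero, one_mul]
  have hdL : ∀ b, ((0, d) : (Fin f → ZMod p) × (Fin f → ZMod p)) ∈ L b := by
    intro b
    rw [hL]
    intro v _
    rw [halU, hds']
    exact (PV.self b v hD).lpw hD (lpw_pow hBAS v (inv_ne_zero hs))
  -- the bad class
  obtain ⟨a, hca, hna⟩ := h
  rw [cond_iff] at hca
  obtain ⟨ha0, hPa⟩ := hca
  have hay : ∀ v : HS K, ¬ Sm y v → vl p v a = 0 := by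
    intro v hv
    have hdp : ¬ Dp p v := fun h => hv ⟨p, hp.out, B.two, h⟩
    exact (hPa v).1 ⟨hDy v hv, fun h => absurd h hdp⟩
  obtain ⟨e, w, hw, hew⟩ := hcl a ha0 hay
  have hew' : mon u e = a * (w⁻¹) ^ p := by
    rw [hew, inv_pow, mul_assoc, mul_inv_cancel₀ (pow_ne_zero _ hw), mul_one]
  have heL : ((0, e) : (Fin f → ZMod p) × (Fin f → ZMod p)) ∈ UU p f ⊓ L bᶜ := by
    refine ⟨mem_UU.2 rfl, ?_⟩
    rw [SetLike.mem_coe, hL]
    intro v _
    rw [halU, hew']
    exact (hPa v).lpw ha0 (lpw_pow hBAS v (inv_ne_zero hw))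
  have hpp : ∀ j : ZMod p, ∃ s' : K, s' ≠ 0 ∧ mon u (j • d) = (D : K) ^ j.val * s' ^ p := by
    intro j
    obtain ⟨s', hs', h1⟩ := mon_smul B.ue j d
    refine ⟨(s⁻¹) ^ j.val / s', div_ne_zero (pow_ne_zero _ (inv_ne_zero hs)) hs', ?_⟩
    rw [hds', mul_pow] at h1
    rw [div_pow, ← mul_div_assoc, eq_div_iff (pow_ne_zero _ hs'), ← h1, ← pow_mul, ← pow_mul,
      mul_comm p]
  have h2 : 2 ≤ Module.finrank (ZMod p) (UU p f ⊓ L bᶜ : Submodule (ZMod p) _) := by
    refine two_le ⟨mem_UU.2 rfl, hdL bᶜ⟩ heL hd0 fun j hj => ?_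
    have h3 : e = j • d := congrArg Prod.snd hj
    obtain ⟨s', hs', h4⟩ := hpp j
    -- `a` is `D ^ j` up to `p`-th powers
    apply hna (p * j.val - j.val)
    refine ⟨(D : K) ^ j.val * s' * w, ?_⟩
    rw [hew, h3, h4, mul_pow, mul_pow, ← pow_mul, mul_comm j.val p]
    have h5 : (D : K) ^ (p * j.val) = (D : K) ^ j.val * (D : K) ^ (p * j.val - j.val) := by
      rw [← pow_add]
      congr 1
      have : j.val ≤ p * j.val := Nat.le_mul_of_pos_left _ hp.out.pos
      omega
    rw [h5]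
    ring
  obtain ⟨x, hx, hxd⟩ := exists_ne (h2.trans hkey) (0, d)
  have hx1 : x.1 = 0 := mem_UU.1 hx.1
  have hx2 : x = (0, x.2) := Prod.ext hx1 rfl
  have hxL := (hL b x).1 hx.2
  rw [hx2, halU] at hxL
  refine ⟨mon u x.2, cond_iff.2 ⟨mon_ne B.ue _, fun v => ?_⟩, fun j hj => ?_⟩
  · by_cases hv : Sm y v
    · exact hxL v hv
    · exact ⟨fun _ => hmU _ v hv, fun h0 => absurd ⟨hDy v hv, fun h => absurd ⟨p, hp.out, B.two, h⟩ hv⟩
        h0⟩
  · obtain ⟨q, hq⟩ := hj
    obtain ⟨s', hs', h4⟩ := hpp ((j : ZMod p))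
    obtain ⟨s'', hs'', h5⟩ := mon_add B.ue x.2 ((j : ZMod p) • d)
    have hval : ∃ m : ℕ, j = (j : ZMod p).val + p * m := ⟨j / p, by
      rw [ZMod.val_natCast, Nat.mod_add_div]⟩
    obtain ⟨m, hm⟩ := hval
    have h6 : IsPow p (mon u (x.2 + (j : ZMod p) • d)) := by
      refine ⟨q * s' / ((D : K) ^ m * s''), ?_⟩
      have h7 : (D : K) ^ j = (D : K) ^ (j : ZMod p).val * ((D : K) ^ m) ^ p := by
        rw [← pow_mul, ← pow_add, mul_comm m p, ← hm]
      rw [h7] at hq
      have h8 : ((D : K) ^ m) ^ p ≠ 0 := pow_ne_zero _ (pow_ne_zero _ hD)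
      have h9 : s'' ^ p ≠ 0 := pow_ne_zero _ hs''
      rw [h4] at h5
      rw [div_pow, mul_pow, mul_pow, ← hq, eq_div_iff (mul_ne_zero h8 h9)]
      linear_combination (-((D : K) ^ m) ^ p) * h5
    have h7 := B.ind _ h6
    apply hxd (-(j : ZMod p))
    rw [hx2]
    refine Prod.ext ?_ ?_
    · simp
    · change x.2 = -(j : ZMod p) • d
      rw [neg_smul]
      exact eq_neg_of_add_eq_zero_left h7

end Pool.Agent.H16.FL
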