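import Pool.Agent.H16.FL.Fin

/-!
# Existence of unramified numbers which are not local powers
-/

set_option autoImplicit false
set_option linter.unusedSectionVars false

namespace Pool.Agent.H16.FL

open NumberField IsDedekindDomain Finset
open Pool.Agent.W401.Cheb Pool.Agent.NH7.Sch
open Pool.Agent.NH7.GU (HS Qv Qv_max Qv_comap)
open Pool.Agent.Q7.LK

section val

variable {M : Type} [Field M] {Γ : Type} [LinearOrderedCommGroupWithZero Γ] (w : Valuation M Γ)
  {p : ℕ} [hp : Fact p.Prime] {z : M} (hz : IsPrimitiveRoot z p)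

include hz

omit hz in
theorem exists_pow_eq {M : Type} [CommRing M] {p : ℕ} [hp : Fact p.Prime] {z : M}
    (hz : IsPrimitiveRoot z p) {i : ℕ} (hi : ¬ p ∣ i) : ∃ m : ℕ, (z ^ i) ^ m = z := by
  refine ⟨((i : ZMod p)⁻¹).val, ?_⟩
  have hi0 : (i : ZMod p) ≠ 0 := by
    rw [Ne, ZMod.natCast_eq_zero_iff]
    exact hi
  have h1 : ((i * ((i : ZMod p)⁻¹).val : ℕ) : ZMod p) = (1 : ℕ) := by
    push_cast
    rw [ZMod.natCast_zmod_val, mul_inv_cancel₀ hi0]
  have h2 : (i * ((i : ZMod p)⁻¹).val) % p = 1 % p := (ZMod.natCast_eq_natCast_iff _ _ _).1 h1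
  rw [← pow_mul, pow_eq_pow_mod _ hz.pow_eq_one, h2, ← pow_eq_pow_mod _ hz.pow_eq_one, pow_one]

theorem val_z : w z = 1 := by
  have h1 : w z ^ p = 1 := by rw [← map_pow, hz.pow_eq_one, map_one]
  exact (pow_eq_one_iff_of_nonneg zero_le hp.out.ne_zero).1 h1

theorem val_le (x : M) (hx : w x = 1) (i : ℕ) : w (x ^ i - 1) ≤ w (x - 1) := by
  rw [← mul_geom_sum, map_mul]
  refine mul_le_of_le_one_right' ?_
  refine Valuation.map_sum_le _ fun j _ => ?_
  rw [map_pow, hx, one_pow]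

theorem val_eq {i : ℕ} (hi : ¬ p ∣ i) : w (z ^ i - 1) = w (z - 1) := by
  refine le_antisymm (val_le w hz z (val_z w hz) i) ?_
  obtain ⟨m, hm⟩ := exists_pow_eq hz hi
  conv_lhs => rw [← hm]
  exact val_le w hz (z ^ i) (by rw [map_pow, val_z w hz, one_pow]) m

theorem val_p_le : w (p : M) ≤ w (z - 1) ^ (p - 1) := by
  obtain ⟨n, hn⟩ : ∃ n, p = n + 1 := ⟨p - 1, (Nat.succ_pred_eq_of_pos hp.out.pos).symm⟩
  have hz' : IsPrimitiveRoot z (n + 1) := hn ▸ hz
  have h1 := hz'.prod_one_sub_pow_eq_order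
  have h2 : (p : M) = ∏ k ∈ Finset.range n, (1 - z ^ (k + 1)) := by
    rw [h1, hn]
    push_cast
    rfl
  rw [h2, map_prod, show p - 1 = n by omega]
  calc ∏ i ∈ range n, w (1 - z ^ (i + 1)) ≤ ∏ i ∈ range n, w (z - 1) :=
        Finset.prod_le_prod' fun k _ => by
          rw [Valuation.map_sub_swap]
          exact val_le w hz z (val_z w hz) (k + 1)
    _ = w (z - 1) ^ n := by rw [Finset.prod_const, Finset.card_range]

/-- a number whose `p`-th power is close to `1` -/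
theorem near {s : M} (h : w (s ^ p - 1) ≤ w (z - 1) ^ p) : w (s - 1) ≤ w (z - 1) := by
  by_contra hcon
  push Not at hcon
  have h1 : ∀ k ∈ range p, w (s - z ^ k) = w (s - 1) := by
    intro k _
    have e : s - z ^ k = (s - 1) - (z ^ k - 1) := by ring
    rw [e]
    exact Valuation.map_sub_eq_of_lt_left _
      ((val_le w hz z (val_z w hz) k).trans_lt hcon)
  have h2 := Pool.Agent.Q65.LK.prod_sub_pow p hp.out.pos z hz s
  rw [← h2, map_prod, Finset.prod_congr rfl h1, Finset.prod_const, Finset.card_range] at h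
  exact absurd h (not_le.2 (pow_lt_pow_left₀ hcon zero_le hp.out.ne_zero))

theorem expand (hw : w (z - 1) < 1) {Y : M} (hY : w Y ≤ 1) :
    w ((1 + (z - 1) * Y) ^ p - 1 - ((z - 1) * Y) ^ p - p * ((z - 1) * Y)) < w (z - 1) ^ p := by
  have hz1 : z - 1 ≠ 0 := sub_ne_zero.2 (hz.ne_one hp.out.one_lt)
  have hw0 : 0 < w (z - 1) := zero_lt_iff.2 ((Valuation.ne_zero_iff _).2 hz1)
  have h0 := add_pow_prime_eq hp.out ((z - 1) * Y) (1 : M)
  set l := z - 1 with hl
  have hmem : 1 ∈ Ioo 0 p := Finset.mem_Ioo.2 ⟨Nat.one_pos, hp.out.one_lt⟩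
  rw [← Finset.add_sum_erase _ _ hmem] at h0
  have hpp : (p.choose 1 / p : ℕ) = 1 := by rw [Nat.choose_one_right, Nat.div_self hp.out.pos]
  have e : (1 + l * Y) ^ p - 1 - (l * Y) ^ p - p * (l * Y) = p * (l * Y) *
      ∑ k ∈ (Ioo 0 p).erase 1, (l * Y) ^ (k - 1) * 1 ^ (p - k - 1) * ((p.choose k / p : ℕ) : M) := by
    rw [add_comm 1 (l * Y), h0, hpp]
    simp only [Nat.sub_self, pow_zero, one_pow, mul_one, Nat.cast_one]
    ring
  have hlY : w (l * Y) ≤ w l := by
    rw [map_mul]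
    exact mul_le_of_le_one_right' hY
  have hlY1 : w (l * Y) ≤ 1 := hlY.trans hw.le
  have hnat : ∀ n : ℕ, w (n : M) ≤ 1 := by
    intro n
    induction n with
    | zero => rw [Nat.cast_zero, map_zero]; exact zero_le
    | succ n ih =>
      rw [Nat.cast_succ]
      exact Valuation.map_add_le _ ih (map_one w).le
  have hsum : w (∑ k ∈ (Ioo 0 p).erase 1, (l * Y) ^ (k - 1) * 1 ^ (p - k - 1) *
      ((p.choose k / p : ℕ) : M)) ≤ w l := by
    refine Valuation.map_sum_le _ fun k hk => ?_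
    obtain ⟨hk1, hk2⟩ := Finset.mem_erase.1 hk
    obtain ⟨hk3, hk4⟩ := Finset.mem_Ioo.1 hk2
    obtain ⟨m, hm⟩ : ∃ m, k - 1 = m + 1 := ⟨k - 2, by omega⟩
    rw [one_pow, mul_one, map_mul, hm, pow_succ, map_mul, map_pow]
    calc w (l * Y) ^ m * w (l * Y) * w ((p.choose k / p : ℕ) : M) ≤ 1 * w l * 1 :=
          mul_le_mul' (mul_le_mul' (pow_le_one' hlY1 m) hlY) (hnat _)
      _ = w l := by rw [one_mul, mul_one]
  rw [e, map_mul, map_mul]
  calc w (p : M) * w (l * Y) * w (∑ k ∈ (Ioo 0 p).erase 1, (l * Y) ^ (k - 1) * 1 ^ (p - k - 1) *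
      ((p.choose k / p : ℕ) : M)) ≤ w l ^ (p - 1) * w l * w l :=
        mul_le_mul' (mul_le_mul' (val_p_le w hz) hlY) hsum
    _ = w l ^ p * w l := by rw [← pow_succ, Nat.sub_add_cancel hp.out.pos]
    _ < w l ^ p := mul_lt_of_lt_one_right (pow_pos hw0 p) hw

/-- the Artin-Schreier equation -/
theorem art_sch (hw : w (z - 1) < 1) {Y : M} (hY : w Y ≤ 1) :
    w ((1 + (z - 1) * Y) ^ p - 1 - (z - 1) ^ p * (Y ^ p - Y)) < w (z - 1) ^ p := by
  have h1 := expand w hz hw hY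
  have h2 := expand w hz hw (Y := 1) (map_one w).le
  rw [mul_one, add_sub_cancel, hz.pow_eq_one, sub_self, zero_sub] at h2
  have h3 : w ((-(z - 1) ^ p - p * (z - 1)) * Y) < w (z - 1) ^ p := by
    rw [map_mul]
    exact (mul_le_of_le_one_right' hY).trans_lt h2
  have e : (1 + (z - 1) * Y) ^ p - 1 - (z - 1) ^ p * (Y ^ p - Y) =
      ((1 + (z - 1) * Y) ^ p - 1 - ((z - 1) * Y) ^ p - p * ((z - 1) * Y)) -
        (-(z - 1) ^ p - p * (z - 1)) * Y := by
    rw [mul_pow]
    ring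
  rw [e]
  exact (Valuation.map_sub _ _ _).trans_lt (max_lt h1 h3)

end val

section loc

variable {K : Type} [Field K] [NumberField K] {p : ℕ} [hp : Fact p.Prime] {ζ : K}

theorem lpw_apx {v : HS K} {d : K} (hd : v.valuation K d = 1) (h : Lpw p v d) (n : ℕ) :
    ∃ s : K, v.valuation K s = 1 ∧ v.valuation K (s ^ p - d) < WithZero.exp (-(n : ℤ)) := by
  obtain ⟨x, hx⟩ := h n
  have h1 : v.valuation K (d * x ^ p - 1) < 1 := by
    refine hx.trans_le ?_
    rw [← WithZero.exp_zero, WithZero.exp_le_exp]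
    omega
  have h2 : v.valuation K (d * x ^ p) = 1 := by
    have := (v.valuation K).map_one_add_of_lt h1
    rwa [add_sub_cancel] at this
  have h3 : v.valuation K x = 1 := by
    rw [map_mul, hd, one_mul, map_pow] at h2
    exact (pow_eq_one_iff_of_nonneg zero_le hp.out.ne_zero).1 h2
  have hx0 : x ≠ 0 := fun h => by simp [h] at h3
  refine ⟨x⁻¹, by rw [map_inv₀, h3, inv_one], ?_⟩
  have e : x⁻¹ ^ p - d = -(d * x ^ p - 1) * x⁻¹ ^ p := by
    have h5 : x ^ p * x⁻¹ ^ p = 1 := by rw [← mul_pow, mul_inv_cancel₀ hx0, one_pow]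
    linear_combination d * h5
  rw [e, map_mul, map_pow, map_inv₀, h3, inv_one, one_pow, mul_one, Valuation.map_neg]
  exact hx

theorem mem_iff (v : HS K) (a : 𝓞 K) : a ∈ v.asIdeal ↔ v.valuation K (a : K) < 1 := by
  exact (HeightOneSpectrum.valuation_lt_one_iff_mem (K := K) v a).symm

theorem int_le (v : HS K) (a : 𝓞 K) : v.valuation K (a : K) ≤ 1 :=
  v.valuation_le_one a

include hp in
theorem lam_p (hζ : IsPrimitiveRoot ζ p) {v : HS K} (hv : Dp p v) : v.valuation K (ζ - 1) < 1 := by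
  have hle : v.valuation K (ζ - 1) ≤ 1 := by
    have h := int_le v (hζ.toInteger - 1)
    have e : ((hζ.toInteger - 1 : 𝓞 K) : K) = ζ - 1 := rfl
    rwa [e] at h
  refine lt_of_le_of_ne hle fun h1 => ?_
  obtain ⟨n, hn⟩ : ∃ n, p = n + 1 := ⟨p - 1, (Nat.succ_pred_eq_of_pos hp.out.pos).symm⟩
  have hζ' : IsPrimitiveRoot ζ (n + 1) := hn ▸ hζ
  have h2 : (p : K) = ∏ k ∈ Finset.range n, (1 - ζ ^ (k + 1)) := by
    rw [hζ'.prod_one_sub_pow_eq_order, hn]
    push_cast
    rfl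
  have h3 : v.valuation K (p : K) = 1 := by
    rw [h2, map_prod]
    refine Finset.prod_eq_one fun k hk => ?_
    rw [Valuation.map_sub_swap, val_eq _ hζ, h1]
    intro hd
    have := Nat.le_of_dvd (Nat.succ_pos k) hd
    rw [Finset.mem_range] at hk
    omega
  have h4 := (mem_iff v (p : 𝓞 K)).1 hv
  have e : ((p : 𝓞 K) : K) = (p : K) := map_natCast (algebraMap (𝓞 K) K) p
  rw [e, h3] at h4
  exact lt_irrefl _ h4

include hp in
theorem lam_not_p (hζ : IsPrimitiveRoot ζ p) {v : HS K} (hv : ¬ Dp p v) :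
    v.valuation K (ζ - 1) = 1 := by
  have hle : v.valuation K (ζ - 1) ≤ 1 := by
    have h := int_le v (hζ.toInteger - 1)
    have e : ((hζ.toInteger - 1 : 𝓞 K) : K) = ζ - 1 := rfl
    rwa [e] at h
  refine le_antisymm hle ?_
  have h1 : v.valuation K (p : K) = 1 := by
    have h2 := int_le v (p : 𝓞 K)
    have e : ((p : 𝓞 K) : K) = (p : K) := map_natCast (algebraMap (𝓞 K) K) p
    rw [e] at h2
    refine le_antisymm h2 (not_lt.1 fun h3 => hv ?_)
    refine (mem_iff v (p : 𝓞 K)).2 ?_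
    rwa [e]
  by_contra hcon
  push Not at hcon
  have h4 := val_p_le (v.valuation K) hζ
  rw [h1] at h4
  have h5 : v.valuation K (ζ - 1) ^ (p - 1) < 1 :=
    pow_lt_one₀ zero_le hcon (by have := hp.out.two_le; omega)
  exact absurd h4 (not_le.2 h5)

/-- a number which is congruent to an element outside the image of the Artin-Schreier map -/
theorem not_lpw_p (hζ : IsPrimitiveRoot ζ p) {v : HS K} (hv : Dp p v) {a : 𝓞 K}
    (ha : ∀ y : 𝓞 K, a - (y ^ p - y) ∉ v.asIdeal) : ¬ Lpw p v (1 + (ζ - 1) ^ p * (a : K)) := by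
  intro h
  set w := v.valuation K with hw
  have hl := lam_p hζ hv
  have hz1 : ζ - 1 ≠ 0 := sub_ne_zero.2 (hζ.ne_one hp.out.one_lt)
  have hw0 : w (ζ - 1) ≠ 0 := (Valuation.ne_zero_iff _).2 hz1
  have hla : w ((ζ - 1) ^ p * (a : K)) ≤ w (ζ - 1) ^ p := by
    rw [map_mul, map_pow]
    exact mul_le_of_le_one_right' (int_le v a)
  have hd : w (1 + (ζ - 1) ^ p * (a : K)) = 1 :=
    w.map_one_add_of_lt (hla.trans_lt (pow_lt_one₀ zero_le hl hp.out.ne_zero))
  obtain ⟨n, hn⟩ : ∃ n : ℕ, WithZero.exp (-(n : ℤ)) ≤ w (ζ - 1) ^ p := by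
    refine ⟨(WithZero.log (w (ζ - 1) ^ p)).natAbs, ?_⟩
    conv_rhs => rw [← WithZero.exp_log (pow_ne_zero p hw0)]
    rw [WithZero.exp_le_exp]
    omega
  obtain ⟨s, -, hs⟩ := lpw_apx hd h n
  have hs2 := hs.trans_le hn
  have hs3 : w (s ^ p - 1) ≤ w (ζ - 1) ^ p := by
    have e : s ^ p - 1 = (s ^ p - (1 + (ζ - 1) ^ p * (a : K))) + (ζ - 1) ^ p * (a : K) := by ring
    rw [e]
    exact Valuation.map_add_le _ hs2.le hla
  have h3 := near w hζ hs3
  obtain ⟨Y, hY⟩ : ∃ Y, s = 1 + (ζ - 1) * Y := ⟨(s - 1) / (ζ - 1), by field_simp; ring⟩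
  have hY1 : w Y ≤ 1 := by
    rw [hY, add_sub_cancel_left, map_mul] at h3
    rw [mul_comm] at h3
    exact (mul_le_iff_le_one_left (zero_lt_iff.2 hw0)).1 h3
  have h4 := art_sch w hζ hl hY1
  rw [← hY] at h4
  have h5 : w ((ζ - 1) ^ p * ((a : K) - (Y ^ p - Y))) < w (ζ - 1) ^ p := by
    have e : (ζ - 1) ^ p * ((a : K) - (Y ^ p - Y)) =
        (s ^ p - 1 - (ζ - 1) ^ p * (Y ^ p - Y)) - (s ^ p - (1 + (ζ - 1) ^ p * (a : K))) := by ring
    rw [e]
    exact (Valuation.map_sub _ _ _).trans_lt (max_lt h4 hs2)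
  rw [map_mul, map_pow] at h5
  have h6 : w ((a : K) - (Y ^ p - Y)) < 1 := by
    by_contra hcon
    push Not at hcon
    exact absurd h5 (not_lt.2 (le_mul_of_one_le_right' hcon))
  obtain ⟨y, hy⟩ := v.exists_valuation_sub_lt_of_integer hY1 (1 : (WithZero (Multiplicative ℤ))ˣ)
  rw [Units.val_one] at hy
  apply ha y
  rw [mem_iff, ← hw]
  have hy' : w ((y : K) - Y) < 1 := hy
  have h7 : w ((y : K) ^ p - Y ^ p) < 1 := by
    refine lt_of_le_of_lt ?_ hy'
    rw [← Commute.mul_geom_sum₂ (Commute.all _ _), map_mul]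
    refine mul_le_of_le_one_right' ?_
    refine Valuation.map_sum_le _ fun j _ => ?_
    rw [map_mul, map_pow, map_pow]
    exact mul_le_one' (pow_le_one' (int_le v y) _) (pow_le_one' hY1 _)
  have e : ((a - (y ^ p - y) : 𝓞 K) : K) =
      ((a : K) - (Y ^ p - Y)) - (((y : K) ^ p - Y ^ p) - ((y : K) - Y)) := by
    push_cast
    ring
  rw [e]
  exact (Valuation.map_sub _ _ _).trans_lt (max_lt h6
    ((Valuation.map_sub _ _ _).trans_lt (max_lt h7 hy')))

theorem not_lpw_q {v : HS K} {d : 𝓞 K} (hd : ∀ y : 𝓞 K, d - y ^ p ∉ v.asIdeal) :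
    ¬ Lpw p v (d : K) := by
  intro h
  set w := v.valuation K with hw
  have hd1 : w (d : K) = 1 := by
    refine le_antisymm (int_le v d) (not_lt.1 fun h1 => hd 0 ?_)
    rw [zero_pow hp.out.ne_zero, sub_zero]
    exact (mem_iff v d).2 h1
  obtain ⟨s, hs1, hs⟩ := lpw_apx hd1 h 0
  rw [Nat.cast_zero, neg_zero, WithZero.exp_zero] at hs
  obtain ⟨y, hy⟩ := v.exists_valuation_sub_lt_of_integer (x := s) hs1.le
    (1 : (WithZero (Multiplicative ℤ))ˣ)
  rw [Units.val_one] at hy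
  apply hd y
  rw [mem_iff, ← hw]
  have hy' : w ((y : K) - s) < 1 := hy
  have h7 : w ((y : K) ^ p - s ^ p) < 1 := by
    refine lt_of_le_of_lt ?_ hy'
    rw [← Commute.mul_geom_sum₂ (Commute.all _ _), map_mul]
    refine mul_le_of_le_one_right' ?_
    refine Valuation.map_sum_le _ fun j _ => ?_
    rw [map_mul, map_pow, map_pow]
    exact mul_le_one' (pow_le_one' (int_le v y) _) (pow_le_one' hs1.le _)
  have e : ((d - y ^ p : 𝓞 K) : K) = -(((y : K) ^ p - s ^ p) + (s ^ p - (d : K))) := by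
    push_cast
    ring
  rw [e, Valuation.map_neg]
  exact (Valuation.map_add _ _ _).trans_lt (max_lt h7 hs)

end loc

section unr

variable {K : Type} [Field K] [NumberField K] {p : ℕ} [hp : Fact p.Prime] {ζ : K}

/-- the root of unity -/
noncomputable def Zp (hζ : IsPrimitiveRoot ζ p) : OO K := algebraMap (𝓞 K) (OO K) hζ.toInteger

theorem coe_Zp (hζ : IsPrimitiveRoot ζ p) :
    ((Zp hζ : OO K) : AlgebraicClosure K) = algebraMap K (AlgebraicClosure K) ζ := rfl

theorem Zp_prim (hζ : IsPrimitiveRoot ζ p) : IsPrimitiveRoot (Zp hζ) p := by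
  have h1 : IsPrimitiveRoot ((Zp hζ : OO K) : AlgebraicClosure K) p := by
    rw [coe_Zp]
    exact hζ.map_of_injective (algebraMap K (AlgebraicClosure K)).injective
  exact IsPrimitiveRoot.of_map_of_injective (f := algebraMap (OO K) (AlgebraicClosure K)) h1
    RingOfIntegers.coe_injective

theorem smul_Zp (hζ : IsPrimitiveRoot ζ p) (σ : GK K) : σ • Zp hζ = Zp hζ := by
  apply RingOfIntegers.ext
  exact σ.commutes ζ

/-- the `p`-th root of `1 + (ζ - 1) ^ p a` is congruent to `1` modulo `ζ - 1` -/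
theorem exists_Y (hζ : IsPrimitiveRoot ζ p) {a : 𝓞 K} {X : OO K}
    (hX : X ^ p = 1 + (Zp hζ - 1) ^ p * algebraMap (𝓞 K) (OO K) a) :
    ∃ Y : OO K, X = 1 + (Zp hζ - 1) * Y := by
  set z : AlgebraicClosure K := algebraMap K (AlgebraicClosure K) ζ with hz
  have hzp : IsPrimitiveRoot z p := hζ.map_of_injective (algebraMap K (AlgebraicClosure K)).injective
  have hz1 : z - 1 ≠ 0 := sub_ne_zero.2 (hzp.ne_one hp.out.one_lt)
  set x : AlgebraicClosure K := (X : AlgebraicClosure K) with hx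
  have hxp : x ^ p - 1 = (z - 1) ^ p * algebraMap (𝓞 K) (AlgebraicClosure K) a := by
    have h1 := congrArg (algebraMap (OO K) (AlgebraicClosure K)) hX
    rw [map_pow, map_add, map_mul, map_pow, map_sub, map_one] at h1
    have h2 : algebraMap (OO K) (AlgebraicClosure K) (Zp hζ) = z := rfl
    have h3 : algebraMap (OO K) (AlgebraicClosure K) X = x := rfl
    have h4 : algebraMap (OO K) (AlgebraicClosure K) (algebraMap (𝓞 K) (OO K) a) =
      algebraMap (𝓞 K) (AlgebraicClosure K) a := rfl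
    rw [h2, h3, h4] at h1
    rw [h1]
    ring
  set Y : AlgebraicClosure K := (x - 1) / (z - 1) with hY
  have hxY : x - 1 = (z - 1) * Y := by rw [hY, mul_div_cancel₀ _ hz1]
  set u : ℕ → 𝓞 K := fun k => ∑ j ∈ range k, hζ.toInteger ^ j with hu
  have huz : ∀ k, algebraMap (𝓞 K) (AlgebraicClosure K) (u k) * (z - 1) = z ^ k - 1 := by
    intro k
    have h1 : algebraMap (𝓞 K) (AlgebraicClosure K) hζ.toInteger = z := rfl
    rw [hu]
    simp only [map_sum, map_pow]
    rw [h1, geom_sum_mul]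
  have hprod : ∏ k ∈ range p, (Y - algebraMap (𝓞 K) (AlgebraicClosure K) (u k)) =
      algebraMap (𝓞 K) (AlgebraicClosure K) a := by
    have h1 := Pool.Agent.Q65.LK.prod_sub_pow p hp.out.pos z hzp x
    have h2 : ∏ k ∈ range p, (x - z ^ k) =
        (z - 1) ^ p * ∏ k ∈ range p, (Y - algebraMap (𝓞 K) (AlgebraicClosure K) (u k)) := by
      have h3 : ∀ k ∈ range p, x - z ^ k = (z - 1) *
          (Y - algebraMap (𝓞 K) (AlgebraicClosure K) (u k)) := fun k _ => by
        linear_combination hxY + huz k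
      rw [Finset.prod_congr rfl h3, Finset.prod_mul_distrib, Finset.prod_const, Finset.card_range]
    rw [h2, hxp] at h1
    exact mul_left_cancel₀ (pow_ne_zero p hz1) h1
  have hint : IsIntegral (𝓞 K) Y := by
    refine ⟨∏ k ∈ range p, (Polynomial.X - Polynomial.C (u k)) - Polynomial.C a, ?_, ?_⟩
    · refine (Polynomial.monic_prod_of_monic _ _ fun k _ => Polynomial.monic_X_sub_C _).sub_of_left ?_
      refine Polynomial.degree_C_le.trans_lt ?_
      rw [Polynomial.degree_prod]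
      simp only [Polynomial.degree_X_sub_C, Finset.sum_const, Finset.card_range]
      have := hp.out.pos
      simp [this]
    · rw [Polynomial.eval₂_sub, Polynomial.eval₂_finsetProd, Polynomial.eval₂_C]
      simp only [Polynomial.eval₂_sub, Polynomial.eval₂_X, Polynomial.eval₂_C]
      rw [hprod, sub_self]
  have hintZ : IsIntegral ℤ Y := isIntegral_trans (A := 𝓞 K) Y hint
  set Y' : OO K := ⟨Y, hintZ⟩ with hY'
  refine ⟨Y', ?_⟩
  apply RingOfIntegers.ext
  have h5 : ((1 + (Zp hζ - 1) * Y' : OO K) : AlgebraicClosure K) = 1 + (z - 1) * Y := rfl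
  rw [h5]
  linear_combination hxY

theorem unr (hζ : IsPrimitiveRoot ζ p) {v : HS K} {a d : 𝓞 K}
    (hd : d = 1 + (hζ.toInteger - 1) ^ p * a) (hdv : d ∉ v.asIdeal) {Q : Ideal (OO K)}
    (hQ : Q.IsMaximal) (hQv : Q.comap (algebraMap (𝓞 K) (OO K)) = v.asIdeal) {σ : GK K}
    (hσ : ∀ x : OO K, σ • x - x ∈ Q) {x : AlgebraicClosure K}
    (hx : x ^ p = algebraMap K (AlgebraicClosure K) (d : K)) : σ x = x := by
  have hint : IsIntegral ℤ x := by
    refine IsIntegral.of_pow hp.out.pos ?_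
    rw [hx]
    exact ((RingOfIntegers.isIntegral_coe d).map
      (Algebra.ofId K (AlgebraicClosure K) |>.restrictScalars ℤ))
  set X : OO K := ⟨x, hint⟩ with hXdef
  have hXp : X ^ p = algebraMap (𝓞 K) (OO K) d := RingOfIntegers.ext hx
  have hX2 : X ^ p = 1 + (Zp hζ - 1) ^ p * algebraMap (𝓞 K) (OO K) a := by
    rw [hXp, hd, map_add, map_mul, map_pow, map_sub, map_one]
    rfl
  obtain ⟨Y, hY⟩ := exists_Y hζ hX2
  have hXQ : X ∉ Q := by
    intro h
    apply hdv
    rw [← hQv, Ideal.mem_comap, ← hXp]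
    exact Ideal.pow_mem_of_mem Q h p hp.out.pos
  have hx0 : x ≠ 0 := by
    intro h0
    apply hXQ
    have : X = 0 := RingOfIntegers.ext h0
    rw [this]
    exact Q.zero_mem
  set z : AlgebraicClosure K := algebraMap K (AlgebraicClosure K) ζ with hz
  have hzp : IsPrimitiveRoot z p := hζ.map_of_injective (algebraMap K (AlgebraicClosure K)).injective
  have h1 : (σ x / x) ^ p = 1 := by
    rw [div_pow, ← map_pow, hx, σ.commutes, div_self]
    rw [← hx]
    exact pow_ne_zero p hx0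
  have : NeZero p := ⟨hp.out.ne_zero⟩
  obtain ⟨i, hi, hi2⟩ := hzp.eq_pow_of_pow_eq_one h1
  have hσx : σ x = z ^ i * x := by rw [hi2, div_mul_cancel₀ _ hx0]
  rcases Nat.eq_zero_or_pos i with h0 | h0
  · rw [hσx, h0, pow_zero, one_mul]
  exfalso
  have hpi : ¬ p ∣ i := fun h => absurd (Nat.le_of_dvd h0 h) (not_le.2 hi)
  have hZ := Zp_prim hζ
  have hZ1 : Zp hζ - 1 ≠ 0 := sub_ne_zero.2 (hZ.ne_one hp.out.one_lt)
  obtain ⟨m, hm⟩ := exists_pow_eq hZ hpi
  have hσX : σ • X = Zp hζ ^ i * X := RingOfIntegers.ext hσx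
  set U := ∑ j ∈ range i, Zp hζ ^ j with hU
  have hU1 : U * (Zp hζ - 1) = Zp hζ ^ i - 1 := geom_sum_mul _ _
  have hUQ : U ∉ Q := by
    intro h
    have h3 : (∑ j ∈ range m, (Zp hζ ^ i) ^ j) * (Zp hζ ^ i - 1) = Zp hζ - 1 := by
      rw [geom_sum_mul, hm]
    rw [← hU1, ← mul_assoc] at h3
    have h4 : (∑ j ∈ range m, (Zp hζ ^ i) ^ j) * U = 1 :=
      mul_right_cancel₀ hZ1 (by rw [h3, one_mul])
    exact hQ.ne_top ((Ideal.eq_top_iff_one _).2 (h4 ▸ Q.mul_mem_left _ h))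
  have h5 : σ • Y - Y = U * X := by
    apply mul_left_cancel₀ hZ1
    have h6 : σ • X = 1 + (Zp hζ - 1) * σ • Y := by
      conv_lhs => rw [hY]
      rw [smul_add, smul_one, smul_mul', smul_sub, smul_Zp, smul_one]
    linear_combination hσX - h6 + hY - X * hU1
  have h7 := hσ Y
  rw [h5] at h7
  rcases hQ.isPrime.mem_or_mem h7 with h8 | h8
  · exact hUQ h8
  · exact hXQ h8

end unr

section crt

variable {K : Type} [Field K] [NumberField K] {p : ℕ} [hp : Fact p.Prime] {ζ : K}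

/-- a map of a finite set which is not injective -/
theorem exists_notin {k : Type} [Finite k] (f : k → k) {x y : k} (hxy : x ≠ y) (h : f x = f y) :
    ∃ c, ∀ t, f t ≠ c := by
  by_contra hcon
  push Not at hcon
  exact hxy (Finite.injective_iff_surjective.2 hcon h)

/-- the local condition at `v` -/
def GoodAt (p : ℕ) (z : 𝓞 K) (v : HS K) (a : 𝓞 K) : Prop :=
  (1 + (z - 1) ^ p * a ∉ v.asIdeal) ∧ ¬ Lpw p v ((1 + (z - 1) ^ p * a : 𝓞 K) : K)

theorem coe_d (z a : 𝓞 K) : ((1 + (z - 1) ^ p * a : 𝓞 K) : K) = 1 + ((z : K) - 1) ^ p * (a : K) := by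
  push_cast
  rfl

theorem exists_loc (hζ : IsPrimitiveRoot ζ p) (v : HS K) :
    ∃ c : 𝓞 K, ∀ a : 𝓞 K, a - c ∈ v.asIdeal → GoodAt p hζ.toInteger v a := by
  have : Finite (𝓞 K ⧸ v.asIdeal) := Ideal.finiteQuotientOfFreeOfNeBot _ v.ne_bot
  have hmax : v.asIdeal.IsMaximal := v.isMaximal
  have hcoe : ((hζ.toInteger : 𝓞 K) : K) = ζ := rfl
  by_cases hv : Dp p v
  · have h01 : (0 : 𝓞 K ⧸ v.asIdeal) ≠ 1 := zero_ne_one
    obtain ⟨c, hc⟩ := exists_notin (fun t : 𝓞 K ⧸ v.asIdeal => t ^ p - t) h01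
      (by simp [hp.out.ne_zero])
    obtain ⟨c, rfl⟩ := Ideal.Quotient.mk_surjective c
    refine ⟨c, fun a ha => ⟨?_, ?_⟩⟩
    · intro h
      have hl : hζ.toInteger - 1 ∈ v.asIdeal := by
        rw [mem_iff]
        exact lam_p hζ hv
      apply hmax.ne_top
      rw [Ideal.eq_top_iff_one]
      have h2 := v.asIdeal.mul_mem_right a (Ideal.pow_mem_of_mem _ hl p hp.out.pos)
      have h3 := v.asIdeal.sub_mem h h2
      rwa [add_sub_cancel_right] at h3
    · rw [coe_d, hcoe]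
      refine not_lpw_p hζ hv fun y hy => hc (Ideal.Quotient.mk _ y) ?_
      rw [← map_pow, ← map_sub, Ideal.Quotient.eq]
      have := v.asIdeal.sub_mem ha hy
      have e : a - c - (a - (y ^ p - y)) = y ^ p - y - c := by ring
      rwa [e] at this
  · have hl : hζ.toInteger - 1 ∉ v.asIdeal := by
      rw [mem_iff]
      have e : ((hζ.toInteger - 1 : 𝓞 K) : K) = ζ - 1 := rfl
      rw [e, lam_not_p hζ hv]
      exact lt_irrefl _
    have h1 : Ideal.Quotient.mk v.asIdeal hζ.toInteger ≠ 1 := by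
      rw [← map_one (Ideal.Quotient.mk v.asIdeal), Ne, Ideal.Quotient.eq]
      exact hl
    obtain ⟨g, hg⟩ := exists_notin (fun t : 𝓞 K ⧸ v.asIdeal => t ^ p) h1 (by
      have h2 : hζ.toInteger ^ p = 1 := RingOfIntegers.ext hζ.pow_eq_one
      show (Ideal.Quotient.mk v.asIdeal hζ.toInteger) ^ p = 1 ^ p
      rw [← map_pow, h2, map_one, one_pow])
    obtain ⟨g, rfl⟩ := Ideal.Quotient.mk_surjective g
    have hl2 : Ideal.Quotient.mk v.asIdeal ((hζ.toInteger - 1) ^ p) ≠ 0 := by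
      rw [Ne, Ideal.Quotient.eq_zero_iff_mem]
      exact fun h => hl (v.isPrime.mem_of_pow_mem _ h)
    obtain ⟨b, hb⟩ := Ideal.Quotient.exists_inv hl2
    obtain ⟨b, rfl⟩ := Ideal.Quotient.mk_surjective b
    refine ⟨b * (g - 1), fun a ha => ?_⟩
    have hkey : ∀ y : 𝓞 K, 1 + (hζ.toInteger - 1) ^ p * a - y ^ p ∉ v.asIdeal := by
      intro y hy
      apply hg (Ideal.Quotient.mk _ y)
      rw [← map_one (Ideal.Quotient.mk v.asIdeal), ← map_mul, Ideal.Quotient.eq] at hb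
      rw [← map_pow, Ideal.Quotient.eq]
      have h3 := v.asIdeal.mul_mem_left ((hζ.toInteger - 1) ^ p) ha
      have h4 := v.asIdeal.mul_mem_left (g - 1) hb
      have h5 := v.asIdeal.sub_mem (v.asIdeal.add_mem h3 h4) hy
      have e : (hζ.toInteger - 1) ^ p * (a - b * (g - 1)) +
          (g - 1) * ((hζ.toInteger - 1) ^ p * b - 1) -
          (1 + (hζ.toInteger - 1) ^ p * a - y ^ p) = y ^ p - g := by ring
      rwa [e] at h5
    refine ⟨fun h => hkey 0 ?_, not_lpw_q hkey⟩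
    rwa [zero_pow hp.out.ne_zero, sub_zero]

/-- **There are numbers which are not `p`-th powers at the primes of `S` and give extensions which are
unramified there.** -/
theorem exists_nice (hζ : IsPrimitiveRoot ζ p) {S : Set (HS K)} (hS : S.Finite)
    (hne : S.Nonempty) : ∃ d : K, d ≠ 0 ∧ (∀ v ∈ S, ¬ Lpw p v d) ∧ (∀ v ∈ S, ∀ Q : Ideal (OO K), Q.IsMaximal →
      Q.comap (algebraMap (𝓞 K) (OO K)) = v.asIdeal → ∀ σ : GK K, (∀ x : OO K, σ • x - x ∈ Q) →
      ∀ x : AlgebraicClosure K, x ^ p = algebraMap K (AlgebraicClosure K) d → σ x = x) := by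
  choose c hc using fun v : HS K => exists_loc hζ v
  obtain ⟨a, ha⟩ := IsDedekindDomain.exists_forall_sub_mem_ideal (s := hS.toFinset)
    (fun v : HS K => v.asIdeal) (fun _ => 1) (fun v _ => v.prime)
    (fun v _ w _ hvw h => hvw (HeightOneSpectrum.ext h)) (fun v => c v)
  have hg : ∀ v ∈ S, GoodAt p hζ.toInteger v a := by
    intro v hv
    have := ha v (hS.mem_toFinset.2 hv)
    rw [pow_one] at this
    exact hc v a this
  obtain ⟨v₁, hv₁⟩ := hne
  refine ⟨((1 + (hζ.toInteger - 1) ^ p * a : 𝓞 K) : K), fun h0 => (hg v₁ hv₁).1 ?_,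
    fun v hv => (hg v hv).2, fun v hv Q hQ hQv σ hσ x hx =>
    unr hζ rfl (hg v hv).1 hQ hQv hσ hx⟩
  have h1 : (1 + (hζ.toInteger - 1) ^ p * a : 𝓞 K) = 0 := RingOfIntegers.ext h0
  rw [h1]
  exact v₁.asIdeal.zero_mem

end crt

end Pool.Agent.H16.FL
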