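import Pool.Agent.H16.FL.Def

/-!
# Subspaces of `ℚ_p ^ N` with reduction spanned by basis vectors
-/

set_option autoImplicit false
set_option linter.unusedSectionVars false

namespace Pool.Agent.H16.FL

open Filter Topology Matrix
open Pool.Agent.NH7.BK

variable {p : ℕ} [hp : Fact p.Prime] {N : ℕ}

theorem p_ndvd_one : ¬ (p : ℤ_[p]) ∣ 1 := by
  intro h
  have h1 : IsUnit (p : ℤ_[p]) := isUnit_of_dvd_one h
  exact PadicInt.prime_p.not_isUnit h1

/-- matrices congruent to `1` are invertible -/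
theorem exists_inv {b : Matrix (Fin N) (Fin N) ℤ_[p]} (hb : ∀ i j, (p : ℤ_[p]) ∣ (b - 1) i j) :
    ∃ q : Matrix (Fin N) (Fin N) ℤ_[p], q * b = 1 ∧ b * q = 1 ∧
      ∀ i j, (p : ℤ_[p]) ∣ (q - 1) i j := by
  have h1 : IsUnit b.det := by
    have h2 : (PadicInt.toZMod (p := p)) b.det = 1 := by
      rw [RingHom.map_det]
      have e : (PadicInt.toZMod (p := p)).mapMatrix b = 1 := by
        ext i j
        obtain ⟨t, ht⟩ := hb i j
        rw [Matrix.sub_apply, sub_eq_iff_eq_add] at ht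
        rw [RingHom.mapMatrix_apply, Matrix.map_apply, ht, map_add, map_mul, map_natCast,
          ZMod.natCast_self, zero_mul, zero_add]
        by_cases hij : i = j
        · subst hij
          rw [Matrix.one_apply_eq, Matrix.one_apply_eq, map_one]
        · rw [Matrix.one_apply_ne hij, Matrix.one_apply_ne hij, map_zero]
      rw [e, Matrix.det_one]
    by_contra h
    have h3 : b.det ∈ IsLocalRing.maximalIdeal ℤ_[p] := (IsLocalRing.mem_maximalIdeal _).2 h
    rw [← PadicInt.ker_toZMod, RingHom.mem_ker, h2] at h3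
    exact one_ne_zero h3
  refine ⟨b⁻¹, Matrix.nonsing_inv_mul _ h1, Matrix.mul_nonsing_inv _ h1, fun i j => ?_⟩
  have e : b⁻¹ - 1 = -(b⁻¹ * (b - 1)) := by
    rw [mul_sub, Matrix.nonsing_inv_mul _ h1, mul_one]
    abel
  rw [e, Matrix.neg_apply, dvd_neg, Matrix.mul_apply]
  exact Finset.dvd_sum fun l _ => Dvd.dvd.mul_left (hb l j) _

theorem mQ_mul (A B : Matrix (Fin N) (Fin N) ℤ_[p]) (x : Fin N → ℚ_[p]) :
    mQ (A * B) x = mQ A (mQ B x) := by
  unfold mQ
  rw [Matrix.mulVec_mulVec, Matrix.map_mul]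

theorem mQ_apply (A : Matrix (Fin N) (Fin N) ℤ_[p]) (x : Fin N → ℚ_[p]) (i : Fin N) :
    mQ A x i = ∑ l, ((A i l : ℤ_[p]) : ℚ_[p]) * x l := rfl

/-- the matrices adapted to a subspace -/
theorem exists_mat (W : Submodule ℚ_[p] (Fin N → ℚ_[p])) (J : Fin N → Prop)
    (hred : ∀ x : Fin N → ℤ_[p], cQ x ∈ W → ∀ i, ¬ J i → (p : ℤ_[p]) ∣ x i)
    (hbas : ∀ i, J i → ∃ x : Fin N → ℤ_[p], cQ x ∈ W ∧
      ∀ j, (p : ℤ_[p]) ∣ x j - (1 : Matrix (Fin N) (Fin N) ℤ_[p]) j i) :
    ∃ q b : Matrix (Fin N) (Fin N) ℤ_[p], q * b = 1 ∧ b * q = 1 ∧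
      (∀ i j, (p : ℤ_[p]) ∣ (q - 1) i j) ∧ (∀ i j, (p : ℤ_[p]) ∣ (b - 1) i j) ∧
      (∀ i, J i → cQ (fun j => b j i) ∈ W) ∧
      ∀ x : Fin N → ℚ_[p], x ∈ W ↔ ∀ i, ¬ J i → mQ q x i = 0 := by
  classical
  choose w hw1 hw2 using hbas
  let b : Matrix (Fin N) (Fin N) ℤ_[p] := Matrix.of fun j i =>
    if h : J i then w i h j else (1 : Matrix (Fin N) (Fin N) ℤ_[p]) j i
  have hbJ : ∀ i (h : J i), (fun j => b j i) = w i h := fun i h => by
    funext j
    change (if h : J i then w i h j else (1 : Matrix (Fin N) (Fin N) ℤ_[p]) j i) = _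
    rw [dif_pos h]
  have hb1 : ∀ i, ¬ J i → ∀ j, b j i = (1 : Matrix (Fin N) (Fin N) ℤ_[p]) j i := fun i h j => by
    change (if h : J i then w i h j else (1 : Matrix (Fin N) (Fin N) ℤ_[p]) j i) = _
    rw [dif_neg h]
  have hb : ∀ i j, (p : ℤ_[p]) ∣ (b - 1) i j := by
    intro i j
    rw [Matrix.sub_apply]
    by_cases h : J j
    · have h1 : b i j = w j h i := congrFun (hbJ j h) i
      rw [h1]
      exact hw2 j h i
    · rw [hb1 j h, sub_self]
      exact dvd_zero _
  obtain ⟨q, hq1, hq2, hq3⟩ := exists_inv hb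
  have hbW : ∀ i, J i → cQ (fun j => b j i) ∈ W := fun i h => by
    rw [hbJ i h]
    exact hw1 i h
  have hdec : ∀ x : Fin N → ℚ_[p], x = ∑ i, mQ q x i • cQ (fun j => b j i) := by
    intro x
    have h1 : x = mQ b (mQ q x) := by rw [← mQ_mul, hq2, mQ_one]
    conv_lhs => rw [h1]
    funext j
    rw [mQ_apply, Finset.sum_apply]
    refine Finset.sum_congr rfl fun i _ => ?_
    rw [Pi.smul_apply, smul_eq_mul, mul_comm]
    rfl
  refine ⟨q, b, hq1, hq2, hq3, hb, hbW, fun x => ⟨fun hx => ?_, fun h => ?_⟩⟩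
  · by_contra hne
    push Not at hne
    obtain ⟨i₀, hi₀, hy₀⟩ := hne
    obtain ⟨i, hi, hmax⟩ := Finset.exists_max_image (Finset.univ.filter fun i : Fin N => ¬ J i)
      (fun i => ‖mQ q x i‖) ⟨i₀, Finset.mem_filter.2 ⟨Finset.mem_univ _, hi₀⟩⟩
    have hiJ : ¬ J i := (Finset.mem_filter.1 hi).2
    have hyi : mQ q x i ≠ 0 := by
      intro h0
      have h1 := hmax i₀ (Finset.mem_filter.2 ⟨Finset.mem_univ _, hi₀⟩)
      rw [h0, norm_zero] at h1
      exact hy₀ (norm_le_zero_iff.1 h1)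
    have hx' : x - ∑ l ∈ Finset.univ.filter (fun l : Fin N => J l),
        mQ q x l • cQ (fun j => b j l) ∈ W := by
      refine W.sub_mem hx (W.sum_mem fun l hl => W.smul_mem _ (hbW l (Finset.mem_filter.1 hl).2))
    have hx'' : x - ∑ l ∈ Finset.univ.filter (fun l : Fin N => J l),
        mQ q x l • cQ (fun j => b j l) = ∑ l ∈ Finset.univ.filter (fun l : Fin N => ¬ J l),
        mQ q x l • cQ (fun j => b j l) := by
      have h1 := Finset.sum_filter_add_sum_filter_not Finset.univ (fun l : Fin N => J l)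
        (fun l => mQ q x l • cQ (fun j => b j l))
      rw [sub_eq_iff_eq_add, add_comm]
      exact (hdec x).trans h1.symm
    have hx3 : ∀ j, (∑ l ∈ Finset.univ.filter (fun l : Fin N => ¬ J l),
        mQ q x l • cQ (fun j => b j l)) j = if J j then 0 else mQ q x j := by
      intro j
      rw [Finset.sum_apply]
      have h1 : ∀ l ∈ Finset.univ.filter (fun l : Fin N => ¬ J l),
          (mQ q x l • cQ (fun j => b j l)) j = if j = l then mQ q x l else 0 := by
        intro l hl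
        rw [Pi.smul_apply, smul_eq_mul]
        change mQ q x l * ((b j l : ℤ_[p]) : ℚ_[p]) = _
        rw [hb1 l (Finset.mem_filter.1 hl).2, Matrix.one_apply]
        split_ifs
        · simp
        · simp
      rw [Finset.sum_congr rfl h1, Finset.sum_ite_eq]
      by_cases hj : J j
      · rw [if_pos hj, if_neg]
        intro h
        exact absurd hj (Finset.mem_filter.1 h).2
      · rw [if_neg hj, if_pos]
        exact Finset.mem_filter.2 ⟨Finset.mem_univ _, hj⟩
    have hn : ∀ j, ‖(if J j then 0 else mQ q x j) / mQ q x i‖ ≤ 1 := by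
      intro j
      by_cases hj : J j
      · rw [if_pos hj, zero_div, norm_zero]
        exact zero_le_one
      · rw [if_neg hj, norm_div, div_le_one (norm_pos_iff.2 hyi)]
        exact hmax j (Finset.mem_filter.2 ⟨Finset.mem_univ _, hj⟩)
    have h5 := hred (fun j => ⟨(if J j then 0 else mQ q x j) / mQ q x i, hn j⟩) (by
      rw [hx''] at hx'
      have h6 := W.smul_mem (mQ q x i)⁻¹ hx'
      convert h6 using 1
      funext j
      rw [Pi.smul_apply, hx3, smul_eq_mul]
      change (if J j then 0 else mQ q x j) / mQ q x i = _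
      rw [div_eq_inv_mul]) i hiJ
    have h6 : (1 : ℤ_[p]) = ⟨(if J i then 0 else mQ q x i) / mQ q x i, hn i⟩ := by
      apply Subtype.ext
      change ((1 : ℤ_[p]) : ℚ_[p]) = (if J i then 0 else mQ q x i) / mQ q x i
      rw [if_neg hiJ, div_self hyi]
      rfl
    refine p_ndvd_one (p := p) ?_
    rw [h6]
    exact h5
  · rw [hdec x]
    refine W.sum_mem fun i _ => ?_
    by_cases hi : J i
    · exact W.smul_mem _ (hbW i hi)
    · rw [h i hi, zero_smul]
      exact W.zero_mem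

end Pool.Agent.H16.FL
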