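import Pool.Agent.H16.FL.Duc

/-!
# The fields of the ensemble, with the complements of the balanced sets
-/

set_option autoImplicit false
set_option linter.unusedSectionVars false

namespace Pool.Agent.H16.FL

open NumberField IsDedekindDomain Filter Topology
open Pool.Agent.W401.Cheb Pool.Agent.NH7.Sch
open Pool.Agent.NH7.GU (HS Qv Qv_max Qv_comap Hm Unr Chr hm_conj)
open Pool.Agent.NH7.BK
open Pool.Agent.Q7.LK
open Pool.Agent.Q283.LQ (Sm Box Nest nS)

variable {K : Type} [Field K] [NumberField K] {p : ℕ} [hp : Fact p.Prime] {ζ : K} {N : ℕ}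

/-- the elements of `B` and the complements of the balanced elements of `B` -/
def Ext (p : ℕ) (B : Set (Set (HS K))) : Set (Set (HS K)) :=
  {b | b ∈ B ∨ ∃ b' ∈ B, ∑ᶠ v, cB p b' v = InfinitePlace.nrComplexPlaces K ∧ b = b'ᶜ}

/-- the theorem for the fields of the ensemble -/
theorem good_of_fits' (hp2 : p ≠ 2) (hζ : IsPrimitiveRoot ζ p) {S : Set (HS K)}
    (hpS : ∀ v : HS K, Dp p v → v ∈ S) {y : ℕ} (hSy : ∀ v ∈ S, Sm y v) {D0 : K} (hD0 : D0 ≠ 0)
    (hns : ∀ v ∈ S, ¬ Lpw p v D0) (B : Set (Set (HS K)))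
    (hu0 : ∀ b ∈ B, ∀ v ∈ S, (v ∈ b ∨ ∑ᶠ v, cB p b v = InfinitePlace.nrComplexPlaces K) →
      ∀ g ∈ Inr (Qv v), ∀ x : AlgebraicClosure K, x ^ p = algebraMap K (AlgebraicClosure K) D0 →
        g x = x)
    {k : ℕ} {z : Fin k → ZMod p} {q : Fin k → HS K} (D : Kˣ) (hD : Fits p y D0 z q (D : K))
    (hbad : ∀ b ∈ B, ¬ Bad p (AB p b) (D : K))
    (ρ : GK K →* Matrix (Fin N) (Fin N) ℤ_[p]) (hρ : RepK S ρ) (J : HS K → Fin N → Prop)
    (W : Ideal (OO K) → Submodule ℚ_[p] (Fin N → ℚ_[p])) (hW : FilK S J ρ W)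
    (hJ : ∀ j : Fin N, ∃ b ∈ Ext p B, ∀ v ∈ S, J v j → v ∈ b)
    (c : kerX (kp_mul_right hζ D) → Fin N → ℚ_[p])
    (hc : SelK S ρ W (kerX (kp_mul_right hζ D)) c) :
    ∃ c' : (⊤ : Subgroup (GK K)) → Fin N → ℚ_[p], SelK S ρ W ⊤ c' ∧ ∃ x : Fin N → ℚ_[p],
      ∀ (σ : kerX (kp_mul_right hζ D)) (τ : (⊤ : Subgroup (GK K))), (τ : GK K) = σ →
        c σ = c' τ + (mQ (ρ σ) x - x) := by
  refine (good_of_fits hp2 hζ hpS hSy hD0 hns (Ext p B) (fun b hb v hv hvb => ?_) D hD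
    (fun b hb => ?_) ρ hρ J W hW hJ c hc).2
  · rcases hb with hb | ⟨b', hb', hbal, -⟩
    · exact hu0 b hb v hv (Or.inl hvb)
    · exact hu0 b' hb' v hv (Or.inr hbal)
  · rcases hb with hb | ⟨b', hb', hbal, rfl⟩
    · exact hbad b hb
    · intro h
      apply hbad b' hb'
      refine dual hp2 hζ D (fun v hv hl => ?_) (fun v hv g hg => ?_) hbal.ge h
      · apply hns v (hpS v hv)
        have h1 := hD.loc v (hSy v (hpS v hv))
        have h2 : D0 = (D : K) * ((D : K) / D0)⁻¹ := by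
          rw [inv_div, mul_div_cancel₀ _ D.ne_zero]
        rw [h2]
        exact Pool.Agent.Q14.LK.lpw_mul t_BAS hl (Pool.Agent.Q14.LK.lpw_inv t_BAS h1)
      · have h1 := hD.loc v (hSy v (hpS v hv))
        have h2 : (D : K) / D0 = ((D * (Units.mk0 D0 hD0)⁻¹ : Kˣ) : K) := by
          rw [Units.val_mul, Units.val_inv_eq_inv_val, Units.val_mk0, div_eq_mul_inv]
        rw [h2] at h1
        have h3 := kp_of_lpw hζ v _ h1 g (Inr_le _ hg)
        rw [kp_mul_left, kp_inv_left] at h3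
        have h4 := (kp_zero_iff hζ (rt_pow (Units.mk0 D0 hD0))).2
          (hu0 b' hb' v (hpS v hv) (Or.inr hbal) g hg _ (rt_pow (Units.mk0 D0 hD0)))
        linear_combination h3 + h4

end Pool.Agent.H16.FL
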