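import Pool.Agent.H16.FL.Lnk
import Pool.Graph.R_pool_sql_team_seeded_3997aac3.Q153.LK.ATL

/-!
# The local conditions
-/

set_option autoImplicit false
set_option linter.unusedSectionVars false

namespace Pool.Agent.H16.FL

open NumberField IsDedekindDomain Filter Topology
open Pool.Agent.W401.Cheb Pool.Agent.NH7.Sch
open Pool.Agent.NH7.GU (HS Qv Qv_max Qv_comap)
open Pool.Agent.Q7.LK
open Pool.Agent.Q14.LK (lpw_ne lpw_vl lpw_mul lpw_pow lpw_inv vl_mul lpw_one vl_pow)

variable {K : Type} [Field K] [NumberField K]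

/-- the local classes above `p`: at the primes of `b` the classes of order divisible by `p`, at the other
primes the powers of `D` -/
def AB (p : ℕ) (b : Set (HS K)) (v : HS K) (D a : K) : Prop :=
  a ≠ 0 ∧ ((v ∈ b ∧ vl p v D = 0) → vl p v a = 0) ∧
    (¬ (v ∈ b ∧ vl p v D = 0) → ∃ j : ℕ, Lpw p v (a * D ^ j))

open Classical in
/-- `[K_v : ℚ_p]` if `v` is in `b` and above `p`, otherwise `0` -/
noncomputable def cB (p : ℕ) (b : Set (HS K)) (v : HS K) : ℕ := if v ∈ b then dv p v else 0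

variable {p : ℕ} [hp : Fact p.Prime]

theorem lpow {v : HS K} {a : K} (h : Lpw p v a) (n : ℕ) : Lpw p v (a ^ n) :=
  Pool.Agent.Q153.LK.lpw_pow t_BAS h n

theorem loc_AB (hp2 : p ≠ 2) {ζ : K} (hζ : IsPrimitiveRoot ζ p) (b : Set (HS K)) :
    Loc p (AB p b) (cB p b) := by
  classical
  have hB := t_BAS
  refine ⟨fun v D a _ _ h => h.1, ?_, ?_, ?_, ?_, ?_, ?_⟩
  · intro v D a x _ _ h hx
    refine ⟨mul_ne_zero h.1 (lpw_ne hB hx), fun hv => ?_, fun hv => ?_⟩
    · rw [vl_mul hB v h.1 (lpw_ne hB hx), h.2.1 hv, lpw_vl hB hx, add_zero]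
    · obtain ⟨j, hj⟩ := h.2.2 hv
      refine ⟨j, ?_⟩
      rw [mul_right_comm]
      exact lpw_mul hB hj hx
  · intro v D n a _ hD hn h
    have h1 : vl p v (D * n) = vl p v D := by
      rw [vl_mul hB v hD (lpw_ne hB hn), lpw_vl hB hn, add_zero]
    refine ⟨h.1, fun hv => h.2.1 (by rwa [h1] at hv), fun hv => ?_⟩
    rw [h1] at hv
    obtain ⟨j, hj⟩ := h.2.2 hv
    refine ⟨j, ?_⟩
    rw [mul_pow, ← mul_assoc]
    exact lpw_mul hB hj (lpow hn j)
  · intro v D a _ hD h
    refine ⟨mul_ne_zero h.1 hD, fun hv => ?_, fun hv => ?_⟩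
    · rw [vl_mul hB v h.1 hD, h.2.1 hv, hv.2, add_zero]
    · obtain ⟨j, hj⟩ := h.2.2 hv
      refine ⟨j + (p - 1), ?_⟩
      have e : a * D * D ^ (j + (p - 1)) = a * D ^ j * D ^ p := by
        have : p = p - 1 + 1 := (Nat.succ_pred_eq_of_pos hp.out.pos).symm
        conv_rhs => rw [this]
        ring
      rw [e]
      exact lpw_mul hB hj (lpw_pow hB v hD)
  · intro v D a _ hD h n
    refine ⟨pow_ne_zero n h.1, fun hv => ?_, fun hv => ?_⟩
    · rw [vl_pow hB v h.1, h.2.1 hv, mul_zero]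
    · obtain ⟨j, hj⟩ := h.2.2 hv
      refine ⟨j * n, ?_⟩
      rw [pow_mul, ← mul_pow]
      exact lpow hj n
  · intro v D _ hD B hB1 hB2
    by_cases hv : v ∈ b ∧ vl p v D = 0
    · obtain ⟨π, hπ⟩ := v.valuation_exists_uniformizer K
      have hπ0 : π ≠ 0 := by
        rintro rfl
        rw [map_zero] at hπ
        exact WithZero.exp_ne_zero hπ.symm
      have hvl : vl p v π = 1 := by
        unfold vl
        rw [hπ, WithZero.log_exp]
        push_cast
        ring
      have h1 := Pool.Agent.Q14.LK.AUNa.count hB t_LOCV hp2 ζ hζ v (vl p v)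
        (fun a x ha hx => vl_mul hB v ha hx) (fun a ha => lpw_vl hB ha) π hπ0
        (by rw [hvl]; exact one_ne_zero) B (fun x hx => (hB1 x hx).1)
        (fun x hx => (hB1 x hx).2.1 hv) hB2
      rw [cB, if_pos hv.1]
      exact h1
    · refine (Pool.Agent.Q153.LK.num1 hB v hD B (fun x hx => (hB1 x hx).2.2 hv) hB2).trans ?_
      exact Nat.le_self_pow (Nat.succ_ne_zero _) p
  · intro v hv
    rw [cB]
    split_ifs
    · rw [dv, if_neg hv]
    · rfl

end Pool.Agent.H16.FL
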