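import Pool.Agent.H16.FL.Def
import Pool.Graph.R_pool_sql_team_seeded_3997aac3.Q7.LK.All3
import Pool.Graph.R_pool_sql_team_seeded_3997aac3.Q7.LK.Uni
import Pool.Graph.R_pool_sql_team_seeded_3997aac3.Q124.SP.PLC

/-!
# Local `p`-th powers and Kummer characters
-/

set_option autoImplicit false
set_option linter.unusedSectionVars false

namespace Pool.Agent.H16.FL

open NumberField IsDedekindDomain Filter Topology
open Pool.Agent.W401.Cheb Pool.Agent.NH7.Sch
open Pool.Agent.NH7.GU (HS Qv Qv_max Qv_comap)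
open Pool.Agent.Q7.LK (Lpw vl)
open Pool.Agent.Q38.LS (exists_move qi mem_qi qi_prime l_mem exists_lift val_iff dense_lf)
open Pool.Agent.TH841.NF (lf mem_lf)

variable {K : Type} [Field K] [NumberField K]

theorem exists_below (v : HS K) : ∃ l : ℕ, l.Prime ∧ (l : 𝓞 K) ∈ v.asIdeal :=
  Pool.Agent.Q262.LK.exists_below v

/-- the embedding belonging to `Qv v` -/
theorem exists_emb (v : HS K) {l : ℕ} [Fact l.Prime] (hl : (l : 𝓞 K) ∈ v.asIdeal) :
    ∃ j : AlgebraicClosure K →+* PadicAlgCl l, ∀ z : OO K, z ∈ Qv v ↔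
      ‖j (z : AlgebraicClosure K)‖ < 1 := by
  have : Algebra.IsAlgebraic ℚ (AlgebraicClosure K) := Algebra.IsAlgebraic.trans ℚ K _
  have hlQ : (l : OO K) ∈ Qv v := by
    have h1 : (l : 𝓞 K) ∈ (Qv v).comap (algebraMap (𝓞 K) (OO K)) := by
      rw [Qv_comap]
      exact hl
    rw [Ideal.mem_comap, map_natCast] at h1
    exact h1
  let j0 : AlgebraicClosure K →ₐ[ℚ] PadicAlgCl l := IsAlgClosed.lift
  obtain ⟨g, hg⟩ := exists_move (qi (j0 : AlgebraicClosure K →+* PadicAlgCl l)) (Qv v)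
    (qi_prime _) (Qv_max v).isPrime (l_mem _) hlQ
  refine ⟨(j0 : AlgebraicClosure K →+* PadicAlgCl l).comp g, fun z => ?_⟩
  have hz : IsIntegral ℤ (g (z : AlgebraicClosure K)) :=
    map_isIntegral_int g (RingOfIntegers.isIntegral_coe _)
  obtain ⟨z', hz'⟩ : ∃ z' : OO K, (z' : AlgebraicClosure K) = g (z : AlgebraicClosure K) :=
    ⟨⟨_, hz⟩, rfl⟩
  rw [hg z z' hz', mem_qi]
  have h3 : algebraMap (OO K) (AlgebraicClosure K) z' = g (z : AlgebraicClosure K) := hz'
  rw [h3]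
  rfl

/-- elements fixed by the decomposition group lie in the local field -/
theorem mem_lf_of_dec (v : HS K) {l : ℕ} [Fact l.Prime]
    (j : AlgebraicClosure K →+* PadicAlgCl l) (hj : ∀ z : OO K, z ∈ Qv v ↔
      ‖j (z : AlgebraicClosure K)‖ < 1) {w : AlgebraicClosure K}
    (h : ∀ σ ∈ Dec (Qv v), σ w = w) :
    j w ∈ lf (j.comp (algebraMap K (AlgebraicClosure K))) := by
  have : Algebra.IsAlgebraic ℚ (AlgebraicClosure K) := Algebra.IsAlgebraic.trans ℚ K _
  have hcl : IsAlgClosure ℚ (AlgebraicClosure K) := ⟨inferInstance, inferInstance⟩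
  have hgal : IsGalois ℚ (AlgebraicClosure K) := IsAlgClosure.isGalois ℚ _
  rw [← InfiniteGalois.fixedField_fixingSubgroup
    (lf (j.comp (algebraMap K (AlgebraicClosure K)))), IntermediateField.mem_fixedField_iff]
  intro σ hσ
  rw [IntermediateField.mem_fixingSubgroup_iff] at hσ
  obtain ⟨σ', hσ'⟩ := exists_lift j σ
  have h1 : ∀ x : K, σ' (algebraMap K (AlgebraicClosure K) x) =
      algebraMap K (AlgebraicClosure K) x := by
    intro x
    apply j.injective
    rw [← hσ']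
    exact hσ _ (mem_lf (j.comp (algebraMap K (AlgebraicClosure K))) x)
  let τ : GK K := AlgEquiv.ofRingEquiv (f := (σ' : AlgebraicClosure K ≃+* AlgebraicClosure K)) h1
  have hτ : ∀ x, τ x = σ' x := fun _ => rfl
  have hD : τ ∈ Dec (Qv v) := by
    intro x
    rw [hj, hj, coe_smul, hτ, ← hσ']
    have h2 : ‖σ (j (x : AlgebraicClosure K))‖ = ‖j (x : AlgebraicClosure K)‖ := by
      exact Pool.Agent.Q38.LS.norm_aut σ _
    rw [h2]
  rw [hσ', ← hτ, h τ hD]


/-- approximation of an element of the local field -/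
theorem lpw_of_mem (v : HS K) {l : ℕ} [Fact l.Prime] {p : ℕ} [hp : Fact p.Prime]
    (j : AlgebraicClosure K →+* PadicAlgCl l)
    (hval : ∀ x : K, v.valuation K x < 1 ↔ ‖j (algebraMap K (AlgebraicClosure K) x)‖ < 1)
    {a : K} {y : AlgebraicClosure K} (ha : a ≠ 0)
    (hy : y ^ p = algebraMap K (AlgebraicClosure K) a)
    (hmem : j y ∈ lf (j.comp (algebraMap K (AlgebraicClosure K)))) : Lpw p v a := by
  intro n
  obtain ⟨q, hq⟩ : ∃ q, p = q + 1 := ⟨p - 1, by have := hp.out.pos; omega⟩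
  have hy0 : y ≠ 0 := by
    rintro rfl
    apply ha
    rw [zero_pow hp.out.ne_zero] at hy
    exact ((map_eq_zero _).1 hy.symm)
  let jF : K →+* PadicAlgCl l := j.comp (algebraMap K (AlgebraicClosure K))
  have hval' : ∀ x : K, v.valuation K x < 1 ↔ ‖jF x‖ < 1 := hval
  obtain ⟨π, hπ⟩ := v.valuation_exists_uniformizer K
  have hπ0 : π ≠ 0 := by
    rintro rfl
    rw [map_zero] at hπ
    exact WithZero.exp_ne_zero hπ.symm
  have hnπ : 0 < ‖jF π‖ := norm_pos_iff.2 ((map_ne_zero jF).2 hπ0)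
  have hnπ1 : ‖jF π‖ < 1 := by
    rw [← hval', hπ, ← WithZero.exp_zero, WithZero.exp_lt_exp]
    norm_num
  have hny : 0 < ‖j y‖ := norm_pos_iff.2 ((map_ne_zero j).2 hy0)
  obtain ⟨u, hu⟩ := dense_lf jF hmem (ε := ‖jF π‖ ^ n * ‖j y‖) (by positivity)
  have hlt : ‖j y - jF u‖ < ‖j y‖ :=
    hu.trans_le (mul_le_of_le_one_left hny.le (pow_le_one₀ hnπ.le hnπ1.le))
  have hnu : ‖jF u‖ = ‖j y‖ := by
    have h1 := IsUltrametricDist.norm_eq_of_add_norm_lt_max (x := jF u) (y := -(j y)) (by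
      rw [← sub_eq_add_neg, norm_sub_rev]
      refine hlt.trans_le ?_
      rw [norm_neg]
      exact le_max_right _ _)
    rw [norm_neg] at h1
    exact h1
  have hu0 : u ≠ 0 := by
    rintro rfl
    rw [map_zero, norm_zero] at hnu
    linarith
  have hju0 : jF u ≠ 0 := (map_ne_zero jF).2 hu0
  refine ⟨u⁻¹, ?_⟩
  have hpn : v.valuation K (π ^ n) = WithZero.exp (-(n : ℤ)) := by
    rw [map_pow, hπ, ← WithZero.exp_nsmul]
    congr 1
    simp
  rw [← hpn]
  have hpn0 : π ^ n ≠ 0 := pow_ne_zero _ hπ0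
  have hkey : v.valuation K ((a * u⁻¹ ^ p - 1) / π ^ n) < 1 := by
    rw [hval']
    have hja : jF a = j y ^ p := by
      rw [← map_pow, hy]
      rfl
    have h1 : jF ((a * u⁻¹ ^ p - 1) / π ^ n) =
        (j y ^ p - jF u ^ p) / (jF u ^ p * jF π ^ n) := by
      rw [map_div₀, map_sub, map_mul, map_pow, map_pow, map_inv₀, map_one, hja, inv_pow,
        ← div_div]
      congr 1
      rw [sub_div, div_self (pow_ne_zero _ hju0)]
      rfl
    rw [h1, norm_div, norm_mul, norm_pow, norm_pow, hnu, hq]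
    rw [div_lt_one (by positivity)]
    calc ‖j y ^ (q + 1) - jF u ^ (q + 1)‖ ≤ ‖j y - jF u‖ * ‖j y‖ ^ q :=
          Pool.Agent.Q124.SP.pow_sub_le _ _ hnu q
      _ < (‖jF π‖ ^ n * ‖j y‖) * ‖j y‖ ^ q := mul_lt_mul_of_pos_right hu (by positivity)
      _ = ‖j y‖ ^ (q + 1) * ‖jF π‖ ^ n := by ring
  rw [map_div₀] at hkey
  have h3 : v.valuation K (π ^ n) ≠ 0 := (Valuation.ne_zero_iff _).2 hpn0
  rwa [div_lt_one₀ (zero_lt_iff.2 h3)] at hkey

variable {p : ℕ} [hp : Fact p.Prime] {ζ : K} (hζ : IsPrimitiveRoot ζ p)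

/-- a Kummer character which is trivial on the decomposition group belongs to a local `p`-th power -/
theorem lpw_of_kp (v : HS K) (κ : Kˣ) (h : ∀ g ∈ Dec (Qv v), kp hζ κ g = 0) :
    Lpw p v (κ : K) := by
  obtain ⟨l, hl, hlv⟩ := exists_below v
  have : Fact l.Prime := ⟨hl⟩
  obtain ⟨j, hj⟩ := exists_emb v hlv
  have hz : ∀ z : 𝓞 K, z ∈ v.asIdeal ↔
      ‖(j.comp (algebraMap K (AlgebraicClosure K))) (z : K)‖ < 1 := by
    intro z
    have h1 := hj (algebraMap (𝓞 K) (OO K) z)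
    rw [← Qv_comap v, Ideal.mem_comap, h1]
    rfl
  refine lpw_of_mem v j (fun x => val_iff (j.comp (algebraMap K (AlgebraicClosure K))) v hz x)
    κ.ne_zero (rt_pow κ) (mem_lf_of_dec v j hj fun σ hσ => ?_)
  exact (kp_zero_iff hζ (rt_pow κ)).1 (h σ hσ)

theorem vl_eq (v : HS K) (κ : Kˣ) : vl p v (κ : K) = -((od v κ : ℤ) : ZMod p) := by
  unfold vl
  rw [val_od, WithZero.log_exp]

theorem vl_zero_iff (v : HS K) (κ : Kˣ) : vl p v (κ : K) = 0 ↔ (p : ℤ) ∣ od v κ := by
  rw [vl_eq, neg_eq_zero, ZMod.intCast_zmod_eq_zero_iff_dvd]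


/-- elements near `1` are local `p`-th powers -/
theorem near_one (v : HS K) : ∃ m : ℕ, ∀ (x : 𝓞 K) (hx : x ≠ 0), x - 1 ∈ v.asIdeal ^ m →
    ∀ g ∈ Dec (Qv v), kp hζ (ui x hx) g = 0 := by
  by_cases hv : (p : 𝓞 K) ∈ v.asIdeal
  · exact Pool.Agent.NH7.BK.s_h0v K p ζ hζ v hv
  · refine ⟨1, fun x hx h => ?_⟩
    rw [pow_one] at h
    exact Pool.Agent.NH7.GU.s_h0t K p ζ hζ v hv x hx h

/-- the Kummer character of a local `p`-th power is trivial on the decomposition group -/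
theorem kp_of_lpw (v : HS K) (κ : Kˣ) (h : Lpw p v (κ : K)) :
    ∀ g ∈ Dec (Qv v), kp hζ κ g = 0 := by
  obtain ⟨m, hm⟩ := near_one hζ v
  obtain ⟨x, hx⟩ := h m
  have hx0 : x ≠ 0 := by
    rintro rfl
    rw [zero_pow hp.out.ne_zero, mul_zero, zero_sub, Valuation.map_neg, map_one,
      ← WithZero.exp_zero, WithZero.exp_lt_exp] at hx
    omega
  set κ' : Kˣ := κ * (Units.mk0 x hx0) ^ p with hκ'
  have hκx : (κ' : K) = κ * x ^ p := by
    rw [hκ', Units.val_mul, Units.val_pow_eq_pow_val, Units.val_mk0]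
  rw [← hκx] at hx
  have hval : v.valuation K (κ' : K) = 1 := by
    have h1 : v.valuation K ((κ' : K) - 1) < 1 := by
      refine hx.trans_le ?_
      rw [← WithZero.exp_zero, WithZero.exp_le_exp]
      omega
    have h2 := Valuation.map_one_add_of_lt (v := v.valuation K) h1
    rwa [add_sub_cancel] at h2
  have hod : od v κ' = 0 := by
    rw [val_od, ← WithZero.exp_zero] at hval
    exact WithZero.exp_injective hval
  obtain ⟨a, b, ha, hb, hav, hbv, hab⟩ := Pool.Agent.NH7.GU.LocP.den {v}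
    (Finset.singleton_nonempty v) κ' (fun w hw => by
      rw [Finset.mem_singleton] at hw
      rw [hw]
      exact hod)
  have hbv' := hbv v (Finset.mem_singleton_self v)
  obtain ⟨b', hb'⟩ : ∃ b' : 𝓞 K, b * b' - 1 ∈ v.asIdeal ^ (m + 1) := by
    have h1 : IsCoprime (Ideal.span {b}) (v.asIdeal ^ (m + 1)) := by
      refine IsCoprime.pow_right ?_
      obtain ⟨y, i, hi, hyi⟩ := v.isMaximal.exists_inv hbv'
      exact Ideal.isCoprime_iff_exists.2 ⟨y * b, Ideal.mul_mem_left _ _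
        (Ideal.mem_span_singleton_self b), i, hi, hyi⟩
    obtain ⟨s, hs, t, ht, hst⟩ := Ideal.isCoprime_iff_exists.1 h1
    obtain ⟨b', rfl⟩ := Ideal.mem_span_singleton'.1 hs
    refine ⟨b', ?_⟩
    have h2 : b * b' - 1 = -t := by
      rw [← hst]
      ring
    rw [h2]
    exact Ideal.neg_mem_iff _ |>.2 ht
  have hle : v.asIdeal ^ (m + 1) ≤ v.asIdeal ^ m := Ideal.pow_le_pow_right (Nat.le_succ m)
  have h1v : (1 : 𝓞 K) ∉ v.asIdeal := fun h => v.isPrime.ne_top ((Ideal.eq_top_iff_one _).2 h)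
  have hbb : b * b' ≠ 0 := by
    intro h0
    rw [h0, zero_sub] at hb'
    exact h1v (by simpa using Ideal.pow_le_self (Nat.succ_ne_zero m) hb')
  have hb0 : b' ≠ 0 := fun h0 => hbb (by rw [h0, mul_zero])
  have hK : (κ' : K) * algebraMap (𝓞 K) K b = algebraMap (𝓞 K) K a := by
    have h2 := congrArg (fun z : Kˣ => (z : K)) hab
    simpa only [Units.val_mul, coe_ui] using h2
  have hab' : a * b' - 1 ∈ v.asIdeal ^ m := by
    rw [← v.intValuation_le_pow_iff_mem, ← v.valuation_of_algebraMap (K := K)]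
    have e : algebraMap (𝓞 K) K (a * b' - 1) = ((κ' : K) - 1) * algebraMap (𝓞 K) K (b * b') +
        algebraMap (𝓞 K) K (b * b' - 1) := by
      rw [map_sub, map_sub, map_mul, map_mul, map_one, ← hK]
      ring
    change v.valuation K (algebraMap (𝓞 K) K (a * b' - 1)) ≤ _
    rw [e]
    refine Valuation.map_add_le _ ?_ ?_
    · rw [map_mul]
      calc _ ≤ WithZero.exp (-(m : ℤ)) * 1 := mul_le_mul' hx.le (v.valuation_le_one _)
        _ = _ := mul_one _
    · rw [v.valuation_of_algebraMap (K := K), v.intValuation_le_pow_iff_mem]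
      exact hle hb'
  intro g hg
  have e1 := hm (b * b') hbb (hle hb') g hg
  have e2 := hm (a * b') (mul_ne_zero ha hb0) hab' g hg
  have e3 : κ' * ui (b * b') hbb = ui (a * b') (mul_ne_zero ha hb0) := by
    rw [← ui_mul b b' hb hb0, ← ui_mul a b' ha hb0, ← hab, ← mul_assoc]
  rw [← e3, kp_mul_left, e1, add_zero, hκ', kp_mul_left, kp_ppow, add_zero] at e2
  exact e2

end Pool.Agent.H16.FL
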