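import Pool.Agent.H16.FL.Lc
import Pool.Agent.H16.FL.Cor
import Pool.Agent.H16.FL.Fil

/-!
# From the arithmetic condition to the residual condition
-/

set_option autoImplicit false
set_option linter.unusedSectionVars false

namespace Pool.Agent.H16.FL

open NumberField IsDedekindDomain Filter Topology
open Pool.Agent.W401.Cheb Pool.Agent.NH7.Sch
open Pool.Agent.NH7.GU (HS Qv Qv_max Qv_comap Hm Unr Chr)
open Pool.Agent.NH7.BK
open Pool.Agent.Q7.LK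
open Pool.Agent.Q14.LK (lpw_ne lpw_vl vl_mul vl_pow)

variable {K : Type} [Field K] [NumberField K] {p : ℕ} [hp : Fact p.Prime] {ζ : K}

/-- the inertia and decomposition groups outside `S` -/
noncomputable def pl0 (S : Set (HS K)) : Pl (GK K) where
  ι := Out S
  I := fun Q => Inr Q.1
  DI := fun Q => Dec Q.1
  I_le := fun Q => Inr_le Q.1
  I_nor := fun Q g hg x hx => Inr_norm hg hx
  I_conj := fun Q g => ⟨⟨mv g Q.1, mv_max g Q.2.1, by
    obtain ⟨v, hv, hvS⟩ := Q.2.2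
    exact ⟨v, by rw [comap_mv]; exact hv, hvS⟩⟩, fun x => Inr_mv g x⟩
  κ := Empty
  D := fun k => k.elim
  D_conj := fun k => k.elim

/-- the decomposition groups above the primes in `S` and not in `b` -/
def Eb (S b : Set (HS K)) : Set (Subgroup (GK K)) :=
  {H | ∃ Q : Ideal (OO K), Q.IsMaximal ∧ ∃ v : HS K,
    Q.comap (algebraMap (𝓞 K) (OO K)) = v.asIdeal ∧ v ∈ S ∧ v ∉ b ∧ H = Dec Q}

theorem exists_lpw (hζ : IsPrimitiveRoot ζ p) (v : HS K) (κ D : Kˣ) (a : ZMod p)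
    (h : ∀ g ∈ Dec (Qv v), kp hζ κ g = a * kp hζ D g) :
    ∃ j : ℕ, Lpw p v ((κ : K) * (D : K) ^ j) := by
  refine ⟨(-a).val, ?_⟩
  have h1 := lpw_of_kp hζ v (κ * D ^ (-a).val) (fun g hg => by
    rw [kp_mul_left, kp_pow, ZMod.natCast_zmod_val, h g hg]
    ring)
  rwa [Units.val_mul, Units.val_pow_eq_pow_val] at h1

/-- the residual condition -/
theorem mn_of_not_bad (hζ : IsPrimitiveRoot ζ p) {S b : Set (HS K)}
    (hpS : ∀ v : HS K, Dp p v → v ∈ S) (D : Kˣ) (c : Chr p (GK K))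
    (hc : ∀ g, c.χ g = kp hζ D g) (hs : ∀ v ∈ S, ∃ g ∈ Dec (Qv v), kp hζ D g ≠ 0)
    (hu : ∀ v ∈ S, v ∈ b → ∀ g ∈ Inr (Qv v), kp hζ D g = 0)
    (hbad : ¬ Bad p (AB p b) (D : K)) : Mn (pl0 S) c (Eb S b) := by
  have hB := t_BAS
  intro x hx1 hx2 hI hDI hE hy
  obtain ⟨y, hy1, hy2⟩ := hy
  obtain ⟨κ, hκ⟩ := kp_surj hζ hx1 hx2
  -- the orders at the primes
  have hout : ∀ v, v ∉ S → ∃ i : (pl0 S).ι,
      (pl0 S).I i = Inr (Qv v) ∧ (pl0 S).DI i = Dec (Qv v) :=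
    fun v hv => ⟨⟨Qv v, Qv_max v, v, Qv_comap v, hv⟩, rfl, rfl⟩
  have hS : ∀ v, v ∈ S → v ∉ b → ∃ j : ℕ, Lpw p v ((κ : K) * (D : K) ^ j) := by
    intro v hv hvb
    obtain ⟨a, ha⟩ := hE (Dec (Qv v)) ⟨Qv v, Qv_max v, v, Qv_comap v, hv, hvb, rfl⟩
    exact exists_lpw hζ v κ D a fun g hg => by rw [hκ, ha g hg, hc]
  have hSb : ∀ v, v ∈ S → v ∈ b → vl p v (κ : K) = 0 ∧ vl p v (D : K) = 0 := by
    intro v hv hvb
    rw [vl_zero_iff, vl_zero_iff]
    refine ⟨?_, od_dvd_of_inr hζ (Qv_max v) (Qv_comap v) (hu v hv hvb)⟩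
    refine s_cup K p ζ hζ v (kp hζ D) ⟨kp_cont hζ D, kp_mul_right hζ D⟩ (hu v hv hvb) (hs v hv)
      κ y hy1 fun g h => ?_
    rw [hy2, hc, hκ]
  have hnS : ∀ v, v ∉ S → (vl p v (κ : K) = 0 ∧ vl p v (D : K) = 0) ∨
      ∃ j : ℕ, Lpw p v ((κ : K) * (D : K) ^ j) := by
    intro v hv
    obtain ⟨i, hi1, hi2⟩ := hout v hv
    by_cases h : ∀ g ∈ Inr (Qv v), kp hζ D g = 0
    · left
      rw [vl_zero_iff, vl_zero_iff]
      refine ⟨?_, od_dvd_of_inr hζ (Qv_max v) (Qv_comap v) h⟩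
      refine od_dvd_of_inr hζ (Qv_max v) (Qv_comap v) fun g hg => ?_
      rw [hκ]
      exact hI i (fun g' hg' => by rw [hc]; exact h g' (by rwa [← hi1])) g (by rwa [hi1])
    · right
      push Not at h
      obtain ⟨g₀, hg₀, hg₁⟩ := h
      obtain ⟨a, ha⟩ := hDI i ⟨g₀, by rwa [hi1], by rwa [hc]⟩
      exact exists_lpw hζ v κ D a fun g hg => by rw [hκ, ha g (by rwa [hi2]), hc]
  have hvj : ∀ v (j : ℕ), Lpw p v ((κ : K) * (D : K) ^ j) → vl p v (D : K) = 0 →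
      vl p v (κ : K) = 0 := by
    intro v j h h0
    have h1 := lpw_vl hB h
    rwa [vl_mul hB v κ.ne_zero (pow_ne_zero _ D.ne_zero), vl_pow hB v D.ne_zero, h0, mul_zero,
      add_zero] at h1
  have hall : ∀ v, (vl p v (κ : K) = 0 ∧ vl p v (D : K) = 0) ∨
      ∃ j : ℕ, Lpw p v ((κ : K) * (D : K) ^ j) := by
    intro v
    by_cases hv : v ∈ S
    · by_cases hvb : v ∈ b
      · exact Or.inl (hSb v hv hvb)
      · exact Or.inr (hS v hv hvb)
    · exact hnS v hv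
  have hcond : Cond p (AB p b) (D : K) (κ : K) := by
    refine ⟨κ.ne_zero, fun v _ h0 => ?_, fun v _ h0 => ?_, fun v hv => ?_⟩
    · rcases hall v with h1 | ⟨j, hj⟩
      · exact h1.1
      · exact hvj v j hj h0
    · rcases hall v with h1 | h1
      · exact absurd h1.2 h0
      · exact h1
    · refine ⟨κ.ne_zero, fun h => (hSb v (hpS v hv) h.1).1, fun h => ?_⟩
      refine hS v (hpS v hv) fun hvb => h ⟨hvb, (hSb v (hpS v hv) hvb).2⟩
  by_contra hcon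
  refine hbad ⟨κ, hcond, fun j hj => hcon ?_⟩
  obtain ⟨t, ht⟩ := hj
  have ht0 : t ≠ 0 := by
    rintro rfl
    rw [zero_pow hp.out.ne_zero] at ht
    exact mul_ne_zero κ.ne_zero (pow_ne_zero _ D.ne_zero) ht
  have h2 : κ * D ^ j = (Units.mk0 t ht0) ^ p := by
    apply Units.ext
    rw [Units.val_mul, Units.val_pow_eq_pow_val, Units.val_pow_eq_pow_val, Units.val_mk0, ht]
  refine ⟨-(j : ZMod p), fun g => ?_⟩
  have h3 := kp_ppow hζ (Units.mk0 t ht0) g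
  rw [← h2, kp_mul_left, kp_pow, hκ] at h3
  rw [hc]
  linear_combination h3

/-- fewer groups -/
theorem Mn.mono {G : Type} [Group G] [TopologicalSpace G] {d : Pl G} {c : Chr p G}
    {E E' : Set (Subgroup G)} (h : Mn d c E) (hE : E ⊆ E') : Mn d c E' :=
  fun x h1 h2 h3 h4 h5 h6 => h x h1 h2 h3 h4 (fun H hH => h5 H (hE hH)) h6

end Pool.Agent.H16.FL
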