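import Pool.Agent.H16.FL.Mnk

/-!
# The theorem for one extension
-/

set_option autoImplicit false
set_option linter.unusedSectionVars false

namespace Pool.Agent.H16.FL

open NumberField IsDedekindDomain Filter Topology
open Pool.Agent.W401.Cheb Pool.Agent.NH7.Sch
open Pool.Agent.NH7.GU (HS Qv Qv_max Qv_comap Hm Unr Chr hm_conj)
open Pool.Agent.NH7.BK
open Pool.Agent.Q7.LK

variable {K : Type} [Field K] [NumberField K] {p : ℕ} [hp : Fact p.Prime] {ζ : K} {N : ℕ}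

/-- the subspaces `W Q`, whose reduction is spanned by the basis vectors in `J v` -/
structure FilK (S : Set (HS K)) (J : HS K → Fin N → Prop)
    (ρ : GK K →* Matrix (Fin N) (Fin N) ℤ_[p])
    (W : Ideal (OO K) → Submodule ℚ_[p] (Fin N → ℚ_[p])) : Prop where
  eqv : ∀ v ∈ S, ∀ Q : Ideal (OO K), Q.IsMaximal →
    Q.comap (algebraMap (𝓞 K) (OO K)) = v.asIdeal → ∀ (g : GK K), ∀ x ∈ W Q,
      mQ (ρ g) x ∈ W (mv g Q)
  red : ∀ v ∈ S, ∀ Q : Ideal (OO K), Q.IsMaximal →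
    Q.comap (algebraMap (𝓞 K) (OO K)) = v.asIdeal → ∀ x : Fin N → ℤ_[p], cQ x ∈ W Q →
      ∀ i, ¬ J v i → (p : ℤ_[p]) ∣ x i
  bas : ∀ v ∈ S, ∀ Q : Ideal (OO K), Q.IsMaximal →
    Q.comap (algebraMap (𝓞 K) (OO K)) = v.asIdeal → ∀ i, J v i →
      ∃ x : Fin N → ℤ_[p], cQ x ∈ W Q ∧
        ∀ j, (p : ℤ_[p]) ∣ x j - (1 : Matrix (Fin N) (Fin N) ℤ_[p]) j i

/-- continuous cocycles on the subgroup `H` with values in `ℚ_p^N` and with the local conditions -/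
structure SelK (S : Set (HS K)) (ρ : GK K →* Matrix (Fin N) (Fin N) ℤ_[p])
    (W : Ideal (OO K) → Submodule ℚ_[p] (Fin N → ℚ_[p]))
    (H : Subgroup (GK K)) (c : H → Fin N → ℚ_[p]) : Prop where
  cont : Continuous c
  mul : ∀ σ τ, c (σ * τ) = c σ + mQ (ρ σ) (c τ)
  away : ∀ v ∉ S, ∀ Q : Ideal (OO K), Q.IsMaximal →
    Q.comap (algebraMap (𝓞 K) (OO K)) = v.asIdeal → ∃ x : Fin N → ℚ_[p],
      ∀ σ : H, (σ : GK K) ∈ Inr Q → c σ = mQ (ρ σ) x - x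
  flag : ∀ v ∈ S, ∀ Q : Ideal (OO K), Q.IsMaximal →
    Q.comap (algebraMap (𝓞 K) (OO K)) = v.asIdeal → ∃ x : Fin N → ℚ_[p],
      ∀ σ : H, (σ : GK K) ∈ Dec Q → c σ - (mQ (ρ σ) x - x) ∈ W Q

theorem mv_of_dec {Q : Ideal (OO K)} {g : GK K} (hg : g ∈ Dec Q) : mv g Q = Q := by
  ext x
  rw [mem_mv]
  exact ((Dec Q).inv_mem hg x).symm

theorem mv_mv (g h : GK K) (Q : Ideal (OO K)) : mv g (mv h Q) = mv (g * h) Q := by
  ext x
  rw [mem_mv, mem_mv, mem_mv, mul_inv_rev, mul_smul]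

/-- the data of a maximal ideal above a prime in `S` -/
abbrev Ab (S : Set (HS K)) : Type :=
  {Q : Ideal (OO K) // Q.IsMaximal ∧ ∃ v : HS K,
    Q.comap (algebraMap (𝓞 K) (OO K)) = v.asIdeal ∧ v ∈ S}

/-- the prime below -/
noncomputable def bel {S : Set (HS K)} (Q : Ab S) : HS K := Classical.choose Q.2.2

theorem bel_spec {S : Set (HS K)} (Q : Ab S) :
    Q.1.comap (algebraMap (𝓞 K) (OO K)) = (bel Q).asIdeal ∧ bel Q ∈ S :=
  Classical.choose_spec Q.2.2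

theorem bel_eq {S : Set (HS K)} (Q : Ab S) {v : HS K}
    (h : Q.1.comap (algebraMap (𝓞 K) (OO K)) = v.asIdeal) : bel Q = v :=
  HeightOneSpectrum.ext ((bel_spec Q).1.symm.trans h)

/-- move -/
noncomputable def mvA {S : Set (HS K)} (g : GK K) (Q : Ab S) : Ab S :=
  ⟨mv g Q.1, mv_max g Q.2.1, bel Q, by rw [comap_mv]; exact (bel_spec Q).1, (bel_spec Q).2⟩

section fg

variable {S : Set (HS K)} {J : HS K → Fin N → Prop} {ρ : GK K →* Matrix (Fin N) (Fin N) ℤ_[p]}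
  {W : Ideal (OO K) → Submodule ℚ_[p] (Fin N → ℚ_[p])} (h : FilK S J ρ W)

include h in
theorem ex_mat (Q : Ab S) : ∃ q b : Matrix (Fin N) (Fin N) ℤ_[p], q * b = 1 ∧ b * q = 1 ∧
      (∀ i j, (p : ℤ_[p]) ∣ (q - 1) i j) ∧ (∀ i j, (p : ℤ_[p]) ∣ (b - 1) i j) ∧
      (∀ i, J (bel Q) i → cQ (fun j => b j i) ∈ W Q.1) ∧
      ∀ x : Fin N → ℚ_[p], x ∈ W Q.1 ↔ ∀ i, ¬ J (bel Q) i → mQ q x i = 0 :=
  exists_mat (W Q.1) (J (bel Q))
    (h.red _ (bel_spec Q).2 Q.1 Q.2.1 (bel_spec Q).1)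
    (h.bas _ (bel_spec Q).2 Q.1 Q.2.1 (bel_spec Q).1)

/-- the matrix `q` -/
noncomputable def qq (Q : Ab S) : Matrix (Fin N) (Fin N) ℤ_[p] := Classical.choose (ex_mat h Q)

/-- the matrix `b` -/
noncomputable def bb (Q : Ab S) : Matrix (Fin N) (Fin N) ℤ_[p] :=
  Classical.choose (Classical.choose_spec (ex_mat h Q))

theorem qb_spec (Q : Ab S) : qq h Q * bb h Q = 1 ∧ bb h Q * qq h Q = 1 ∧
      (∀ i j, (p : ℤ_[p]) ∣ (qq h Q - 1) i j) ∧ (∀ i j, (p : ℤ_[p]) ∣ (bb h Q - 1) i j) ∧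
      (∀ i, J (bel Q) i → cQ (fun j => bb h Q j i) ∈ W Q.1) ∧
      ∀ x : Fin N → ℚ_[p], x ∈ W Q.1 ↔ ∀ i, ¬ J (bel Q) i → mQ (qq h Q) x i = 0 :=
  Classical.choose_spec (Classical.choose_spec (ex_mat h Q))

open Classical in
/-- the projection -/
noncomputable def PJ (J : Fin N → Prop) : Matrix (Fin N) (Fin N) ℤ_[p] :=
  Matrix.of fun i j => if J i then 0 else (1 : Matrix (Fin N) (Fin N) ℤ_[p]) i j

theorem PJ0 {J : Fin N → Prop} {i : Fin N} (h : J i) (j : Fin N) :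
    (PJ J : Matrix (Fin N) (Fin N) ℤ_[p]) i j = 0 := by
  classical
  exact if_pos h

theorem PJ1 {J : Fin N → Prop} {i : Fin N} (h : ¬ J i) (j : Fin N) :
    (PJ J : Matrix (Fin N) (Fin N) ℤ_[p]) i j = (1 : Matrix (Fin N) (Fin N) ℤ_[p]) i j := by
  classical
  exact if_neg h

theorem PJ_mul0 {J : Fin N → Prop} {i : Fin N} (h : J i) (M : Matrix (Fin N) (Fin N) ℤ_[p])
    (j : Fin N) : ((PJ J : Matrix (Fin N) (Fin N) ℤ_[p]) * M) i j = 0 := by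
  rw [Matrix.mul_apply]
  exact Finset.sum_eq_zero fun l _ => by rw [PJ0 h, zero_mul]

theorem PJ_mul1 {J : Fin N → Prop} {i : Fin N} (h : ¬ J i) (M : Matrix (Fin N) (Fin N) ℤ_[p])
    (j : Fin N) : ((PJ J : Matrix (Fin N) (Fin N) ℤ_[p]) * M) i j = M i j := by
  rw [Matrix.mul_apply, Finset.sum_congr rfl fun l _ => by rw [PJ1 h], ← Matrix.mul_apply,
    one_mul]

theorem PJ_PJ (J : Fin N → Prop) :
    (PJ J * PJ J : Matrix (Fin N) (Fin N) ℤ_[p]) = PJ J := by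
  ext i j
  by_cases h : J i
  · rw [PJ_mul0 h, PJ0 h]
  · rw [PJ_mul1 h]

/-- the triangular shape -/
theorem tri {J J' : Fin N → Prop} {M : Matrix (Fin N) (Fin N) ℤ_[p]}
    (h : ∀ i l, ¬ J i → J' l → M i l = 0) : PJ J * M = PJ J * M * PJ J' := by
  ext i j
  by_cases hi : J i
  · rw [PJ_mul0 hi, mul_assoc, PJ_mul0 hi]
  · rw [mul_assoc, PJ_mul1 hi, PJ_mul1 hi, Matrix.mul_apply]
    by_cases hj : J' j
    · rw [h i j hi hj]
      symm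
      refine Finset.sum_eq_zero fun l _ => ?_
      by_cases hl : J' l
      · rw [PJ0 hl, mul_zero]
      · rw [PJ1 hl, Matrix.one_apply_ne, mul_zero]
        rintro rfl
        exact hl hj
    · rw [Finset.sum_eq_single j]
      · rw [PJ1 hj, Matrix.one_apply_eq, mul_one]
      · intro l _ hl
        by_cases hl' : J' l
        · rw [PJ0 hl', mul_zero]
        · rw [PJ1 hl', Matrix.one_apply_ne hl, mul_zero]
      · intro h
        exact absurd (Finset.mem_univ _) h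

theorem cQ_col (M B : Matrix (Fin N) (Fin N) ℤ_[p]) (l i : Fin N) :
    mQ M (cQ (fun j => B j l)) i = (((M * B) i l : ℤ_[p]) : ℚ_[p]) := by
  rw [← cQ_mul]
  rfl

theorem entry_zero (Q Q' : Ab S) (g : GK K)
    (hg : ∀ x ∈ W Q'.1, mQ (ρ g) x ∈ W Q.1) (i l : Fin N) (hi : ¬ J (bel Q) i)
    (hl : J (bel Q') l) : (qq h Q * ρ g * bb h Q') i l = 0 := by
  obtain ⟨-, -, -, -, -, h6⟩ := qb_spec h Q
  obtain ⟨-, -, -, -, h5, -⟩ := qb_spec h Q'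
  have h1 := (h6 _).1 (hg _ (h5 l hl)) i hi
  rw [← mQ_mul, cQ_col] at h1
  exact Subtype.ext h1

/-- the data of the flags -/
noncomputable def fgK : Fg p N ρ where
  κ := Ab S
  D := fun Q => Dec Q.1
  J := fun Q => J (bel Q)
  P := fun Q => PJ (J (bel Q))
  hP0 := fun _ _ hi => PJ0 hi
  hP1 := fun _ _ hi => PJ1 hi
  PP := fun _ => PJ_PJ _
  q := qq h
  b := bb h
  qb := fun Q => (qb_spec h Q).1
  bq := fun Q => (qb_spec h Q).2.1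
  q1 := fun Q => (qb_spec h Q).2.2.1
  b1 := fun Q => (qb_spec h Q).2.2.2.1
  stab := fun Q g hg => tri fun i l hi hl => entry_zero h Q Q g (fun x hx => by
    have h1 := h.eqv _ (bel_spec Q).2 Q.1 Q.2.1 (bel_spec Q).1 g x hx
    rwa [mv_of_dec hg] at h1) i l hi hl
  conj := fun Q g => ⟨mvA g Q, fun x hx => (Dec_mv g x).1 hx,
    tri fun i l hi hl => entry_zero h Q (mvA g Q) g⁻¹ (fun x hx => by
      have h1 := h.eqv _ (bel_spec (mvA g Q)).2 (mvA g Q).1 (mvA g Q).2.1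
        (bel_spec (mvA g Q)).1 g⁻¹ x hx
      have h2 : mv g⁻¹ (mvA g Q).1 = Q.1 := by
        change mv g⁻¹ (mv g Q.1) = Q.1
        rw [mv_mv, inv_mul_cancel]
        ext y
        rw [mem_mv, inv_one, one_smul]
      rwa [h2] at h1) i l hi hl⟩

theorem mem_fgK (Q : Ab S) (x : Fin N → ℤ_[p]) :
    x ∈ (fgK h).W ℤ_[p] Q ↔ cQ x ∈ W Q.1 := by
  have e : x ∈ (fgK h).W ℤ_[p] Q ↔ (PJ (J (bel Q)) * qq h Q).mulVec x = 0 := by
    have e1 := mem_W (fgK h) (O := ℤ_[p]) (k := (Q : (fgK h).κ)) (x := x)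
    rw [mp_self] at e1
    exact e1
  rw [e, (qb_spec h Q).2.2.2.2.2, ← Matrix.mulVec_mulVec]
  have h1 : ∀ i, mQ (qq h Q) (cQ x) i = (((qq h Q).mulVec x i : ℤ_[p]) : ℚ_[p]) := by
    intro i
    rw [← cQ_mul]
    rfl
  have h2 : ∀ (y : Fin N → ℤ_[p]) i, (PJ (J (bel Q)) : Matrix (Fin N) (Fin N) ℤ_[p]).mulVec y i =
      ∑ l, (PJ (J (bel Q)) : Matrix (Fin N) (Fin N) ℤ_[p]) i l * y l := fun y i => rfl
  constructor
  · intro h0 i hi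
    rw [h1]
    have h3 := congrFun h0 i
    rw [h2, Finset.sum_eq_single i] at h3
    · rw [PJ1 hi, Matrix.one_apply_eq, one_mul] at h3
      rw [h3]
      rfl
    · intro l _ hl
      rw [PJ1 hi, Matrix.one_apply_ne (Ne.symm hl), zero_mul]
    · intro h
      exact absurd (Finset.mem_univ _) h
  · intro h0
    funext i
    rw [h2]
    by_cases hi : J (bel Q) i
    · exact Finset.sum_eq_zero fun l _ => by rw [PJ0 hi, zero_mul]
    · have h3 := h0 i hi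
      rw [h1] at h3
      rw [Finset.sum_eq_single i]
      · rw [PJ1 hi, Matrix.one_apply_eq, one_mul]
        exact Subtype.ext h3
      · intro l _ hl
        rw [PJ1 hi, Matrix.one_apply_ne (Ne.symm hl), zero_mul]
      · intro h
        exact absurd (Finset.mem_univ _) h

end fg


/-- the representation as abstract data -/
def rep0 {S : Set (HS K)} {ρ : GK K →* Matrix (Fin N) (Fin N) ℤ_[p]} (h : RepK S ρ) :
    Rp p (pl0 S) N where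
  ρ := ρ
  cont := h.cont
  one := h.one
  triv := fun Q g hg => by
    obtain ⟨v, hv, hvS⟩ := Q.2.2
    exact h.unr v hvS Q.1 Q.2.1 hv g hg

section conv

variable {S : Set (HS K)} {J : HS K → Fin N → Prop} {ρ : GK K →* Matrix (Fin N) (Fin N) ℤ_[p]}
  {W : Ideal (OO K) → Submodule ℚ_[p] (Fin N → ℚ_[p])}

/-- from `ℚ_p`-valued to `ℤ_p`-valued cocycles -/
theorem selF_of_selK (hρ : RepK S ρ) (h : FilK S J ρ W) {H : Subgroup (GK K)}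
    (hH : IsClosed (H : Set (GK K))) {c : H → Fin N → ℚ_[p]} (hc : SelK S ρ W H c) :
    ∃ (k : ℕ) (f : GK K → Fin N → ℤ_[p]), SelF (rep0 hρ) (fgK h) H f ∧
      ∀ σ : H, cQ (f σ) = (p : ℚ_[p]) ^ k • c σ := by
  have : CompactSpace H := isCompact_iff_compactSpace.1 hH.isCompact
  obtain ⟨k, f, hf, hfc⟩ := s_int p N H c hc.cont
  have hfc' : ∀ σ, cQ (f σ) = (p : ℚ_[p]) ^ k • c σ := fun σ => by
    funext j
    exact hfc σ j
  refine ⟨k, ext0 f, ⟨⟨?_, fun g hg t ht => ?_⟩, fun i g hg hgH => ?_, fun Q => ?_⟩, fun σ => by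
    rw [ext0_of f σ.2]
    exact hfc' σ⟩
  · have : (fun x : H => ext0 f x) = f := funext fun x => ext0_of f x.2
    rw [this]
    exact hf
  · rw [ext0_of f hg, ext0_of f ht, ext0_of f (H.mul_mem hg ht)]
    apply cQ_inj
    rw [cQ_add]
    have e1 : cQ (((rep0 hρ).ρ g).mulVec (f ⟨t, ht⟩)) = mQ (ρ g) (cQ (f ⟨t, ht⟩)) := cQ_mul _ _
    have e2 : (⟨g * t, H.mul_mem hg ht⟩ : H) = ⟨g, hg⟩ * ⟨t, ht⟩ := rfl
    rw [e1, e2, hfc', hfc', hfc', hc.mul, mQ_smul, smul_add]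
  · obtain ⟨v, hv, hvS⟩ := i.2.2
    obtain ⟨x, hx⟩ := hc.away v hvS i.1 i.2.1 hv
    rw [ext0_of f hgH]
    apply cQ_inj
    have e1 : ρ g = 1 := hρ.unr v hvS i.1 i.2.1 hv g hg
    have e2 := hx ⟨g, hgH⟩ hg
    rw [hfc', e2]
    beta_reduce
    rw [show ρ ((⟨g, hgH⟩ : H) : GK K) = 1 from e1, mQ_one, sub_self, smul_zero, cQ_zero]
  · obtain ⟨x, hx⟩ := hc.flag _ (bel_spec Q).2 Q.1 Q.2.1 (bel_spec Q).1
    obtain ⟨m, hm⟩ := exists_int_vec x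
    obtain ⟨z, hz⟩ := hm (m + k) (Nat.le_add_right _ _)
    refine ⟨m, z, fun g hg hgH => (mem_fgK h Q _).2 ?_⟩
    rw [ext0_of f hgH]
    have e1 : cQ (((rep0 hρ).ρ g).mulVec z) = mQ (ρ g) (cQ z) := cQ_mul _ _
    rw [cQ_sub, cQ_smul, cQ_sub, e1, hz, hfc', mQ_smul, smul_smul, ← pow_add, ← smul_sub,
      ← smul_sub]
    exact (W Q.1).smul_mem _ (hx ⟨g, hgH⟩ hg)

/-- from `ℤ_p`-valued to `ℚ_p`-valued cocycles -/
theorem selK_of_selF (hρ : RepK S ρ) (h : FilK S J ρ W) {H : Subgroup (GK K)}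
    {f : GK K → Fin N → ℤ_[p]} (hf : SelF (rep0 hρ) (fgK h) H f) (k : ℕ) :
    SelK S ρ W H fun σ => ((p : ℚ_[p]) ^ k)⁻¹ • cQ (f σ) := by
  refine ⟨?_, fun σ τ => ?_, fun v hv Q hQ hQv => ⟨0, fun σ hσ => ?_⟩, fun v hv Q hQ hQv => ?_⟩
  · exact (cQ_cont.comp hf.coc.cont).const_smul (((p : ℚ_[p]) ^ k)⁻¹)
  · have e := hf.coc.mul _ σ.2 _ τ.2
    have e1 : cQ (((rep0 hρ).ρ σ).mulVec (f τ)) = mQ (ρ σ) (cQ (f τ)) := cQ_mul _ _
    beta_reduce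
    rw [Subgroup.coe_mul, e, cQ_add, e1, mQ_smul, smul_add]
  · have e := hf.away ⟨Q, hQ, v, hQv, hv⟩ σ hσ σ.2
    beta_reduce
    rw [e, cQ_zero, smul_zero, mQ_zero, sub_zero]
  · obtain ⟨m, z, hz⟩ := hf.flag ⟨Q, hQ, v, hQv, hv⟩
    refine ⟨((p : ℚ_[p]) ^ (k + m))⁻¹ • cQ z, fun σ hσ => ?_⟩
    have e := (mem_fgK h ⟨Q, hQ, v, hQv, hv⟩ _).1 (hz σ hσ σ.2)
    have e1 : cQ (((rep0 hρ).ρ σ).mulVec z) = mQ (ρ σ) (cQ z) := cQ_mul _ _
    rw [cQ_sub, cQ_smul, cQ_sub, e1] at e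
    beta_reduce
    have e2 := (W Q).smul_mem ((p : ℚ_[p]) ^ (k + m))⁻¹ e
    convert e2 using 1
    rw [smul_sub, mQ_smul, ← smul_sub, smul_smul]
    congr 2
    have := p_ne (p := p)
    rw [pow_add]
    field_simp

end conv

/-- **The theorem for one extension** -/
theorem main_one (hp2 : p ≠ 2) (hζ : IsPrimitiveRoot ζ p) {S : Set (HS K)}
    (hpS : ∀ v : HS K, Dp p v → v ∈ S) (D : Kˣ) (hσ : ∃ σ, kp hζ D σ = 1)
    (hs : ∀ v ∈ S, ∃ g ∈ Dec (Qv v), kp hζ D g ≠ 0) (B : Set (Set (HS K)))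
    (hu : ∀ b ∈ B, ∀ v ∈ S, v ∈ b → ∀ g ∈ Inr (Qv v), kp hζ D g = 0)
    (hbad : ∀ b ∈ B, ¬ Bad p (AB p b) (D : K))
    (ρ : GK K →* Matrix (Fin N) (Fin N) ℤ_[p]) (hρ : RepK S ρ) (J : HS K → Fin N → Prop)
    (W : Ideal (OO K) → Submodule ℚ_[p] (Fin N → ℚ_[p])) (hW : FilK S J ρ W)
    (hJ : ∀ j : Fin N, ∃ b ∈ B, ∀ v ∈ S, J v j → v ∈ b)
    (c : kerX (kp_mul_right hζ D) → Fin N → ℚ_[p])
    (hc : SelK S ρ W (kerX (kp_mul_right hζ D)) c) :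
    ∃ c' : (⊤ : Subgroup (GK K)) → Fin N → ℚ_[p], SelK S ρ W ⊤ c' ∧ ∃ x : Fin N → ℚ_[p],
      ∀ (σ : kerX (kp_mul_right hζ D)) (τ : (⊤ : Subgroup (GK K))), (τ : GK K) = σ →
        c σ = c' τ + (mQ (ρ σ) x - x) := by
  obtain ⟨σ, hσ⟩ := hσ
  let ch : Chr p (GK K) := ⟨kp hζ D, kp_cont hζ D, kp_mul_right hζ D, σ, hσ⟩
  have hkk : ch.ker = kerX (kp_mul_right hζ D) := Subgroup.ext fun g => Iff.rfl
  have hm : Hm p (kp hζ D) := ⟨kp_cont hζ D, kp_mul_right hζ D⟩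
  have hk : ∀ k : (fgK hW).κ, ∃ g ∈ (fgK hW).D k, ch.χ g ≠ 0 := by
    intro Q
    obtain ⟨τ, hτ⟩ := Pool.Agent.NH7.GU.s_cnj K (bel Q) (Qv (bel Q)) Q.1 (Qv_max _) Q.2.1
      (Qv_comap _) (bel_spec Q).1
    obtain ⟨g, hg, hg0⟩ := hs _ (bel_spec Q).2
    refine ⟨τ * g * τ⁻¹, ?_, ?_⟩
    · change τ * g * τ⁻¹ ∈ Dec Q.1
      rw [hτ]
      exact (Dec_mv τ g).1 hg
    · change kp hζ D (τ * g * τ⁻¹) ≠ 0
      rwa [hm_conj hm]
  have hT : ∀ j : Fin N, Mn (pl0 S) ch {H | ∃ k, ¬ (fgK hW).J k j ∧ H = (fgK hW).D k} := by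
    intro j
    obtain ⟨b, hb, hbJ⟩ := hJ j
    refine (mn_of_not_bad hζ hpS D ch (fun _ => rfl) hs (hu b hb) (hbad b hb)).mono ?_
    rintro H ⟨Q, hQ, v, hQv, hvS, hvb, rfl⟩
    refine ⟨(⟨Q, hQ, v, hQv, hvS⟩ : Ab S), ?_, rfl⟩
    intro hJv
    have h1 : J (bel (⟨Q, hQ, v, hQv, hvS⟩ : Ab S)) j := hJv
    rw [bel_eq _ hQv] at h1
    exact hvb (hbJ v hvS h1)
  obtain ⟨k, f, hf, hfc⟩ := selF_of_selK hρ hW (kerX_closed (kp_cont hζ D) (kp_mul_right hζ D)) hc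
  have he : IsEmpty (pl0 S).κ := inferInstanceAs (IsEmpty Empty)
  obtain ⟨F, hF, m, z, hz⟩ := cmp he hp2 ch hk hT (f := f) (by rw [hkk]; exact hf)
  refine ⟨_, selK_of_selF hρ hW hF (m + k), ((p : ℚ_[p]) ^ (m + k))⁻¹ • cQ z,
    fun σ τ hστ => ?_⟩
  have e := congrArg cQ (hz σ (by rw [hkk]; exact σ.2))
  have e1 : cQ (((rep0 hρ).ρ σ).mulVec z) = mQ (ρ σ) (cQ z) := cQ_mul _ _
  rw [cQ_smul, cQ_add, cQ_sub, e1, hfc, smul_smul, ← pow_add] at e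
  beta_reduce
  rw [hστ, mQ_smul, ← smul_sub, ← smul_add, ← e, smul_smul,
    inv_mul_cancel₀ (pow_ne_zero _ p_ne), one_smul]

end Pool.Agent.H16.FL
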