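import Pool.Agent.H16.FL.Sel
import Pool.Graph.R_pool_sql_team_seeded_3997aac3.Q7.LK.All
import Pool.Graph.R_pool_sql_team_seeded_3997aac3.Q14.LK.Share

/-!
# The share of the bad fields for finitely many sets of places above `p`
-/

set_option autoImplicit false
set_option linter.unusedSectionVars false

namespace Pool.Agent.H16.FL

open NumberField IsDedekindDomain Filter Topology
open Pool.Agent.NH7.GU (HS)
open Pool.Agent.Q7.LK
open Pool.Agent.Q283.LQ (Sm Box Nest nS)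
open Pool.Agent.Q14.LK (nest_mono nest_and nest_all)

variable {K : Type} [Field K] [NumberField K] {p : ℕ} [hp : Fact p.Prime] {ζ : K}

/-- the bound for one set -/
noncomputable def bd (p : ℕ) (b : Set (HS K)) : ℝ :=
  (p : ℝ) ^ (∑ᶠ v, cB p b v) * (1 / (p : ℝ)) ^ InfinitePlace.nrComplexPlaces K / (p - 1)

theorem bd_nonneg (b : Set (HS K)) : 0 ≤ bd p b := by
  have h1 : (1 : ℝ) < p := by exact_mod_cast hp.out.one_lt
  unfold bd
  have : (0 : ℝ) ≤ p - 1 := by linarith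
  positivity

open Classical in
/-- the share of the bad fields for finitely many sets -/
theorem share (hp2 : p ≠ 2) (hζ : IsPrimitiveRoot ζ p) : ∃ y0 : ℕ, ∀ y, y0 ≤ y →
    ∀ D0 : K, D0 ≠ 0 → ∀ (𝓑 : Finset (Set (HS K))) (ε : ℝ), 0 < ε →
    ∃ k0 : ℕ, ∀ k, k0 ≤ k → ∀ z : Fin k → ZMod p, (∀ i, z i ≠ 0) → Nest k fun X =>
      (Box y X : Set (Fin k → HS K)).Finite ∧
      0 < ({q ∈ (Box y X : Set (Fin k → HS K)) | ∃ D, Fits p y D0 z q D}.ncard : ℝ) ∧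
      ({q ∈ (Box y X : Set (Fin k → HS K)) | ∃ D, Fits p y D0 z q D ∧
          ∃ b ∈ 𝓑, Bad p (AB p b) D}.ncard : ℝ) ≤
        (∑ b ∈ 𝓑, bd p b + ε) *
          ({q ∈ (Box y X : Set (Fin k → HS K)) | ∃ D, Fits p y D0 z q D}.ncard : ℝ) := by
  obtain ⟨y0, hy0⟩ := t_SHARE p hp2 K ζ hζ
  refine ⟨y0, fun y hy D0 hD0 𝓑 ε hε => ?_⟩
  set M : ℝ := ((𝓑.card : ℝ) + 1) with hM
  have hMpos : 0 < M := by positivity
  have hε' : 0 < ε / M := div_pos hε hMpos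
  choose k0 hk0 using fun b : Set (HS K) =>
    hy0 y hy (AB p b) (cB p b) (loc_AB hp2 hζ b) D0 hD0 (ε / M) hε'
  refine ⟨(insert ∅ 𝓑).sup k0, fun k hk z hz => ?_⟩
  have hN := nest_all k (insert ∅ 𝓑) (fun b X => (Box y X : Set (Fin k → HS K)).Finite ∧
      0 < ({q ∈ (Box y X : Set (Fin k → HS K)) | ∃ D, Fits p y D0 z q D}.ncard : ℝ) ∧
      ({q ∈ (Box y X : Set (Fin k → HS K)) | ∃ D, Fits p y D0 z q D ∧
          Bad p (AB p b) D}.ncard : ℝ) ≤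
        (bd p b + ε / M) *
          ({q ∈ (Box y X : Set (Fin k → HS K)) | ∃ D, Fits p y D0 z q D}.ncard : ℝ))
      (fun b hb => hk0 b k ((Finset.le_sup hb).trans hk) z hz)
  refine nest_mono k (fun X hX => ?_) hN
  obtain ⟨hfin, hpos, -⟩ := hX ∅ (Finset.mem_insert_self _ _)
  refine ⟨hfin, hpos, ?_⟩
  set E : ℝ := ({q ∈ (Box y X : Set (Fin k → HS K)) | ∃ D, Fits p y D0 z q D}.ncard : ℝ) with hE
  have hsub : {q ∈ (Box y X : Set (Fin k → HS K)) | ∃ D, Fits p y D0 z q D ∧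
      ∃ b ∈ 𝓑, Bad p (AB p b) D} ⊆ ⋃ b ∈ 𝓑, {q ∈ (Box y X : Set (Fin k → HS K)) |
        ∃ D, Fits p y D0 z q D ∧ Bad p (AB p b) D} := by
    rintro q ⟨hq, D, hD, b, hb, hbad⟩
    exact Set.mem_biUnion hb ⟨hq, D, hD, hbad⟩
  have h1 : ({q ∈ (Box y X : Set (Fin k → HS K)) | ∃ D, Fits p y D0 z q D ∧
      ∃ b ∈ 𝓑, Bad p (AB p b) D}.ncard : ℝ) ≤ ∑ b ∈ 𝓑, ({q ∈ (Box y X : Set (Fin k → HS K)) |
        ∃ D, Fits p y D0 z q D ∧ Bad p (AB p b) D}.ncard : ℝ) := by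
    have h2 := Set.ncard_le_ncard hsub (𝓑.finite_toSet.biUnion fun b _ =>
      hfin.subset (fun q hq => hq.1))
    have h3 : (⋃ b ∈ 𝓑, {q ∈ (Box y X : Set (Fin k → HS K)) |
        ∃ D, Fits p y D0 z q D ∧ Bad p (AB p b) D}).ncard ≤ ∑ b ∈ 𝓑,
          ({q ∈ (Box y X : Set (Fin k → HS K)) |
            ∃ D, Fits p y D0 z q D ∧ Bad p (AB p b) D}).ncard :=
      Finset.set_ncard_biUnion_le _ _
    calc ((_ : ℕ) : ℝ) ≤ ((_ : ℕ) : ℝ) := Nat.cast_le.2 (h2.trans h3)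
      _ = _ := by push_cast; rfl
  refine h1.trans ?_
  have h4 : ∀ b ∈ 𝓑, ({q ∈ (Box y X : Set (Fin k → HS K)) |
        ∃ D, Fits p y D0 z q D ∧ Bad p (AB p b) D}.ncard : ℝ) ≤ (bd p b + ε / M) * E :=
    fun b hb => (hX b (Finset.mem_insert_of_mem hb)).2.2
  refine (Finset.sum_le_sum h4).trans ?_
  rw [← Finset.sum_mul, Finset.sum_add_distrib, Finset.sum_const, nsmul_eq_mul]
  refine mul_le_mul_of_nonneg_right ?_ hpos.le
  have h5 : (𝓑.card : ℝ) * (ε / M) ≤ ε := by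
    rw [← mul_div_assoc, div_le_iff₀ hMpos, mul_comm]
    exact mul_le_mul_of_nonneg_left (by rw [hM]; linarith) hε.le
  linarith

end Pool.Agent.H16.FL
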