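import Pool.Agent.H16.FL.Def

/-!
# The condition at a group `D k` on which `χ` is not trivial, with flags
-/

set_option autoImplicit false
set_option linter.unusedSectionVars false

namespace Pool.Agent.H16.FL

open Filter Topology
open Pool.Agent.NH7.GU (Cyc Chr)
open Pool.Agent.NH7.BK

variable {p : ℕ} [hp : Fact p.Prime] {G : Type} [Group G] [TopologicalSpace G] {d : Pl G} {N : ℕ}

/-- the data of the group `H` alone -/
def dOne (H : Type) [Group H] : Pl H where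
  ι := Empty
  I := fun i => i.elim
  DI := fun i => i.elim
  I_le := fun i => i.elim
  I_nor := fun i => i.elim
  I_conj := fun i => i.elim
  κ := Unit
  D := fun _ => ⊤
  D_conj := fun _ _ => ⟨(), fun _ => by simp⟩

section

variable {ρ : G →* Matrix (Fin N) (Fin N) ℤ_[p]} (Φ : Fg p N ρ) (k : Φ.κ)

theorem P_sub : Φ.P k * (1 - Φ.P k) = 0 := by
  rw [mul_sub, mul_one, Φ.PP, sub_self]

theorem sub_P : (1 - Φ.P k) * Φ.P k = 0 := by
  rw [sub_mul, one_mul, Φ.PP, sub_self]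

theorem sub_sub_P : (1 - Φ.P k) * (1 - Φ.P k) = 1 - Φ.P k := by
  rw [mul_sub, mul_one, sub_P, sub_zero]

/-- the matrix of `g` in the adapted basis -/
noncomputable def Mk (g : G) : Matrix (Fin N) (Fin N) ℤ_[p] := Φ.q k * ρ g * Φ.b k

theorem Mk_one : Mk Φ k 1 = 1 := by
  rw [Mk, map_one, mul_one, Φ.qb]

theorem Mk_mul (g h : G) : Mk Φ k (g * h) = Mk Φ k g * Mk Φ k h := by
  unfold Mk
  rw [map_mul]
  have : Φ.q k * ρ g * Φ.b k * (Φ.q k * ρ h * Φ.b k) =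
      Φ.q k * ρ g * (Φ.b k * Φ.q k) * ρ h * Φ.b k := by
    simp only [mul_assoc]
  rw [this, Φ.bq, mul_one]
  simp only [mul_assoc]

theorem Mk_q (g : G) : Mk Φ k g * Φ.q k = Φ.q k * ρ g := by
  unfold Mk
  rw [mul_assoc, Φ.bq, mul_one]

theorem Mk_stab {g : G} (hg : g ∈ Φ.D k) : Φ.P k * Mk Φ k g = Φ.P k * Mk Φ k g * Φ.P k :=
  Φ.stab k g hg

/-- the quotient representation of `D k` -/
noncomputable def Mq (g : G) : Matrix (Fin N) (Fin N) ℤ_[p] :=
  Φ.P k * Mk Φ k g * Φ.P k + (1 - Φ.P k)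

theorem Mq_one : Mq Φ k 1 = 1 := by
  rw [Mq, Mk_one, mul_one, Φ.PP]
  abel

theorem Mq_P {g : G} (hg : g ∈ Φ.D k) : Mq Φ k g * Φ.P k = Φ.P k * Mk Φ k g := by
  rw [Mq, add_mul, sub_P, add_zero, mul_assoc, Φ.PP, ← Mk_stab Φ k hg]

theorem Mq_mul {g : G} (hg : g ∈ Φ.D k) (h : G) :
    Mq Φ k (g * h) = Mq Φ k g * Mq Φ k h := by
  have e1 : Mq Φ k g * (1 - Φ.P k) = 1 - Φ.P k := by
    rw [Mq, add_mul, sub_sub_P, mul_assoc, P_sub, mul_zero, zero_add]
  have e2 : Mq Φ k g * (Φ.P k * Mk Φ k h * Φ.P k) = Φ.P k * Mk Φ k (g * h) * Φ.P k := by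
    rw [← mul_assoc, ← mul_assoc, Mq_P Φ k hg, Mk_mul, mul_assoc (Φ.P k)]
  conv_rhs => rw [Mq.eq_1 (g := h)]
  rw [mul_add, e1, e2, Mq]

theorem ap_mp (O : Type) [CommRing O] [Algebra ℤ_[p] O] (A B : Matrix (Fin N) (Fin N) ℤ_[p])
    (x : Fin N → O) : (mp O A).mulVec ((mp O B).mulVec x) = (mp O (A * B)).mulVec x := by
  rw [Matrix.mulVec_mulVec, mp_mul]

end

theorem dvd_mul_sub {A B : Matrix (Fin N) (Fin N) ℤ_[p]}
    (hA : ∀ i j, (p : ℤ_[p]) ∣ (A - 1) i j) (hB : ∀ i j, (p : ℤ_[p]) ∣ (B - 1) i j) :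
    ∀ i j, (p : ℤ_[p]) ∣ (A * B - 1) i j := by
  intro i j
  have e : A * B - 1 = (A - 1) * B + (B - 1) := by
    rw [sub_mul, one_mul]
    abel
  rw [e, Matrix.add_apply, Matrix.mul_apply]
  exact dvd_add (Finset.dvd_sum fun l _ => Dvd.dvd.mul_right (hA i l) _) (hB i j)

/-- the quotient representation, as data -/
noncomputable def RQ (R : Rp p d N) (Φ : Fg p N R.ρ) (k : Φ.κ) : Rp p (dOne (Φ.D k)) N where
  ρ :=
    { toFun := fun h => Mq Φ k h
      map_one' := Mq_one Φ k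
      map_mul' := fun g h => Mq_mul Φ k g.2 h }
  cont := by
    have h1 : Continuous fun h : Φ.D k => R.ρ h := R.cont.comp continuous_subtype_val
    change Continuous fun h : Φ.D k => Φ.P k * (Φ.q k * R.ρ h * Φ.b k) * Φ.P k + (1 - Φ.P k)
    exact (((continuous_const.mul ((continuous_const.mul h1).mul continuous_const)).mul
      continuous_const).add continuous_const)
  one := by
    intro g i j
    change (p : ℤ_[p]) ∣ (Φ.P k * Mk Φ k g * Φ.P k + (1 - Φ.P k) - 1) i j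
    have h1 : ∀ i j, (p : ℤ_[p]) ∣ (Mk Φ k g - 1) i j :=
      dvd_mul_sub (dvd_mul_sub (Φ.q1 k) (R.one g)) (Φ.b1 k)
    have e : Φ.P k * Mk Φ k g * Φ.P k + (1 - Φ.P k) - 1 =
        Φ.P k * (Mk Φ k g - 1) * Φ.P k := by
      rw [mul_sub, mul_one, sub_mul, Φ.PP]
      abel
    rw [e, Matrix.mul_apply]
    refine Finset.dvd_sum fun l _ => Dvd.dvd.mul_right ?_ _
    rw [Matrix.mul_apply]
    exact Finset.dvd_sum fun m _ => Dvd.dvd.mul_left (h1 m l) _
  triv := fun i => i.elim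

theorem ev_mp {O : Type} [CommRing O] [Algebra ℤ_[p] O] (C : Cyc p O)
    {A : Matrix (Fin N) (Fin N) ℤ_[p]} (hA : ∀ i j, (p : ℤ_[p]) ∣ (A - 1) i j) (x : Fin N → O)
    (i : Fin N) : C.ev ((mp O A).mulVec x i) = C.ev (x i) := by
  have h1 : ∀ j, C.ev (mp O A i j) = (1 : Matrix (Fin N) (Fin N) (ZMod p)) i j := by
    intro j
    obtain ⟨t, ht⟩ := hA i j
    have h2 : A i j = (1 : Matrix (Fin N) (Fin N) ℤ_[p]) i j + (p : ℤ_[p]) * t := by
      rw [Matrix.sub_apply] at ht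
      linear_combination ht
    change C.ev (algebraMap ℤ_[p] O (A i j)) = _
    rw [C.ev_int, h2, map_add, map_mul, map_natCast, ZMod.natCast_self, zero_mul, add_zero]
    by_cases hij : i = j
    · subst hij
      rw [Matrix.one_apply_eq, Matrix.one_apply_eq, map_one]
    · rw [Matrix.one_apply_ne hij, Matrix.one_apply_ne hij, map_zero]
  have h2 : (mp O A).mulVec x i = ∑ j, mp O A i j * x j := rfl
  rw [h2, map_sum, Finset.sum_congr rfl fun j _ => by rw [map_mul, h1]]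
  have h3 : ∑ j, (1 : Matrix (Fin N) (Fin N) (ZMod p)) i j * C.ev (x j) =
      (1 : Matrix (Fin N) (Fin N) (ZMod p)).mulVec (fun j => C.ev (x j)) i := rfl
  rw [h3, Matrix.one_mulVec]

/-- the reduction of the coordinates outside `J k` on the group `D k` -/
theorem str {O : Type} [CommRing O] [Algebra ℤ_[p] O] (C : Cyc p O) [IsTopologicalGroup G]
    (c : Chr p G) (R : Rp p d N) (Φ : Fg p N R.ρ) (F : G → Fin N → O) (hp2 : p ≠ 2)
    (hF : IsF C c R Φ F) (k : Φ.κ) (hk : ∃ g ∈ Φ.D k, c.χ g ≠ 0) :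
    ∃ a : Fin N → ZMod p, ∀ g ∈ Φ.D k, ∀ j, ¬ Φ.J k j → C.ev (F g j) = a j * c.χ g := by
  obtain ⟨s, hs, hs1⟩ := exists_chi_one c (Φ.D k) hk
  let c' : Chr p (Φ.D k) := ⟨fun h => c.χ h, c.c.comp continuous_subtype_val,
    fun g h => c.m g h, ⟨s, hs⟩, hs1⟩
  let F' : Φ.D k → Fin N → O := fun h => (mp O (Φ.P k * Φ.q k)).mulVec (F h)
  have hmul : ∀ g h : Φ.D k, F' (g * h) = F' g + C.z ^ (c'.χ g).val •
      ((RQ R Φ k).mO O g).mulVec (F' h) := by
    intro g h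
    change (mp O (Φ.P k * Φ.q k)).mulVec (F (g * h)) = (mp O (Φ.P k * Φ.q k)).mulVec (F g) +
      C.z ^ (c.χ g).val • (mp O (Mq Φ k g)).mulVec ((mp O (Φ.P k * Φ.q k)).mulVec (F h))
    rw [hF.mul, Matrix.mulVec_add, Matrix.mulVec_smul, mp_mO, ap_mp, ap_mp]
    congr 4
    rw [← mul_assoc (Mq Φ k g), Mq_P Φ k g.2, mul_assoc (Φ.P k) (Mk Φ k g), Mk_q]
    simp only [mul_assoc]
  have hV : IsV C c' (RQ R Φ k) F' := by
    refine ⟨fun n g => ?_, hmul, fun i => i.elim, fun _ => ?_⟩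
    · have h1 := (continuous_subtype_val (p := fun x => x ∈ Φ.D k)).continuousAt.eventually
        (hF.cont n (g : G))
      filter_upwards [h1] with h hh j
      change (C.z - 1) ^ n ∣ (mp O (Φ.P k * Φ.q k)).mulVec (F h) j -
        (mp O (Φ.P k * Φ.q k)).mulVec (F g) j
      rw [← Pi.sub_apply, ← Matrix.mulVec_sub]
      change (C.z - 1) ^ n ∣ ∑ l, mp O (Φ.P k * Φ.q k) j l * (F h l - F g l)
      exact Finset.dvd_sum fun l _ => Dvd.dvd.mul_left (hh l) _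
    · obtain ⟨n, t, ht⟩ := hF.flag k
      refine ⟨n, (mp O (Φ.P k * Φ.q k)).mulVec t, fun g _ hg => ?_⟩
      have h1 := ht g g.2 hg
      rw [mem_W, Matrix.mulVec_sub, Matrix.mulVec_sub, Matrix.mulVec_smul, sub_eq_zero] at h1
      change (C.z - 1) ^ n • (mp O (Φ.P k * Φ.q k)).mulVec (F g) =
        (mp O (Mq Φ k g)).mulVec ((mp O (Φ.P k * Φ.q k)).mulVec t) -
          (mp O (Φ.P k * Φ.q k)).mulVec t
      rw [h1, mp_mO, ap_mp, ap_mp]
      congr 3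
      rw [← mul_assoc (Mq Φ k g), Mq_P Φ k g.2, mul_assoc (Φ.P k) (Mk Φ k g), Mk_q]
      simp only [mul_assoc]
  obtain ⟨a, ha⟩ := s_str s_bt p O C (Φ.D k) (dOne (Φ.D k)) c' N (RQ R Φ k) F' hp2 hV ()
    ⟨⟨s, hs⟩, Subgroup.mem_top _, by
      change c.χ s ≠ 0
      rw [hs1]
      exact one_ne_zero⟩
  refine ⟨a, fun g hg j hj => ?_⟩
  have h1 := ha ⟨g, hg⟩ (Subgroup.mem_top _) j
  change C.ev ((mp O (Φ.P k * Φ.q k)).mulVec (F g) j) = a j * c.χ g at h1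
  rw [← h1, mp_mul, ← Matrix.mulVec_mulVec]
  have h2 : ∀ x : Fin N → O, (mp O (Φ.P k)).mulVec x j = x j := by
    intro x
    have h3 : (mp O (Φ.P k)).mulVec x j = ∑ l, algebraMap ℤ_[p] O (Φ.P k j l) * x l := rfl
    rw [h3, Finset.sum_eq_single j]
    · rw [Φ.hP1 k j hj, Matrix.one_apply_eq, map_one, one_mul]
    · intro l _ hl
      rw [Φ.hP1 k j hj, Matrix.one_apply_ne (Ne.symm hl), map_zero, zero_mul]
    · intro h
      exact absurd (Finset.mem_univ _) h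
  rw [h2, ev_mp C (Φ.q1 k)]

end Pool.Agent.H16.FL
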