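import Pool.Agent.H16.FL.Shr

/-!
# The fields of the ensemble
-/

set_option autoImplicit false
set_option linter.unusedSectionVars false

namespace Pool.Agent.H16.FL

open NumberField IsDedekindDomain Filter Topology
open Pool.Agent.W401.Cheb Pool.Agent.NH7.Sch
open Pool.Agent.NH7.GU (HS Qv Qv_max Qv_comap Hm Unr Chr hm_conj)
open Pool.Agent.NH7.BK
open Pool.Agent.Q7.LK
open Pool.Agent.Q283.LQ (Sm Box Nest nS)

variable {K : Type} [Field K] [NumberField K] {p : ℕ} [hp : Fact p.Prime] {ζ : K} {N : ℕ}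

/-- there is a prime above `p` -/
theorem exists_dp (p : ℕ) [hp : Fact p.Prime] : ∃ v : HS K, Dp p v := by
  have h1 : (Ideal.span {(p : 𝓞 K)}) ≠ ⊤ := by
    intro h
    rw [Ideal.span_singleton_eq_top] at h
    have h2 := (Ideal.absNorm_eq_one_iff.2 ((Ideal.span_singleton_eq_top).2 h))
    rw [Ideal.absNorm_span_singleton] at h2
    have h3 : Algebra.norm ℤ ((p : ℤ) : 𝓞 K) = (p : ℤ) ^ Module.finrank ℤ (𝓞 K) := by
      have := Algebra.norm_algebraMap (S := 𝓞 K) (p : ℤ)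
      simpa using this
    have h4 : ((p : ℤ) : 𝓞 K) = (p : 𝓞 K) := by push_cast; rfl
    rw [← h4, h3, Int.natAbs_pow, Int.natAbs_natCast] at h2
    have h5 : Module.finrank ℤ (𝓞 K) ≠ 0 := by
      rw [RingOfIntegers.rank]
      exact Module.finrank_pos.ne'
    exact hp.out.one_lt.ne' ((Nat.pow_eq_one.1 h2).resolve_right h5)
  obtain ⟨M, hM, hle⟩ := Ideal.exists_le_maximal _ h1
  have hp0 : (p : 𝓞 K) ≠ 0 := by
    exact_mod_cast (hp.out.ne_zero : p ≠ 0)
  have hmem : (p : 𝓞 K) ∈ M := hle (Ideal.mem_span_singleton_self _)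
  refine ⟨⟨M, hM.isPrime, ?_⟩, hmem⟩
  rintro rfl
  exact hp0 hmem

/-- the theorem for the fields of the ensemble -/
theorem good_of_fits (hp2 : p ≠ 2) (hζ : IsPrimitiveRoot ζ p) {S : Set (HS K)}
    (hpS : ∀ v : HS K, Dp p v → v ∈ S) {y : ℕ} (hSy : ∀ v ∈ S, Sm y v) {D0 : K} (hD0 : D0 ≠ 0)
    (hns : ∀ v ∈ S, ¬ Lpw p v D0) (B : Set (Set (HS K)))
    (hu0 : ∀ b ∈ B, ∀ v ∈ S, v ∈ b → ∀ g ∈ Inr (Qv v), ∀ x : AlgebraicClosure K,
      x ^ p = algebraMap K (AlgebraicClosure K) D0 → g x = x)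
    {k : ℕ} {z : Fin k → ZMod p} {q : Fin k → HS K} (D : Kˣ) (hD : Fits p y D0 z q (D : K))
    (hbad : ∀ b ∈ B, ¬ Bad p (AB p b) (D : K))
    (ρ : GK K →* Matrix (Fin N) (Fin N) ℤ_[p]) (hρ : RepK S ρ) (J : HS K → Fin N → Prop)
    (W : Ideal (OO K) → Submodule ℚ_[p] (Fin N → ℚ_[p])) (hW : FilK S J ρ W)
    (hJ : ∀ j : Fin N, ∃ b ∈ B, ∀ v ∈ S, J v j → v ∈ b)
    (c : kerX (kp_mul_right hζ D) → Fin N → ℚ_[p])
    (hc : SelK S ρ W (kerX (kp_mul_right hζ D)) c) :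
    (∃ σ, kp hζ D σ = 1) ∧
    ∃ c' : (⊤ : Subgroup (GK K)) → Fin N → ℚ_[p], SelK S ρ W ⊤ c' ∧ ∃ x : Fin N → ℚ_[p],
      ∀ (σ : kerX (kp_mul_right hζ D)) (τ : (⊤ : Subgroup (GK K))), (τ : GK K) = σ →
        c σ = c' τ + (mQ (ρ σ) x - x) := by
  set E : Kˣ := Units.mk0 D0 hD0 with hE
  -- the characters of `D` and `D0` are equal at the primes of `S`
  have heq : ∀ v ∈ S, ∀ g ∈ Dec (Qv v), kp hζ D g = kp hζ E g := by
    intro v hv g hg
    have h1 := hD.loc v (hSy v hv)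
    have h2 : (D : K) / D0 = ((D * E⁻¹ : Kˣ) : K) := by
      rw [Units.val_mul, Units.val_inv_eq_inv_val, hE, Units.val_mk0, div_eq_mul_inv]
    rw [h2] at h1
    have h3 := kp_of_lpw hζ v _ h1 g hg
    rw [kp_mul_left, kp_inv_left] at h3
    linear_combination h3
  have hs : ∀ v ∈ S, ∃ g ∈ Dec (Qv v), kp hζ D g ≠ 0 := by
    intro v hv
    by_contra hne
    push Not at hne
    exact hns v hv (lpw_of_kp hζ v E fun g hg => by rw [← heq v hv g hg, hne g hg])
  have hu : ∀ b ∈ B, ∀ v ∈ S, v ∈ b → ∀ g ∈ Inr (Qv v), kp hζ D g = 0 := by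
    intro b hb v hv hvb g hg
    rw [heq v hv g (Inr_le _ hg)]
    exact (kp_zero_iff hζ (rt_pow E)).2 (hu0 b hb v hv hvb g hg _ (rt_pow E))
  have hσ : ∃ σ, kp hζ D σ = 1 := by
    obtain ⟨v, hv⟩ := exists_dp (K := K) p
    obtain ⟨g, -, hg⟩ := hs v (hpS v hv)
    have hpow : ∀ n : ℕ, kp hζ D (g ^ n) = n * kp hζ D g := by
      intro n
      induction n with
      | zero => rw [pow_zero, kp_one_right, Nat.cast_zero, zero_mul]
      | succ n ih => rw [pow_succ, kp_mul_right, ih]; push_cast; ring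
    refine ⟨g ^ ((kp hζ D g)⁻¹).val, ?_⟩
    rw [hpow, ZMod.natCast_zmod_val]
    exact inv_mul_cancel₀ hg
  exact ⟨hσ, main_one hp2 hζ hpS D hσ hs B hu hbad ρ hρ J W hW hJ c hc⟩

/-- the fixing subgroup of `K(x)`, `x ^ p = D` -/
theorem fix_adjoin (hζ : IsPrimitiveRoot ζ p) (D : Kˣ) {x : AlgebraicClosure K}
    (hx : x ^ p = algebraMap K (AlgebraicClosure K) D) :
    (IntermediateField.adjoin K {x}).fixingSubgroup = kerX (kp_mul_right hζ D) := by
  ext g
  rw [IntermediateField.mem_fixingSubgroup_iff, mem_kerX, kp_zero_iff hζ hx]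
  constructor
  · intro h
    exact h x (IntermediateField.mem_adjoin_simple_self K x)
  · intro h y hy
    let F : IntermediateField K (AlgebraicClosure K) :=
      IntermediateField.fixedField (Subgroup.zpowers g)
    have h1 : IntermediateField.adjoin K {x} ≤ F := by
      rw [IntermediateField.adjoin_simple_le_iff, IntermediateField.mem_fixedField_iff]
      intro f hf
      obtain ⟨n, rfl⟩ := Subgroup.mem_zpowers_iff.1 hf
      have h2 : g ∈ MulAction.stabilizer (GK K) x := h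
      exact (MulAction.stabilizer (GK K) x).zpow_mem h2 n
    have h3 := (IntermediateField.mem_fixedField_iff _ _).1 (h1 hy) g (Subgroup.mem_zpowers g)
    exact h3

end Pool.Agent.H16.FL
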