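import Pool.Agent.H16.FL.Tra
import Pool.Graph.R_pool_sql_team_seeded_3997aac3.Q150.LK.HS1A
import Pool.Graph.R_pool_sql_team_seeded_3997aac3.Q7.LK.All2
import Pool.Graph.R_pool_sql_team_seeded_3dad9d7b.NH7.Sch.Reg

/-!
# The Hilbert symbol of a unit and of an unramified number
-/

set_option autoImplicit false
set_option linter.unusedSectionVars false

namespace Pool.Agent.H16.FL

open NumberField IsDedekindDomain Finset Polynomial
open Pool.Agent.Q7.LK Pool.Agent.Q92.AR Pool.Agent.Q20.EX Pool.Agent.Q150.LK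

/-- reciprocity for a Kummer extension in which the prime `v₀` is unramified -/
theorem hs1u {p : ℕ} [Fact p.Prime] (hp2 : p ≠ 2) {F M : Type} [Field F] [NumberField F] [Field M]
    [NumberField M] [Algebra F M] [IsGalois F M] {ζ c : F} (hζ : IsPrimitiveRoot ζ p) (hc0 : c ≠ 0)
    (hc : ¬ IsPow p c) (hK : Kum p F M c) {v₀ : HeightOneSpectrum (𝓞 F)} (hv₀ : Unramified M v₀) :
    {v : HeightOneSpectrum (𝓞 F) | Dp p v ∨ vl p v c ≠ 0}.Finite ∧ ∃ k : ℕ, ∀ x : F, x ≠ 0 →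
    v₀.valuation F x = 1 →
    (∀ v : HeightOneSpectrum (𝓞 F), (Dp p v ∨ vl p v c ≠ 0) → v ≠ v₀ →
      v.valuation F (x - 1) < WithZero.exp (-(k : ℤ))) →
    ∑ᶠ v : {v : HeightOneSpectrum (𝓞 F) // ¬ (Dp p v ∨ vl p v c ≠ 0)}, vl p v.1 x * sy p ζ v.1 c = 0 := by
  classical
  have hB := t_BAS
  have hp : p.Prime := Fact.out
  obtain ⟨R, hR⟩ : ∃ R : Set (HeightOneSpectrum (𝓞 F)), R = {v | Dp p v ∨ vl p v c ≠ 0} := ⟨_, rfl⟩
  have hfv : ∀ x : F, x ≠ 0 → {v : HeightOneSpectrum (𝓞 F) | vl p v x ≠ 0}.Finite := by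
    intro x hx
    refine (prin (Units.mk0 x hx)).support.finite_toSet.subset fun v hv => ?_
    rw [Finset.mem_coe, Finsupp.mem_support_iff]
    intro h0
    apply hv
    have h1 := Pool.Agent.Q150.LK.vl_eq (p := p) v (Units.mk0 x hx)
    rw [Units.val_mk0, h0, Int.cast_zero] at h1
    exact h1
  have hRf : R.Finite := by
    have h1 : R ⊆ {v | (p : 𝓞 F) ∈ v.asIdeal} ∪ {v | vl p v c ≠ 0} := by
      rw [hR]
      rintro v (h | h)
      · exact Or.inl h
      · exact Or.inr h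
    exact ((Pool.Agent.Q125.AR.finite_dvd hp.ne_zero).union (hfv c hc0)).subset h1
  refine ⟨hR ▸ hRf, ?_⟩
  obtain ⟨r, hr⟩ := hK.root
  have hinj : Function.Injective (algebraMap F M) := (algebraMap F M).injective
  have hr0 : r ≠ 0 := by
    rintro rfl
    rw [zero_pow hp.ne_zero] at hr
    exact hc0 ((map_eq_zero _).1 hr.symm)
  obtain ⟨ι⟩ : Nonempty (M →+* ℂ) := inferInstance
  have hnz : NeZero p := ⟨hp.ne_zero⟩
  have hζM : IsPrimitiveRoot (algebraMap F M ζ) p := hζ.map_of_injective hinj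
  have hfix : ∀ g h : M ≃ₐ[F] M, g (h ((Units.mk0 r hr0 : Mˣ) : M) / ((Units.mk0 r hr0 : Mˣ) : M)) =
      h ((Units.mk0 r hr0 : Mˣ) : M) / ((Units.mk0 r hr0 : Mˣ) : M) := by
    intro g h
    rw [Units.val_mk0]
    have h1 : (h r / r) ^ p = 1 := by
      rw [div_pow, ← map_pow, hr, h.commutes, div_self ((_root_.map_ne_zero _).2 hc0)]
    obtain ⟨i, -, hi⟩ := hζM.eq_pow_of_pow_eq_one h1
    rw [← hi, map_pow, g.commutes]
  obtain ⟨ψ, hψ⟩ : ∃ ψ : (M ≃ₐ[F] M) →* ℂˣ, ∀ g, ((ψ g : ℂˣ) : ℂ) = ι (g r / r) :=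
    ⟨Pool.Agent.Q16.EX.kumHom ι (Units.mk0 r hr0) hfix, fun g =>
      Pool.Agent.Q16.EX.kumHom_apply ι (Units.mk0 r hr0) hfix g⟩
  have hζC : IsPrimitiveRoot (ι (algebraMap F M ζ)) p := hζM.map_of_injective ι.injective
  have hz0 : ι (algebraMap F M ζ) ≠ 0 := hζC.ne_zero hp.ne_zero
  obtain ⟨z, hz⟩ : ∃ z : ℂˣ, (z : ℂ) = ι (algebraMap F M ζ) := ⟨Units.mk0 _ hz0, rfl⟩
  have hzp : IsPrimitiveRoot z p := by
    rw [← IsPrimitiveRoot.coe_units_iff, hz]
    exact hζC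
  -- the modulus
  obtain ⟨N0, hN0, -, hN0'⟩ := Pool.Agent.Q92.AR.recip F M ψ
  have hbase : Gd (art ψ) ({v | (N0 : 𝓞 F) ∈ v.asIdeal} ∩ Set.univ) :=
    Gd.of_cong hN0 fun x hx => hN0' x ⟨fun v hv => hx v trivial hv, no_real hp2 hζ _⟩
  obtain ⟨T, ⟨-, k, hk⟩, hTR⟩ := hbase.remove (R := R \ {v₀}) fun v hv => by
    have hun : Unramified M v := by
      by_cases hv0 : v = v₀
      · rw [hv0]
        exact hv₀
      · have hv' : ¬ Dp p v ∧ vl p v c = 0 := by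
          have h1 : v ∉ R := fun h => hv ⟨h, hv0⟩
          rw [hR, Set.mem_ofPred_eq, not_or, not_not] at h1
          exact h1
        exact unram hB hζ hc hK hv'.1 hv'.2
    obtain ⟨N, hN, -, hN'⟩ := Pool.Agent.Q111.EX.good Pool.Agent.Q38.EX.nrm F M ψ v hun
    exact ⟨_, Gd.of_cong hN fun x hx => hN' x (no_real hp2 hζ _) hx, fun h => h.2 rfl⟩
  refine ⟨k, fun x hx hx0 hxk => ?_⟩
  obtain ⟨X, hX⟩ : ∃ X : Fˣ, (X : F) = x := ⟨Units.mk0 x hx, rfl⟩
  have h1 : art ψ (prin X) = 0 := hk X fun v hv => by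
    rw [hX]
    have h2 := hTR hv
    rw [hR] at h2
    exact hxk v h2.1 h2.2
  have hXR : ∀ v ∈ R, prin X v = 0 := by
    intro v hv
    rw [hR] at hv
    have h2 : v.valuation F x = 1 := by
      by_cases hv0 : v = v₀
      · rw [hv0]
        exact hx0
      · exact val_one_of_close ((hxk v hv hv0).trans_le (exp_le_one _))
    rw [← hX, Pool.Agent.Q125.AR.valuation_eq_exp, ← WithZero.exp_zero, WithZero.exp_inj] at h2
    omega
  have hfr : ∀ v ∉ R, ψ (frob M v) = z ^ (sy p ζ v c).val := by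
    intro v hv
    rw [hR, Set.mem_ofPred_eq, not_or, not_not] at hv
    apply Units.ext
    rw [hψ, frob_root hB hζ hc hr hv.1 hv.2, Units.val_pow_eq_pow_val, hz, map_pow, map_pow]
  have h2 : art ψ (prin X) = (∑ v ∈ (prin X).support, prin X v * ((sy p ζ v c).val : ℤ)) •
      Additive.ofMul z := by
    unfold art
    rw [Finsupp.liftAddHom_apply, Finsupp.sum]
    change _ = (zmultiplesHom (Additive ℂˣ)) (Additive.ofMul z)
      (∑ v ∈ (prin X).support, prin X v * ((sy p ζ v c).val : ℤ))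
    rw [map_sum]
    refine Finset.sum_congr rfl fun v hv => ?_
    have hvR : v ∉ R := fun h => (Finsupp.mem_support_iff.1 hv) (hXR v h)
    change prin X v • Additive.ofMul (ψ (frob M v)) =
      (prin X v * ((sy p ζ v c).val : ℤ)) • Additive.ofMul z
    rw [hfr v hvR, ofMul_pow, mul_smul, natCast_zsmul]
  rw [h2] at h1
  have h3 : z ^ (∑ v ∈ (prin X).support, prin X v * ((sy p ζ v c).val : ℤ)) = 1 := by
    have := congrArg Additive.toMul h1
    exact this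
  rw [hzp.zpow_eq_one_iff_dvd, ← ZMod.intCast_zmod_eq_zero_iff_dvd] at h3
  have h4 : ∑ v ∈ (prin X).support, vl p v x * sy p ζ v c = 0 := by
    rw [← h3]
    push_cast
    refine Finset.sum_congr rfl fun v _ => ?_
    rw [← hX, Pool.Agent.Q150.LK.vl_eq, ZMod.natCast_zmod_val]
  have h5 : ∑ᶠ v : {v : HeightOneSpectrum (𝓞 F) // ¬ (Dp p v ∨ vl p v c ≠ 0)},
      vl p v.1 x * sy p ζ v.1 c = ∑ᶠ v ∈ Rᶜ, vl p v x * sy p ζ v c := by
    rw [← finsum_set_coe_eq_finsum_mem, hR]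
    rfl
  rw [h5]
  refine Eq.trans ?_ h4
  apply finsum_mem_eq_sum_of_inter_support_eq
  ext v
  constructor
  · rintro ⟨hv, hv'⟩
    refine ⟨?_, hv'⟩
    rw [Finset.mem_coe, Finsupp.mem_support_iff]
    intro h0
    apply hv'
    simp only [← hX, Pool.Agent.Q150.LK.vl_eq, h0, Int.cast_zero, zero_mul]
  · rintro ⟨hv, hv'⟩
    refine ⟨fun h => ?_, hv'⟩
    exact (Finsupp.mem_support_iff.1 hv) (hXR v h)

section

open Pool.Agent.W401.Cheb Pool.Agent.NH7.Sch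
open Pool.Agent.NH7.GU (HS Qv Qv_max Qv_comap Hm hm_conj)

variable {K : Type} [Field K] [NumberField K] {p : ℕ} [hp : Fact p.Prime] {ζ : K}

/-- the Kummer extension of an unramified number is unramified -/
theorem unr_fld (hζ : IsPrimitiveRoot ζ p) {v : HS K} {D : Kˣ}
    (hu : ∀ g ∈ Inr (Qv v), kp hζ D g = 0) [NumberField (fld (kp_mul_right hζ D))]
    [IsGalois K (fld (kp_mul_right hζ D))] :
    Unramified (fld (kp_mul_right hζ D)) v := by
  apply Pool.Agent.Q16.EX.unr_of_inertia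
  intro w hw g hg
  obtain ⟨Q, hQ, hQw⟩ : ∃ Q : Ideal (OO K), Q.IsMaximal ∧
      Q.comap (algebraMap (𝓞 (fld (kp_mul_right hζ D))) (OO K)) = w.asIdeal := by
    have hmax : w.asIdeal.IsMaximal := w.isMaximal
    have hint : Algebra.IsIntegral (𝓞 (fld (kp_mul_right hζ D))) (OO K) := inferInstance
    have hinj : Function.Injective (algebraMap (𝓞 (fld (kp_mul_right hζ D))) (OO K)) :=
      FaithfulSMul.algebraMap_injective _ _
    obtain ⟨Q, hQ, hQw⟩ := Ideal.exists_ideal_over_maximal_of_isIntegral (S := OO K) w.asIdeal (by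
      rw [(RingHom.injective_iff_ker_eq_bot _).1 hinj]
      exact bot_le)
    exact ⟨Q, hQ, hQw⟩
  have hQv : Q.comap (algebraMap (𝓞 K) (OO K)) = v.asIdeal := by
    rw [IsScalarTower.algebraMap_eq (𝓞 K) (𝓞 (fld (kp_mul_right hζ D))) (OO K),
      ← Ideal.comap_comap, hQw, ← hw]
    rfl
  obtain ⟨τ, hτ, hτg⟩ := inr_lift (fld (kp_mul_right hζ D)) hQ g (fun a => by
    have h1 := hg a
    rw [← hQw, Ideal.mem_comap] at h1
    exact h1)
  have h0 : kp hζ D τ = 0 := by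
    obtain ⟨σ, hσ⟩ := Pool.Agent.NH7.GU.s_cnj K v Q (Qv v) hQ (Qv_max v) hQv (Qv_comap v)
    have h1 : σ * τ * σ⁻¹ ∈ Inr (Qv v) := by
      rw [hσ]
      exact (Inr_mv σ τ).1 hτ
    have h2 := hu _ h1
    rwa [hm_conj ⟨kp_cont hζ D, kp_mul_right hζ D⟩] at h2
  apply AlgEquiv.ext
  intro x
  apply Subtype.ext
  rw [← hτg x]
  exact fld_triv (kp_mul_right hζ D) h0 x

theorem unit_sym (hp2 : p ≠ 2) (hζ : IsPrimitiveRoot ζ p) {t : HS K → K → K → ZMod p}
    (ht : Hilb p ζ t) {v : HS K} (hv : Dp p v) {D : Kˣ} (hσ : ∃ σ, kp hζ D σ = 1)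
    (hu : ∀ g ∈ Inr (Qv v), kp hζ D g = 0) {a : K} (ha : a ≠ 0) (hva : vl p v a = 0) :
    t v a (D : K) = 0 := by
  have hB := t_BAS
  obtain ⟨σ, hσ⟩ := hσ
  have h1 := kp_mul_right hζ D
  have h2 := kp_cont hζ D
  have hgal : IsGalois K (fld (kp_mul_right hζ D)) := fld_gal h2 h1
  have hfin : FiniteDimensional K (fld (kp_mul_right hζ D)) := fld_fin h2 h1
  have hnf : NumberField (fld (kp_mul_right hζ D)) := NumberField.of_module_finite K _
  have hun := unr_fld hζ hu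
  have hdeg : Module.finrank K (fld (kp_mul_right hζ D)) = p := by
    rw [← IsGalois.card_aut_eq_finrank, (fld_cyc h2 h1 hσ).2]
  have h3 : rt p D ∈ fld (kp_mul_right hζ D) :=
    mem_fld h1 fun g hg => (kp_zero_iff hζ (rt_pow D)).1 hg
  have hK : Kum p K (fld (kp_mul_right hζ D)) (D : K) := ⟨hdeg, ⟨rt p D, h3⟩, by
    apply Subtype.ext
    exact rt_pow D⟩
  have hnp : ¬ IsPow p (D : K) := by
    rintro ⟨x, hx⟩
    have hx0 : x ≠ 0 := by
      rintro rfl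
      rw [zero_pow hp.out.ne_zero] at hx
      exact D.ne_zero hx
    have e : D = (Units.mk0 x hx0) ^ p := by
      apply Units.ext
      rw [Units.val_pow_eq_pow_val, Units.val_mk0, hx]
    rw [e, kp_ppow] at hσ
    exact zero_ne_one hσ
  obtain ⟨hRf, k, hk⟩ := hs1u hp2 hζ D.ne_zero hnp hK hun
  -- a unit
  obtain ⟨m, hm⟩ := Pool.Agent.Q65.LK.val_exp v a ha
  have hpm : (p : ℤ) ∣ m := by
    unfold vl at hva
    rw [hm, WithZero.log_exp, neg_eq_zero, ZMod.intCast_zmod_eq_zero_iff_dvd] at hva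
    exact hva
  obtain ⟨n, rfl⟩ := hpm
  obtain ⟨π, hπ⟩ := v.valuation_exists_uniformizer K
  have hπ0 : π ≠ 0 := by
    rintro rfl
    rw [map_zero] at hπ
    exact WithZero.exp_ne_zero hπ.symm
  have hzp : a * (π ^ n) ^ p ≠ 0 := mul_ne_zero ha (pow_ne_zero _ (zpow_ne_zero _ hπ0))
  have hone : v.valuation K (a * (π ^ n) ^ p) = 1 := by
    rw [map_mul, map_pow, map_zpow₀, hm, hπ, ← WithZero.exp_zsmul, ← WithZero.exp_nsmul,
      ← WithZero.exp_add, ← WithZero.exp_zero, WithZero.exp_inj]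
    simp
  have hta : t v (a * (π ^ n) ^ p) (D : K) = t v a (D : K) := by
    rw [ht.mul v _ _ _ ha (pow_ne_zero _ (zpow_ne_zero _ hπ0)) D.ne_zero,
      ht.pow v _ _ (Pool.Agent.Q14.LK.lpw_pow hB v (zpow_ne_zero _ hπ0)) D.ne_zero, add_zero]
  rw [← hta]
  -- approximation
  have hvR : v ∈ {v : HS K | Dp p v ∨ vl p v (D : K) ≠ 0} := Or.inl hv
  have hlp : ∀ w : HS K, ∃ l : ℕ, ∀ x : K, w.valuation K (x - 1) < WithZero.exp (-(l : ℤ)) →
      Lpw p w x := by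
    intro w
    have hp0 : w.valuation K ((p : K) ^ 2) ≠ 0 :=
      (Valuation.ne_zero_iff _).2 (pow_ne_zero _ (Nat.cast_ne_zero.2 hp.out.ne_zero))
    obtain ⟨l, hl⟩ := Pool.Agent.Q162.LK.exp_lt_of_ne hp0
    refine ⟨l, fun x hx => (hB p K w).2.2.2.2.2.1 x 1 ?_⟩
    rw [one_pow, mul_one]
    exact hx.trans (hl l le_rfl)
  choose l hl using hlp
  obtain ⟨L, hL⟩ : ∃ L : ℕ, ∀ w ∈ {v : HS K | Dp p v ∨ vl p v (D : K) ≠ 0}, l w ≤ L := by
    refine ⟨hRf.toFinset.sup l, fun w hw => Finset.le_sup (hRf.mem_toFinset.2 hw)⟩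
  obtain ⟨e, he0, he1, he2⟩ := Pool.Agent.Q65.LK.exists_apx _ hRf v hvR (a * (π ^ n) ^ p) hzp
    (max k L)
  have hev : v.valuation K e = 1 := by
    have h5 := val_one_of_close (he1.trans_le (exp_le_one _))
    rw [map_div₀, hone, div_one] at h5
    exact h5
  have hLe : Lpw p v (e / (a * (π ^ n) ^ p)) :=
    hl v _ (he1.trans_le (exp_anti ((hL v hvR).trans (le_max_right _ _))))
  have hte : t v (a * (π ^ n) ^ p) (D : K) = t v e (D : K) := by
    have h6 := ht.mul v (e / (a * (π ^ n) ^ p)) (a * (π ^ n) ^ p) (D : K) (div_ne_zero he0 hzp) hzp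
      D.ne_zero
    rw [div_mul_cancel₀ _ hzp, ht.pow v _ _ hLe D.ne_zero, zero_add] at h6
    exact h6.symm
  rw [hte]
  have hsum := hk e he0 hev fun w hw hwv => (he2 w hw hwv).trans_le (exp_anti (le_max_left _ _))
  obtain ⟨hsf, hs0⟩ := ht.sum e (D : K) he0 D.ne_zero
  have hout : ∀ w, ¬ (Dp p w ∨ vl p w (D : K) ≠ 0) → t w e (D : K) = vl p w e * sy p ζ w (D : K) := by
    intro w hw
    rw [not_or, not_not] at hw
    exact ht.unr w hw.1 (D : K) D.ne_zero hw.2 e he0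
  have hin : ∀ w, (Dp p w ∨ vl p w (D : K) ≠ 0) → w ≠ v → t w e (D : K) = 0 := by
    intro w hw hwv
    exact ht.pow w e (D : K) (hl w e ((he2 w hw hwv).trans_le
      (exp_anti ((hL w hw).trans (le_max_right _ _))))) D.ne_zero
  classical
  have e1 : ∑ᶠ w, t w e (D : K) = ∑ᶠ w ∈ {v : HS K | Dp p v ∨ vl p v (D : K) ≠ 0}, t w e (D : K) +
      ∑ᶠ w ∈ {v : HS K | Dp p v ∨ vl p v (D : K) ≠ 0}ᶜ, t w e (D : K) := by
    rw [← finsum_mem_univ, ← Set.union_compl_self {v : HS K | Dp p v ∨ vl p v (D : K) ≠ 0}]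
    exact finsum_mem_union' disjoint_compl_right (hsf.subset fun w hw => hw.2)
      (hsf.subset fun w hw => hw.2)
  have e2 : ∑ᶠ w ∈ {v : HS K | Dp p v ∨ vl p v (D : K) ≠ 0}, t w e (D : K) = t v e (D : K) := by
    rw [finsum_mem_inter_support_eq _ _ {v}]
    · exact finsum_mem_singleton
    · ext w
      constructor
      · rintro ⟨hw, hw2⟩
        refine ⟨?_, hw2⟩
        by_contra hwv
        exact hw2 (hin w hw hwv)
      · rintro ⟨hw, hw2⟩
        rw [Set.mem_singleton_iff] at hw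
        rw [hw] at hw2 ⊢
        exact ⟨hvR, hw2⟩
  have e3 : ∑ᶠ w ∈ {v : HS K | Dp p v ∨ vl p v (D : K) ≠ 0}ᶜ, t w e (D : K) = 0 := by
    rw [← finsum_set_coe_eq_finsum_mem]
    refine Eq.trans (finsum_congr fun w => hout w.1 w.2) ?_
    exact hsum
  rw [e1, e2, e3, add_zero] at hs0
  exact hs0

end

end Pool.Agent.H16.FL
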